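import Mathlib

/-! Basic definitions for the upper bound of `f_d(n)` (helper69, note 2869). -/

namespace Pool.Agent.H69.FK

open Finset

/-- A node of the `q`-ary tree: (size exponent, index); `(s, a)` is the interval
`[a * q ^ s, (a + 1) * q ^ s)` of host rows or host columns. -/
abbrev Nd := ℕ × ℕ

/-- a finite probability space -/
structure FP (Ω : Type) where
  S : Finset Ω
  p : Ω → ℝ
  nn : ∀ w, 0 ≤ p w
  one : ∑ w ∈ S, p w = 1

/-- expectation -/
noncomputable def FP.E {Ω : Type} (μ : FP Ω) (Z : Ω → ℝ) : ℝ := ∑ w ∈ μ.S, μ.p w * Z w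

/-- a nonnegative function on nodes which is the average of its values at the children -/
structure Harm1 (q : ℕ) (g : Nd → ℝ) : Prop where
  nn : ∀ P, 0 ≤ g P
  av : ∀ s a, (q : ℝ) * g (s + 1, a) = ∑ i ∈ range q, g (s, q * a + i)

/-- the subinterval of `P` chosen by the option `ω = (j, r, x)` : `j` levels deeper, index `r` -/
def nd1 (q : ℕ) (P : Nd) (ω : ℕ × ℕ × ℕ) : Nd := (P.1 - ω.1, q ^ ω.1 * P.2 + ω.2.1)

/-- the `k`-th cell of the option `ω = (j, r, x)`: child number `x + k` of `nd1 q P ω` -/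
def cell (q : ℕ) (P : Nd) (ω : ℕ × ℕ × ℕ) (k : ℕ) : Nd :=
  (P.1 - ω.1 - 1, q * (q ^ ω.1 * P.2 + ω.2.1) + (ω.2.2 + k))

/-- the spiky part -/
noncomputable def spk (h R x y : ℝ) : ℝ := if R * x < y then y ^ h else 0

lemma spk_nonneg {h R x y : ℝ} (hy : 0 ≤ y) : 0 ≤ spk h R x y := by
  unfold spk; split_ifs
  · exact Real.rpow_nonneg hy h
  · exact le_rfl

/-- `y ^ h ≤ R * x ^ h + spk` -/
lemma pow_le_spk {h R x y : ℝ} (hh0 : 0 ≤ h) (hh : h ≤ 1) (hR : 1 ≤ R) (hx : 0 ≤ x) (hy : 0 ≤ y) :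
    y ^ h ≤ R * x ^ h + spk h R x y := by
  have hxh : 0 ≤ x ^ h := Real.rpow_nonneg hx h
  unfold spk
  split_ifs with hc
  · nlinarith
  · push Not at hc
    have h1 : y ^ h ≤ (R * x) ^ h := Real.rpow_le_rpow hy hc hh0
    rw [Real.mul_rpow (by linarith) hx] at h1
    have h2 : R ^ h ≤ R := by
      calc R ^ h ≤ R ^ (1 : ℝ) := Real.rpow_le_rpow_of_exponent_le hR hh
        _ = R := Real.rpow_one R
    nlinarith

end Pool.Agent.H69.FK
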