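import Pool.Agent.H69.FK.Ctx

/-! Module DENS. Densities of a red set. -/

namespace Pool.Agent.H69.FK

open Finset

/-- density of `W` in the box of two nodes -/
noncomputable def dens (q : ℕ) (W : Set (ℕ × ℕ)) (P I : Nd) : ℝ :=
  ((W ∩ {z | q ^ P.1 * P.2 ≤ z.1 ∧ z.1 < q ^ P.1 * (P.2 + 1) ∧
    q ^ I.1 * I.2 ≤ z.2 ∧ z.2 < q ^ I.1 * (I.2 + 1)}).ncard : ℝ) / ((q : ℝ) ^ P.1 * (q : ℝ) ^ I.1)

open Classical in
/-- indicator of the red set -/
noncomputable def dwt (W : Set (ℕ × ℕ)) (x y : ℕ) : ℝ := if (x, y) ∈ W then 1 else 0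

lemma dwt_nonneg (W : Set (ℕ × ℕ)) (x y : ℕ) : 0 ≤ dwt W x y := by
  unfold dwt; split_ifs <;> norm_num

lemma dwt_le_one (W : Set (ℕ × ℕ)) (x y : ℕ) : dwt W x y ≤ 1 := by
  unfold dwt; split_ifs <;> norm_num

open Classical in
lemma dens_eq (q : ℕ) (W : Set (ℕ × ℕ)) (P I : Nd) :
    dens q W P I = (∑ x ∈ Ico (q ^ P.1 * P.2) (q ^ P.1 * (P.2 + 1)),
      ∑ y ∈ Ico (q ^ I.1 * I.2) (q ^ I.1 * (I.2 + 1)), dwt W x y) /
        ((q : ℝ) ^ P.1 * (q : ℝ) ^ I.1) := by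
  unfold dens
  congr 1
  have h1 : (W ∩ {z | q ^ P.1 * P.2 ≤ z.1 ∧ z.1 < q ^ P.1 * (P.2 + 1) ∧
      q ^ I.1 * I.2 ≤ z.2 ∧ z.2 < q ^ I.1 * (I.2 + 1)}) =
      (((Ico (q ^ P.1 * P.2) (q ^ P.1 * (P.2 + 1)) ×ˢ
        Ico (q ^ I.1 * I.2) (q ^ I.1 * (I.2 + 1))).filter (fun z => z ∈ W) :
        Finset (ℕ × ℕ)) : Set (ℕ × ℕ)) := by
    ext z
    simp only [Set.mem_inter_iff, Set.mem_setOf_eq, Finset.coe_filter, Finset.mem_product,
      Finset.mem_Ico]
    tauto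
  rw [h1, Set.ncard_coe_finset, Finset.card_filter, Finset.sum_product]
  push_cast
  unfold dwt
  rfl

lemma sum_blocks (f : ℕ → ℝ) (c s m : ℕ) :
    ∑ i ∈ range m, ∑ x ∈ Ico (s * (c + i)) (s * (c + i + 1)), f x =
      ∑ x ∈ Ico (s * c) (s * (c + m)), f x := by
  induction m with
  | zero => simp
  | succ m ih =>
    rw [Finset.sum_range_succ, ih]
    rw [Finset.sum_Ico_consecutive]
    · rfl
    · exact Nat.mul_le_mul_left _ (by omega)
    · exact Nat.mul_le_mul_left _ (by omega)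

lemma sum_children (q : ℕ) (f : ℕ → ℝ) (s a : ℕ) :
    ∑ i ∈ range q, ∑ x ∈ Ico (q ^ s * (q * a + i)) (q ^ s * (q * a + i + 1)), f x =
      ∑ x ∈ Ico (q ^ (s + 1) * a) (q ^ (s + 1) * (a + 1)), f x := by
  rw [sum_blocks]
  have h1 : q ^ s * (q * a) = q ^ (s + 1) * a := by ring
  have h2 : q ^ s * (q * a + q) = q ^ (s + 1) * (a + 1) := by ring
  rw [h1, h2]

theorem dens_harm (q : ℕ) (hq : 1 ≤ q) (W : Set (ℕ × ℕ)) : Harm2 q (dens q W) := by
  have hq0 : (q : ℝ) ≠ 0 := by exact_mod_cast (by omega : q ≠ 0)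
  constructor
  · intro I
    constructor
    · intro P
      unfold dens
      positivity
    · intro s a
      simp only [dens_eq]
      rw [← Finset.sum_div, ← sum_children, pow_succ]
      field_simp
  · intro P
    constructor
    · intro I
      unfold dens
      positivity
    · intro s a
      simp only [dens_eq]
      rw [← Finset.sum_div, Finset.sum_comm, ← sum_children, pow_succ]
      have : ∀ i ∈ range q, ∑ x ∈ Ico (q ^ P.1 * P.2) (q ^ P.1 * (P.2 + 1)),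
          ∑ y ∈ Ico (q ^ s * (q * a + i)) (q ^ s * (q * a + i + 1)), dwt W x y =
          ∑ y ∈ Ico (q ^ s * (q * a + i)) (q ^ s * (q * a + i + 1)),
            ∑ x ∈ Ico (q ^ P.1 * P.2) (q ^ P.1 * (P.2 + 1)), dwt W x y :=
        fun i _ => Finset.sum_comm
      rw [Finset.sum_congr rfl this]
      field_simp

theorem dens_le_one (q : ℕ) (hq : 1 ≤ q) (W : Set (ℕ × ℕ)) (P I : Nd) : dens q W P I ≤ 1 := by
  have hq0 : (0 : ℝ) < q := by exact_mod_cast hq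
  rw [dens_eq]
  have hpos : (0 : ℝ) < (q : ℝ) ^ P.1 * (q : ℝ) ^ I.1 := by positivity
  rw [div_le_one hpos]
  calc ∑ x ∈ Ico (q ^ P.1 * P.2) (q ^ P.1 * (P.2 + 1)),
        ∑ y ∈ Ico (q ^ I.1 * I.2) (q ^ I.1 * (I.2 + 1)), dwt W x y
      ≤ ∑ x ∈ Ico (q ^ P.1 * P.2) (q ^ P.1 * (P.2 + 1)),
        ∑ y ∈ Ico (q ^ I.1 * I.2) (q ^ I.1 * (I.2 + 1)), (1 : ℝ) :=
        Finset.sum_le_sum (fun x _ => Finset.sum_le_sum (fun y _ => dwt_le_one W x y))
    _ = (q : ℝ) ^ P.1 * (q : ℝ) ^ I.1 := by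
        simp only [Finset.sum_const, Nat.card_Ico, nsmul_eq_mul, mul_one]
        have h1 : q ^ P.1 * (P.2 + 1) - q ^ P.1 * P.2 = q ^ P.1 := by
          rw [Nat.mul_add, Nat.mul_one, Nat.add_sub_cancel_left]
        have h2 : q ^ I.1 * (I.2 + 1) - q ^ I.1 * I.2 = q ^ I.1 := by
          rw [Nat.mul_add, Nat.mul_one, Nat.add_sub_cancel_left]
        rw [h1, h2]
        push_cast
        ring

/-- a node with small total red density towards `d` host columns has a row which is blue there -/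
theorem exists_blue (q : ℕ) (hq : 1 ≤ q) (W : Set (ℕ × ℕ)) (P : Nd) {d : ℕ} (y : Fin d → ℕ)
    (hy : ∑ e, dens q W P (0, y e) < 1) :
    ∃ t, q ^ P.1 * P.2 ≤ t ∧ t < q ^ P.1 * (P.2 + 1) ∧ ∀ e, (t, y e) ∉ W := by
  classical
  by_contra hcon
  push Not at hcon
  have hq0 : (0 : ℝ) < q := by exact_mod_cast hq
  have hpos : (0 : ℝ) < (q : ℝ) ^ P.1 := by positivity
  have h1 : ∑ e, dens q W P (0, y e) =
      (∑ x ∈ Ico (q ^ P.1 * P.2) (q ^ P.1 * (P.2 + 1)), ∑ e, dwt W x (y e)) / (q : ℝ) ^ P.1 := by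
    simp only [dens_eq, pow_zero, one_mul, mul_one]
    rw [← Finset.sum_div, Finset.sum_comm]
    congr 1
    refine Finset.sum_congr rfl (fun x _ => Finset.sum_congr rfl (fun e _ => ?_))
    rw [Nat.Ico_succ_singleton, Finset.sum_singleton]
  have h2 : (q : ℝ) ^ P.1 ≤ ∑ x ∈ Ico (q ^ P.1 * P.2) (q ^ P.1 * (P.2 + 1)),
      ∑ e, dwt W x (y e) := by
    calc (q : ℝ) ^ P.1 = ∑ x ∈ Ico (q ^ P.1 * P.2) (q ^ P.1 * (P.2 + 1)), (1 : ℝ) := by
          simp only [Finset.sum_const, Nat.card_Ico, nsmul_eq_mul, mul_one]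
          have h1 : q ^ P.1 * (P.2 + 1) - q ^ P.1 * P.2 = q ^ P.1 := by
            rw [Nat.mul_add, Nat.mul_one, Nat.add_sub_cancel_left]
          rw [h1]
          push_cast
          ring
      _ ≤ _ := by
          refine Finset.sum_le_sum (fun x hx => ?_)
          rw [Finset.mem_Ico] at hx
          obtain ⟨e, he⟩ := hcon x hx.1 hx.2
          calc (1 : ℝ) = dwt W x (y e) := by simp [dwt, he]
            _ ≤ ∑ e, dwt W x (y e) :=
              Finset.single_le_sum (f := fun e => dwt W x (y e))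
                (fun e _ => dwt_nonneg W x (y e)) (Finset.mem_univ e)
  rw [h1, div_lt_one hpos] at hy
  linarith

end Pool.Agent.H69.FK
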