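import Pool.Agent.H69.FK.Iter
import Pool.Agent.H69.FK.Dens

/-! Module BOXF. Theorem F for boxes of exact size. -/

namespace Pool.Agent.H69.FK

open Finset

private lemma par_delta (δ : ℝ) (hδ : 0 < δ) (hδ2 : δ ≤ 1 / 2) :
    Par (1 - δ / 2) ((4 : ℝ) ^ (2 / δ)) where
  hh := by linarith
  hh1 := by linarith
  hR := Real.one_le_rpow (by norm_num) (by positivity)
  hR4 := by
    rw [← Real.rpow_mul (by norm_num)]
    have : 2 / δ * (1 - (1 - δ / 2)) = 1 := by field_simp; ring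
    rw [this, Real.rpow_one]

/-- the choice of `b` -/
private lemma exists_b (C : ℝ) (hC : 1 ≤ C) : ∃ b : ℕ, 2 ≤ b ∧
    C * (4 * b + 1 : ℝ) ^ 2 ≤ (b : ℝ) ^ 3 := by
  refine ⟨⌈25 * C⌉₊, ?_, ?_⟩
  · have h1 : (25 : ℝ) * C ≤ ⌈25 * C⌉₊ := Nat.le_ceil _
    have h2 : (2 : ℝ) ≤ (⌈25 * C⌉₊ : ℕ) := by linarith
    exact_mod_cast h2
  · set b : ℝ := ((⌈25 * C⌉₊ : ℕ) : ℝ) with hb
    have h1 : (25 : ℝ) * C ≤ b := Nat.le_ceil _
    have hb1 : 1 ≤ b := by linarith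
    have h2 : (4 * b + 1) ^ 2 ≤ 25 * b ^ 2 := by nlinarith
    have h3 : C * (4 * b + 1) ^ 2 ≤ C * (25 * b ^ 2) :=
      mul_le_mul_of_nonneg_left h2 (by linarith)
    have h4 : 25 * C * b ^ 2 ≤ b * b ^ 2 := mul_le_mul_of_nonneg_right h1 (by positivity)
    nlinarith

/-- the root potential -/
private lemma root_small (δ : ℝ) (hδ : 0 < δ) (hδ2 : δ ≤ 1 / 2) (lam : ℕ) (hlam : 8 / δ ≤ lam)
    (C : ℝ) (hC : 1 ≤ C) (b : ℕ) (hbC : C * (4 * b + 1 : ℝ) ^ 2 ≤ (b : ℝ) ^ 3)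
    (d n D : ℕ) (hn : 2 * b ^ 3 * d ^ lam + 1 ≤ n) (hD : b ^ D ≤ b * n) (X : ℝ) (hX0 : 0 ≤ X)
    (hX : X ≤ (n : ℝ) ^ (-(1 / 2 + δ))) :
    (C * (4 * b + 1 : ℝ) ^ 2) ^ D * (2 * (d * Real.sqrt n * X ^ (1 - δ / 2)) ^ lam) < 1 := by
  have hn1 : 1 ≤ n := by omega
  have hnR : (1 : ℝ) ≤ n := by exact_mod_cast hn1
  have hn0 : (0 : ℝ) < n := by linarith
  -- the first factor
  have h1 : (C * (4 * b + 1 : ℝ) ^ 2) ^ D ≤ ((b : ℝ) * n) ^ 3 := by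
    calc (C * (4 * b + 1 : ℝ) ^ 2) ^ D ≤ ((b : ℝ) ^ 3) ^ D :=
          pow_le_pow_left₀ (by positivity) hbC D
      _ = ((b : ℝ) ^ D) ^ 3 := by rw [← pow_mul, ← pow_mul, mul_comm]
      _ ≤ ((b : ℝ) * n) ^ 3 := by
          apply pow_le_pow_left₀ (by positivity)
          exact_mod_cast hD
  -- the second factor
  have h2 : X ^ (1 - δ / 2) ≤ (n : ℝ) ^ (-(1 / 2 + δ) * (1 - δ / 2)) := by
    rw [Real.rpow_mul hn0.le]
    exact Real.rpow_le_rpow hX0 hX (by linarith)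
  have h3 : Real.sqrt n * X ^ (1 - δ / 2) ≤ (n : ℝ) ^ (-(δ / 2)) := by
    calc Real.sqrt n * X ^ (1 - δ / 2)
        ≤ (n : ℝ) ^ (1 / 2 : ℝ) * (n : ℝ) ^ (-(1 / 2 + δ) * (1 - δ / 2)) := by
          rw [Real.sqrt_eq_rpow]
          exact mul_le_mul_of_nonneg_left h2 (by positivity)
      _ = (n : ℝ) ^ ((1 / 2 : ℝ) + -(1 / 2 + δ) * (1 - δ / 2)) := by
          rw [Real.rpow_add hn0]
      _ ≤ (n : ℝ) ^ (-(δ / 2)) := by
          apply Real.rpow_le_rpow_of_exponent_le hnR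
          nlinarith
  have h4 : (d * Real.sqrt n * X ^ (1 - δ / 2)) ^ lam ≤ (d : ℝ) ^ lam * (n : ℝ) ^ (-(4 : ℝ)) := by
    have hXh : 0 ≤ X ^ (1 - δ / 2) := Real.rpow_nonneg hX0 _
    calc (d * Real.sqrt n * X ^ (1 - δ / 2)) ^ lam
        = (d : ℝ) ^ lam * (Real.sqrt n * X ^ (1 - δ / 2)) ^ lam := by
          rw [mul_assoc, mul_pow]
      _ ≤ (d : ℝ) ^ lam * ((n : ℝ) ^ (-(δ / 2))) ^ lam := by
          apply mul_le_mul_of_nonneg_left _ (by positivity)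
          exact pow_le_pow_left₀ (by positivity) h3 lam
      _ ≤ (d : ℝ) ^ lam * (n : ℝ) ^ (-(4 : ℝ)) := by
          apply mul_le_mul_of_nonneg_left _ (by positivity)
          rw [← Real.rpow_natCast, ← Real.rpow_mul hn0.le]
          apply Real.rpow_le_rpow_of_exponent_le hnR
          have : 8 ≤ δ * lam := by
            rw [div_le_iff₀ hδ] at hlam
            linarith
          linarith
  have h5 : (n : ℝ) ^ (-(4 : ℝ)) = 1 / (n : ℝ) ^ 4 := by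
    rw [Real.rpow_neg hn0.le, one_div]
    norm_cast
  have h6 : (2 * (b : ℝ) ^ 3 * (d : ℝ) ^ lam) < n := by
    have : 2 * b ^ 3 * d ^ lam < n := by omega
    exact_mod_cast this
  calc (C * (4 * b + 1 : ℝ) ^ 2) ^ D * (2 * (d * Real.sqrt n * X ^ (1 - δ / 2)) ^ lam)
      ≤ ((b : ℝ) * n) ^ 3 * (2 * ((d : ℝ) ^ lam * (1 / (n : ℝ) ^ 4))) := by
        rw [h5] at h4
        have hXh : 0 ≤ X ^ (1 - δ / 2) := Real.rpow_nonneg hX0 _
        apply mul_le_mul h1 _ (by positivity) (by positivity)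
        linarith
    _ = (2 * (b : ℝ) ^ 3 * (d : ℝ) ^ lam) / n := by
        field_simp
    _ < 1 := by
        rw [div_lt_one hn0]
        exact h6

/-- Theorem F for boxes of the exact size `q ^ (J * D)`. `b`, `J`, `lam`, `δ` constants. -/
theorem boxF (δ : ℝ) (hδ : 0 < δ) (hδ2 : δ ≤ 1 / 2) : ∃ b J : ℕ, 2 ≤ b ∧ 1 ≤ J ∧ ∀ d : ℕ, ∃ n0 : ℕ,
    ∀ n, n0 ≤ n → ∀ (lm : Fin d → Fin n → Fin n) (D : ℕ), n < b ^ D → b ^ D ≤ b * n →
    ∀ W : Set (ℕ × ℕ),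
      ((W ∩ {z | z.1 < (2 * (4 * b + 1)) ^ (J * D) ∧ z.2 < (2 * (4 * b + 1)) ^ (J * D)}).ncard : ℝ) ≤
        (n : ℝ) ^ (-(1 / 2 + δ)) * (((2 * (4 * b + 1) : ℕ) : ℝ) ^ (J * D)) ^ 2 →
      ∃ t y : Fin n → ℕ, StrictMono t ∧ StrictMono y ∧
        (∀ i, t i < (2 * (4 * b + 1)) ^ (J * D)) ∧ (∀ i, y i < (2 * (4 * b + 1)) ^ (J * D)) ∧
        ∀ e i, (t i, y (lm e i)) ∉ W := by
  set h : ℝ := 1 - δ / 2 with hh
  set R : ℝ := (4 : ℝ) ^ (2 / δ) with hR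
  have hp : Par h R := par_delta δ hδ hδ2
  set lam : ℕ := ⌈8 / δ⌉₊ with hlam
  have hlam8 : 8 / δ ≤ (lam : ℝ) := Nat.le_ceil _
  have hlam1 : 1 ≤ lam := by
    have : (0 : ℝ) < 8 / δ := by positivity
    exact Nat.ceil_pos.mpr this
  obtain ⟨C, hC, hiter⟩ := iter lam hlam1 h R hp
  obtain ⟨b, hb2, hbC⟩ := exists_b C hC
  have hR1 : 1 ≤ R := hp.hR
  refine ⟨b, ⌈32 * (4 * (b : ℝ) + 1) ^ 2 * R⌉₊, hb2, ?_, ?_⟩
  · apply Nat.ceil_pos.mpr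
    positivity
  intro d
  refine ⟨2 * b ^ 3 * d ^ lam + 1, ?_⟩
  intro n hn lm D hnD hDn W hW
  set J : ℕ := ⌈32 * (4 * (b : ℝ) + 1) ^ 2 * R⌉₊ with hJ
  have hJ1 : 32 * (4 * (b : ℝ) + 1) ^ 2 * R ≤ (J : ℝ) := Nat.le_ceil _
  set q : ℕ := 2 * (4 * b + 1) with hq
  have hq1 : 1 ≤ q := by omega
  have hqR : (0 : ℝ) < (q : ℝ) := by exact_mod_cast hq1
  have hn1 : 1 ≤ n := by omega
  have hn0 : (0 : ℝ) < n := by exact_mod_cast hn1
  -- the density at the root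
  have hroot : dens q W (J * D, 0) (J * D, 0) ≤ (n : ℝ) ^ (-(1 / 2 + δ)) := by
    unfold dens
    have hset : (W ∩ {z : ℕ × ℕ | q ^ (J * D, 0).1 * (J * D, 0).2 ≤ z.1 ∧
        z.1 < q ^ (J * D, 0).1 * ((J * D, 0).2 + 1) ∧
        q ^ (J * D, 0).1 * (J * D, 0).2 ≤ z.2 ∧
        z.2 < q ^ (J * D, 0).1 * ((J * D, 0).2 + 1)}) =
        (W ∩ {z | z.1 < q ^ (J * D) ∧ z.2 < q ^ (J * D)}) := by
      congr 1
      ext z
      simp
    rw [hset]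
    simp only
    rw [div_le_iff₀ (by positivity)]
    calc _ ≤ _ := hW
      _ = _ := by ring
  have hX0 : 0 ≤ dens q W (J * D, 0) (J * D, 0) := (dens_harm q hq1 W).nn _ _
  have hsm := root_small δ hδ hδ2 lam hlam8 C hC b hbC d n D hn hDn _ hX0 hroot
  obtain ⟨P, y, hord, hy, hbox, hyb, hsum⟩ := hiter b J (by omega) hJ1 lm (dens q W)
    (dens_harm q hq1 W) D hn1 hnD hsm
  have hblue : ∀ i, ∃ t, q ^ (P i).1 * (P i).2 ≤ t ∧ t < q ^ (P i).1 * ((P i).2 + 1) ∧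
      ∀ e, (t, y (lm e i)) ∉ W := by
    intro i
    apply exists_blue q hq1 W (P i) (fun e => y (lm e i))
    refine lt_of_le_of_lt ?_ (hsum i)
    apply Finset.sum_le_sum
    intro e _
    have h0 : 0 ≤ dens q W (P i) (0, y (lm e i)) := (dens_harm q hq1 W).nn _ _
    have h1 : dens q W (P i) (0, y (lm e i)) ≤ 1 := dens_le_one q hq1 W _ _
    exact Real.self_le_rpow_of_le_one h0 h1 hp.hh1.le
  choose t ht1 ht2 ht3 using hblue
  refine ⟨t, y, ?_, hy, ?_, hyb, ?_⟩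
  · intro i i' hii
    have := hord i i' hii
    unfold ltN at this
    exact lt_of_lt_of_le (ht2 i) (le_trans this (ht1 i'))
  · intro i
    exact lt_of_lt_of_le (ht2 i) (hbox i)
  · intro e i
    exact ht3 i e

end Pool.Agent.H69.FK
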