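import Pool.Agent.H69.FK.Basic

/-! Context for the three stages of the step lemma. -/

namespace Pool.Agent.H69.FK

open Finset

/-- the exponent `h = 1 - θ` and the threshold `R` -/
structure Par (h R : ℝ) : Prop where
  hh : 3 / 4 ≤ h
  hh1 : h < 1
  hR : 1 ≤ R
  hR4 : 4 ≤ R ^ (1 - h)

/-- harmonic in both variables -/
structure Harm2 (q : ℕ) (X : Nd → Nd → ℝ) : Prop where
  row : ∀ I, Harm1 q (fun P => X P I)
  col : ∀ P, Harm1 q (X P)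

lemma Harm2.nn {q : ℕ} {X : Nd → Nd → ℝ} (hX : Harm2 q X) (P I : Nd) : 0 ≤ X P I :=
  (hX.col P).nn I

/-- the properties of the option measure used in the stages -/
structure OptM (h R : ℝ) (m J : ℕ) (μ : FP (ℕ × ℕ × ℕ)) : Prop where
  mem : ∀ ω ∈ μ.S, ω.1 < J ∧ ω.2.1 < (2 * m) ^ ω.1 ∧ ω.2.2 < m
  P1 : ∀ g : Nd → ℝ, Harm1 (2 * m) g → ∀ P : Nd, J ≤ P.1 →
    μ.E (fun ω => (g (nd1 (2 * m) P ω)) ^ h) ≤ (g P) ^ h
  P2 : ∀ g : Nd → ℝ, Harm1 (2 * m) g → ∀ P : Nd, J ≤ P.1 →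
    μ.E (fun ω => ∑ k : Fin m, spk h R (g (nd1 (2 * m) P ω)) (g (cell (2 * m) P ω k))) ≤
      (m / J : ℝ) * (g P) ^ h
  P3 : ∀ g : Nd → ℝ, Harm1 (2 * m) g → ∀ P : Nd, J ≤ P.1 →
    μ.E (fun ω => ∑ k : Fin m, (g (cell (2 * m) P ω k)) ^ h) ≤ (2 * m : ℝ) * (g P) ^ h

/-- the properties of the uniform measures on the host lines of a node -/
structure HostM (h : ℝ) (m : ℕ) (H : Nd → FP ℕ) : Prop where
  mem : ∀ P y, y ∈ (H P).S ↔ (2 * m) ^ P.1 * P.2 ≤ y ∧ y < (2 * m) ^ P.1 * (P.2 + 1)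
  P4 : ∀ g : Nd → ℝ, Harm1 (2 * m) g → ∀ P : Nd,
      (H P).E (fun y => (g (0, y)) ^ h) ≤ (g P) ^ h

/-- `Σ_k E_{c ~ M} spk (X (P¹) c) (X (cell_k) c)` -/
noncomputable def psiF (h R : ℝ) (X : Nd → Nd → ℝ) (M : (Nd → ℝ) →ₗ[ℝ] ℝ) (m : ℕ) (P : Nd)
    (ω : ℕ × ℕ × ℕ) : ℝ :=
  ∑ k : Fin m, M (fun c => spk h R (X (nd1 (2 * m) P ω) c) (X (cell (2 * m) P ω k) c))

/-- column-spiky part of a column window `Q` with option `ω`, seen from the row window `N` -/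
noncomputable def tC (h R : ℝ) (X : Nd → Nd → ℝ) (m : ℕ) (N : Nd) (I1 : Nd) (cc : Fin m → Nd) : ℝ :=
  ∑ l : Fin m, spk h R (X N I1) (X N (cc l))

/-- row-spiky part: row window `N` with cells `cl k`, column cells `cc l` -/
noncomputable def tR (h R : ℝ) (X : Nd → Nd → ℝ) (H : Nd → FP ℕ) (m : ℕ) (N : Nd)
    (cl : Fin m → Nd) (cc : Fin m → Nd) : ℝ :=
  ∑ k : Fin m, ∑ l : Fin m, (spk h R (X N (cc l)) (X (cl k) (cc l)) +
    (H (cc l)).E (fun y => spk h R (X N (0, y)) (X (cl k) (0, y))))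

end Pool.Agent.H69.FK
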