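import Pool.Agent.H69.FK.Basic

/-! Module CUT. Greedy cuts of a set of rows (or columns) with respect to several measures. -/

namespace Pool.Agent.H69.FK

open Finset

/-- greedy cut with respect to one measure of mass at most `1` -/
theorem cut_one {n : ℕ} (b : ℕ) (hb : 1 ≤ b) (A : Finset (Fin n)) (nu : Fin n → ℝ)
    (hnu : ∀ i ∈ A, 0 < nu i) (hnu1 : ∑ i ∈ A, nu i ≤ 1) :
    ∃ kk : Fin n → Fin (4 * b + 1), (∀ i ∈ A, ∀ i' ∈ A, i ≤ i' → kk i ≤ kk i') ∧
      ∀ k, ((A.filter (fun i => kk i = k)).card ≤ 1 ∨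
        ∑ i ∈ A.filter (fun i => kk i = k), nu i ≤ 1 / (2 * b)) := by
  classical
  set s : ℝ := 1 / (2 * b) with hs
  have hbR : (1 : ℝ) ≤ b := by exact_mod_cast hb
  have hs0 : 0 < s := by rw [hs]; positivity
  set F : Fin n → ℝ := fun i => ∑ j ∈ A.filter (fun j => j ≤ i), nu j with hF
  set G : Fin n → ℝ := fun i => ∑ j ∈ A.filter (fun j => j < i), nu j with hG
  have hFG : ∀ i ∈ A, F i = G i + nu i := by
    intro i hi
    have h1 : A.filter (fun j => j ≤ i) = insert i (A.filter (fun j => j < i)) := by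
      ext j
      simp only [Finset.mem_filter, Finset.mem_insert]
      constructor
      · rintro ⟨h2, h3⟩
        rcases h3.lt_or_eq with h4 | h4
        · exact Or.inr ⟨h2, h4⟩
        · exact Or.inl h4
      · rintro (h2 | ⟨h2, h3⟩)
        · subst h2; exact ⟨hi, le_rfl⟩
        · exact ⟨h2, h3.le⟩
    rw [hF, hG]
    simp only
    rw [h1, Finset.sum_insert (by simp)]
    ring
  have hG0 : ∀ i, 0 ≤ G i := fun i => Finset.sum_nonneg (fun j hj =>
    (hnu j (Finset.mem_filter.mp hj).1).le)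
  have hF1 : ∀ i, F i ≤ 1 := by
    intro i
    refine le_trans ?_ hnu1
    exact Finset.sum_le_sum_of_subset_of_nonneg (Finset.filter_subset _ _)
      (fun j hj _ => (hnu j hj).le)
  have hFG' : ∀ i i' : Fin n, i < i' → F i ≤ G i' := by
    intro i i' hii
    refine Finset.sum_le_sum_of_subset_of_nonneg ?_ (fun j hj _ =>
      (hnu j (Finset.mem_filter.mp hj).1).le)
    intro j hj
    rw [Finset.mem_filter] at hj ⊢
    exact ⟨hj.1, lt_of_le_of_lt hj.2 hii⟩
  set q : Fin n → ℕ := fun i => ⌊F i / s⌋₊ with hq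
  set r : Fin n → ℕ := fun i => ⌊G i / s⌋₊ with hr
  have hF0 : ∀ i ∈ A, 0 ≤ F i := fun i hi => by
    rw [hFG i hi]; exact add_nonneg (hG0 i) (hnu i hi).le
  have hqb : ∀ i, q i ≤ 2 * b := by
    intro i
    have h1 : F i / s ≤ ((2 * b : ℕ) : ℝ) := by
      rw [div_le_iff₀ hs0, hs]
      push_cast
      have : (2 * (b : ℝ)) * (1 / (2 * (b : ℝ))) = 1 := by field_simp
      rw [this]; exact hF1 i
    exact Nat.floor_le_of_le h1
  have hqr : ∀ i i' : Fin n, i < i' → q i ≤ r i' := by
    intro i i' hii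
    exact Nat.floor_le_floor (div_le_div_of_nonneg_right (hFG' i i' hii) hs0.le)
  have hrq : ∀ i ∈ A, r i ≤ q i := by
    intro i hi
    refine Nat.floor_le_floor (div_le_div_of_nonneg_right ?_ hs0.le)
    rw [hFG i hi]; linarith [hnu i hi]
  have hq2 : ∀ i ∈ A, q i = 2 * b → r i < q i := by
    intro i hi hqi
    by_contra hc
    push Not at hc
    have h1 : ((2 * b : ℕ) : ℝ) ≤ G i / s := by
      have h2 : ((r i : ℕ) : ℝ) ≤ G i / s := Nat.floor_le (div_nonneg (hG0 i) hs0.le)
      refine le_trans ?_ h2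
      rw [hqi] at hc
      exact_mod_cast hc
    rw [le_div_iff₀ hs0, hs] at h1
    push_cast at h1
    have h3 : (2 * (b : ℝ)) * (1 / (2 * (b : ℝ))) = 1 := by field_simp
    rw [h3] at h1
    have h4 := hF1 i
    rw [hFG i hi] at h4
    linarith [hnu i hi]
  set lab : Fin n → ℕ := fun i => 2 * q i + (if r i < q i then 0 else 1) with hlab
  have hlabb : ∀ i ∈ A, lab i ≤ 4 * b := by
    intro i hi
    rw [hlab]
    simp only
    rcases (hqb i).lt_or_eq with h1 | h1
    · split_ifs <;> omega
    · rw [if_pos (hq2 i hi h1)]; omega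
  refine ⟨fun i => ⟨min (lab i) (4 * b), by omega⟩, ?_, ?_⟩
  · intro i hi i' hi' hii
    rcases hii.lt_or_eq with h1 | h1
    · rw [Fin.mk_le_mk]
      refine min_le_min ?_ le_rfl
      rw [hlab]
      simp only
      have h2 := hqr i i' h1
      have h3 := hrq i' hi'
      have h4 := hrq i hi
      split_ifs <;> omega
    · subst h1; exact le_rfl
  · intro k
    have hmem : ∀ i, i ∈ A.filter (fun i => (⟨min (lab i) (4 * b), by omega⟩ : Fin (4 * b + 1)) = k) →
        i ∈ A ∧ lab i = (k : ℕ) := by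
      intro i hi
      rw [Finset.mem_filter] at hi
      refine ⟨hi.1, ?_⟩
      have h1 : min (lab i) (4 * b) = (k : ℕ) := congrArg Fin.val hi.2
      rwa [min_eq_left (hlabb i hi.1)] at h1
    rcases Nat.even_or_odd' (k : ℕ) with ⟨m, hm | hm⟩
    · left
      rw [Finset.card_le_one]
      intro i hi i' hi'
      obtain ⟨hiA, hil⟩ := hmem i hi
      obtain ⟨hiA', hil'⟩ := hmem i' hi'
      have hkey : ∀ i, i ∈ A → lab i = (k : ℕ) → r i < q i ∧ q i = m := by
        intro i _ hl
        rw [hlab] at hl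
        simp only at hl
        by_cases hc : r i < q i
        · rw [if_pos hc] at hl; exact ⟨hc, by omega⟩
        · rw [if_neg hc] at hl; omega
      have h1 := hkey i hiA hil
      have h2 := hkey i' hiA' hil'
      rcases lt_trichotomy i i' with h | h | h
      · have := hqr i i' h; omega
      · exact h
      · have := hqr i' i h; omega
    · right
      set P := A.filter (fun i => (⟨min (lab i) (4 * b), by omega⟩ : Fin (4 * b + 1)) = k) with hP
      rcases P.eq_empty_or_nonempty with he | hne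
      · rw [he, Finset.sum_empty]; positivity
      · have hkey : ∀ i, i ∈ A → lab i = (k : ℕ) → q i ≤ r i ∧ q i = m := by
          intro i _ hl
          rw [hlab] at hl
          simp only at hl
          by_cases hc : r i < q i
          · rw [if_pos hc] at hl; omega
          · rw [if_neg hc] at hl; exact ⟨by omega, by omega⟩
        obtain ⟨hminA, hminl⟩ := hmem _ (P.min'_mem hne)
        obtain ⟨hmaxA, hmaxl⟩ := hmem _ (P.max'_mem hne)
        have h1 := hkey _ hminA hminl
        have h2 := hkey _ hmaxA hmaxl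
        have h3 : (m : ℝ) * s ≤ G (P.min' hne) := by
          have h4 : ((r (P.min' hne) : ℕ) : ℝ) ≤ G (P.min' hne) / s :=
            Nat.floor_le (div_nonneg (hG0 _) hs0.le)
          have h5 : (m : ℝ) ≤ (r (P.min' hne) : ℝ) := by
            rw [← h1.2]; exact_mod_cast h1.1
          have h6 := le_trans h5 h4
          rwa [le_div_iff₀ hs0] at h6
        have h4 : F (P.max' hne) < ((m : ℝ) + 1) * s := by
          have h5 := Nat.lt_floor_add_one (F (P.max' hne) / s)
          have h6 : (⌊F (P.max' hne) / s⌋₊ : ℝ) = m := by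
            have := h2.2
            rw [hq] at this
            simp only at this
            exact_mod_cast this
          rw [h6, div_lt_iff₀ hs0] at h5
          exact h5
        have h5 : ∑ i ∈ P, nu i ≤ F (P.max' hne) - G (P.min' hne) := by
          have h6 : G (P.min' hne) + ∑ i ∈ P, nu i ≤ F (P.max' hne) := by
            rw [hG, hF]
            simp only
            rw [← Finset.sum_union]
            · refine Finset.sum_le_sum_of_subset_of_nonneg ?_ (fun j hj _ =>
                (hnu j (Finset.mem_filter.mp hj).1).le)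
              intro j hj
              rw [Finset.mem_union] at hj
              rw [Finset.mem_filter]
              rcases hj with hj | hj
              · rw [Finset.mem_filter] at hj
                exact ⟨hj.1, (lt_of_lt_of_le hj.2 (P.min'_le_max' hne)).le⟩
              · exact ⟨(hmem j hj).1, P.le_max' j hj⟩
            · rw [Finset.disjoint_left]
              intro j hj hj'
              rw [Finset.mem_filter] at hj
              exact absurd (P.min'_le j hj') (not_le.mpr hj.2)
          linarith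
        have h7 : (((m : ℝ) + 1) * s) - (m : ℝ) * s = s := by ring
        linarith

/-- `A` = the rows (columns) of one piece; `cnt τ i ≥ 0` counts; `x τ ≥ 0` weights.
`A` is cut in at most `4 b + 1` consecutive pieces, each of which has at most one element, or at
most `|A| / b` elements and load at most `1/√b` of the load of `A`. -/
theorem cut {n : ℕ} {𝒯 : Type} [Fintype 𝒯] (b : ℕ) (hb : 1 ≤ b) (A : Finset (Fin n))
    (cnt : 𝒯 → Fin n → ℝ) (hcnt : ∀ τ i, 0 ≤ cnt τ i) (x : 𝒯 → ℝ) (hx : ∀ τ, 0 ≤ x τ) :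
    ∃ kk : Fin n → Fin (4 * b + 1), (∀ i ∈ A, ∀ i' ∈ A, i ≤ i' → kk i ≤ kk i') ∧
      ∀ k, ((A.filter (fun i => kk i = k)).card ≤ 1 ∨
        (b * (A.filter (fun i => kk i = k)).card ≤ A.card ∧
          ∑ τ, Real.sqrt (∑ i ∈ A.filter (fun i => kk i = k), cnt τ i) * x τ ≤
            1 / Real.sqrt b * ∑ τ, Real.sqrt (∑ i ∈ A, cnt τ i) * x τ)) := by
  classical
  have hbR : (1 : ℝ) ≤ b := by exact_mod_cast hb
  have hb0 : (0 : ℝ) < b := by linarith
  set NN : 𝒯 → Finset (Fin n) → ℝ := fun τ S => ∑ i ∈ S, cnt τ i with hNN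
  have hNN0 : ∀ τ S, 0 ≤ NN τ S := fun τ S => Finset.sum_nonneg (fun i _ => hcnt τ i)
  set a : 𝒯 → ℝ := fun τ => Real.sqrt (NN τ A) * x τ with ha
  have ha0 : ∀ τ, 0 ≤ a τ := fun τ => mul_nonneg (Real.sqrt_nonneg _) (hx τ)
  set L : ℝ := ∑ τ, a τ with hL
  have hL0 : 0 ≤ L := Finset.sum_nonneg (fun τ _ => ha0 τ)
  set al : Fin n → ℝ := fun i => (∑ τ, a τ * (cnt τ i / NN τ A)) / L with hal
  have hal0 : ∀ i, 0 ≤ al i := fun i => div_nonneg (Finset.sum_nonneg (fun τ _ =>
    mul_nonneg (ha0 τ) (div_nonneg (hcnt τ i) (hNN0 τ A)))) hL0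
  have halS : ∀ S : Finset (Fin n), ∑ i ∈ S, al i = (∑ τ, a τ * (NN τ S / NN τ A)) / L := by
    intro S
    rw [hal]
    simp only
    rw [← Finset.sum_div, Finset.sum_comm]
    congr 1
    refine Finset.sum_congr rfl (fun τ _ => ?_)
    rw [← Finset.mul_sum, ← Finset.sum_div]
  have halA : ∑ i ∈ A, al i ≤ 1 := by
    rw [halS A]
    rcases hL0.lt_or_eq with h | h
    · rw [div_le_one h]
      refine Finset.sum_le_sum (fun τ _ => ?_)
      have h1 : NN τ A / NN τ A ≤ 1 := div_self_le_one _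
      calc a τ * (NN τ A / NN τ A) ≤ a τ * 1 := mul_le_mul_of_nonneg_left h1 (ha0 τ)
        _ = a τ := mul_one _
    · rw [← h, div_zero]; exact zero_le_one
  set nu : Fin n → ℝ := fun i => al i / 2 + 1 / (2 * (A.card : ℝ)) with hnu
  have hcard : ∀ i ∈ A, (0 : ℝ) < A.card := fun i hi => by
    exact_mod_cast Finset.card_pos.mpr ⟨i, hi⟩
  have hnu0 : ∀ i ∈ A, 0 < nu i := by
    intro i hi
    have h1 := hcard i hi
    have h2 := hal0 i
    rw [hnu]
    simp only
    have h3 : 0 < 1 / (2 * (A.card : ℝ)) := by positivity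
    linarith
  have hnuS : ∀ S : Finset (Fin n), ∑ i ∈ S, nu i = (∑ i ∈ S, al i) / 2 +
      S.card * (1 / (2 * (A.card : ℝ))) := by
    intro S
    rw [hnu]
    simp only
    rw [Finset.sum_add_distrib, Finset.sum_const, nsmul_eq_mul, Finset.sum_div]
  have hnu1 : ∑ i ∈ A, nu i ≤ 1 := by
    rw [hnuS A]
    rcases A.eq_empty_or_nonempty with he | hne
    · rw [he]; simp
    · have h1 : (0 : ℝ) < A.card := by exact_mod_cast Finset.card_pos.mpr hne
      have h2 : (A.card : ℝ) * (1 / (2 * (A.card : ℝ))) = 1 / 2 := by field_simp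
      rw [h2]; linarith
  obtain ⟨kk, hkk1, hkk2⟩ := cut_one b hb A nu hnu0 hnu1
  refine ⟨kk, hkk1, fun k => ?_⟩
  rcases hkk2 k with h | h
  · exact Or.inl h
  right
  set S := A.filter (fun i => kk i = k) with hS
  have hSA : S ⊆ A := Finset.filter_subset _ _
  rcases A.eq_empty_or_nonempty with he | hne
  · have hSe : S = ∅ := by
      rw [← Finset.subset_empty, ← he]; exact hSA
    rw [hSe]
    refine ⟨by simp, ?_⟩
    simp only [Finset.sum_empty, Real.sqrt_zero, zero_mul, Finset.sum_const_zero]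
    exact mul_nonneg (by positivity) hL0
  have hA0 : (0 : ℝ) < A.card := by exact_mod_cast Finset.card_pos.mpr hne
  rw [hnuS S] at h
  have hals0 : 0 ≤ ∑ i ∈ S, al i := Finset.sum_nonneg (fun i _ => hal0 i)
  have hc0 : 0 ≤ (S.card : ℝ) * (1 / (2 * (A.card : ℝ))) := by positivity
  constructor
  · have h1 : (S.card : ℝ) * (1 / (2 * (A.card : ℝ))) ≤ 1 / (2 * b) := by linarith
    rw [mul_one_div, div_le_div_iff₀ (by positivity) (by positivity)] at h1
    have h2 : (b : ℝ) * S.card ≤ A.card := by nlinarith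
    exact_mod_cast h2
  · have hal1 : ∑ i ∈ S, al i ≤ 1 / b := by
      have h1 : (∑ i ∈ S, al i) / 2 ≤ 1 / (2 * b) := by linarith
      have h2 : (1 : ℝ) / (2 * b) = (1 / b) / 2 := by field_simp
      rw [h2] at h1
      linarith
    have hmono : ∀ τ, NN τ S ≤ NN τ A := fun τ =>
      Finset.sum_le_sum_of_subset_of_nonneg hSA (fun i _ _ => hcnt τ i)
    have hterm : ∀ τ, Real.sqrt (NN τ S) * x τ =
        Real.sqrt (a τ) * Real.sqrt (a τ * (NN τ S / NN τ A)) := by
      intro τ
      rcases (hNN0 τ A).lt_or_eq with h1 | h1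
      · rw [← Real.sqrt_mul (ha0 τ), ← mul_assoc, Real.sqrt_mul (mul_nonneg (ha0 τ) (ha0 τ)),
          Real.sqrt_mul_self (ha0 τ), Real.sqrt_div (hNN0 τ S)]
        have h2 : Real.sqrt (NN τ A) ≠ 0 := (Real.sqrt_pos.mpr h1).ne'
        rw [ha]
        simp only
        field_simp
      · have h2 : NN τ S = 0 := le_antisymm (h1 ▸ hmono τ) (hNN0 τ S)
        rw [h2]
        simp
    have hCS : (∑ τ, Real.sqrt (NN τ S) * x τ) ^ 2 ≤ L * (∑ τ, a τ * (NN τ S / NN τ A)) := by
      have h1 := Finset.sum_mul_sq_le_sq_mul_sq (Finset.univ) (fun τ => Real.sqrt (a τ))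
        (fun τ => Real.sqrt (a τ * (NN τ S / NN τ A)))
      have h2 : ∑ τ, Real.sqrt (NN τ S) * x τ =
          ∑ τ, Real.sqrt (a τ) * Real.sqrt (a τ * (NN τ S / NN τ A)) :=
        Finset.sum_congr rfl (fun τ _ => hterm τ)
      rw [h2]
      refine le_trans h1 (le_of_eq ?_)
      congr 1
      · exact Finset.sum_congr rfl (fun τ _ => Real.sq_sqrt (ha0 τ))
      · exact Finset.sum_congr rfl (fun τ _ => Real.sq_sqrt
          (mul_nonneg (ha0 τ) (div_nonneg (hNN0 τ S) (hNN0 τ A))))
    have hfin : (∑ τ, Real.sqrt (NN τ S) * x τ) ^ 2 ≤ (1 / Real.sqrt b * L) ^ 2 := by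
      refine le_trans hCS ?_
      rw [mul_pow, div_pow, one_pow, Real.sq_sqrt hb0.le]
      rcases hL0.lt_or_eq with h1 | h1
      · have h2 := halS S
        rw [h2, div_le_div_iff₀ h1 hb0, one_mul] at hal1
        have h3 : (∑ τ, a τ * (NN τ S / NN τ A)) ≤ 1 / b * L := by
          rw [one_div, ← div_eq_inv_mul, le_div_iff₀ hb0]; exact hal1
        calc L * (∑ τ, a τ * (NN τ S / NN τ A)) ≤ L * (1 / b * L) :=
              mul_le_mul_of_nonneg_left h3 hL0
          _ = 1 / b * L ^ 2 := by ring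
      · rw [← h1]; simp
    have hL' : 0 ≤ 1 / Real.sqrt b * L := mul_nonneg (by positivity) hL0
    exact le_of_sq_le_sq hfin hL'

end Pool.Agent.H69.FK
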