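import Pool.Agent.H69.FK.Step

/-! The iteration of the step, and the end state. -/

namespace Pool.Agent.H69.FK

open Finset Classical

/-- the root state -/
def rootSt (n : ℕ) (P : Nd) : St n where
  U := Unit
  O := Unit
  fU := inferInstance
  fO := inferInstance
  ρ := fun _ => ()
  γ := fun _ => ()
  P := fun _ => P
  Q := fun _ => P
  A := {()}

theorem rootSt_valid {n : ℕ} (hn : 1 ≤ n) (q L : ℕ) : Valid q L L 1 (rootSt n (L, 0)) where
  ordρ := fun _ _ _ => Or.inl rfl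
  ordγ := fun _ _ _ => Or.inl rfl
  levP := fun _ => le_rfl
  levQ := fun _ _ => le_rfl
  boxP := fun _ => by simp [rootSt]
  boxQ := fun _ => by simp [rootSt]
  sizU := fun u => Or.inr (by
    have := Finset.card_filter_le (univ : Finset (Fin n)) (fun i => (rootSt n (L, 0)).ρ i = u)
    rw [Finset.card_univ, Fintype.card_fin] at this
    rw [one_mul]
    convert this)
  sizA := fun o _ => by
    have h1 : (univ.filter (fun c : Fin n => (rootSt n (L, 0)).γ c = o)) = univ := by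
      apply Finset.filter_true_of_mem
      intro c _
      rfl
    constructor
    · rw [← Fintype.card_fin n, ← Finset.card_univ, ← h1] at hn
      convert hn
    · have h2 := Finset.card_filter_le (univ : Finset (Fin n)) (fun c => (rootSt n (L, 0)).γ c = o)
      rw [Finset.card_univ, Fintype.card_fin] at h2
      rw [one_mul]
      convert h2
  frz := fun o ho => absurd (Finset.mem_singleton.mpr rfl : o ∈ ({()} : Finset Unit)) ho

theorem rootSt_Om {n d : ℕ} (lm : Fin d → Fin n → Fin n) (X : Nd → Nd → ℝ) (h : ℝ) (lam : ℕ)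
    (P : Nd) : Om lm X h lam (rootSt n P) = 2 * (d * Real.sqrt n * (X P P) ^ h) ^ lam := by
  have h1 : ∀ u o, BB lm (rootSt n P).ρ (rootSt n P).γ u o = d * Real.sqrt n := by
    intro u o
    unfold BB
    rw [Finset.sum_congr rfl (g := fun _ => Real.sqrt n)]
    · rw [Finset.sum_const, Finset.card_univ, Fintype.card_fin, nsmul_eq_mul]
    · intro e _
      congr 2
      rw [Finset.filter_true_of_mem, Finset.card_univ, Fintype.card_fin]
      intro i _
      exact ⟨rfl, rfl⟩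
  unfold Om
  simp only [h1]
  show ∑ _u : Unit, (∑ _o : Unit, d * Real.sqrt n * (X P P) ^ h) ^ lam +
    ∑ _o ∈ ({()} : Finset Unit), (∑ _u : Unit, d * Real.sqrt n * (X P P) ^ h) ^ lam = _
  simp
  ring

/-- `D` steps -/
theorem iterate {lam : ℕ} {h : ℝ} {b J n d : ℕ} {g : ℝ} (hg : 0 ≤ g) (lm : Fin d → Fin n → Fin n)
    (X : Nd → Nd → ℝ) (q L : ℕ)
    (hstep : ∀ (T K : ℕ) (S : St n), Valid q L (T + J) K S →
      ∃ S' : St n, Valid q L T (K * b) S' ∧ Om lm X h lam S' ≤ g * Om lm X h lam S) (D : ℕ) :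
    ∀ (K : ℕ) (S : St n), Valid q L (J * D) K S →
      ∃ S' : St n, Valid q L 0 (K * b ^ D) S' ∧ Om lm X h lam S' ≤ g ^ D * Om lm X h lam S := by
  induction D with
  | zero =>
    intro K S hS
    refine ⟨S, ?_, ?_⟩
    · simpa using hS
    · rw [pow_zero, one_mul]
  | succ D ih =>
    intro K S hS
    rw [Nat.mul_succ] at hS
    obtain ⟨S1, h1, h2⟩ := hstep (J * D) K S hS
    obtain ⟨S2, h3, h4⟩ := ih (K * b) S1 h1
    refine ⟨S2, ?_, ?_⟩
    · have e : K * b ^ (D + 1) = K * b * b ^ D := by rw [pow_succ]; ring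
      rw [e]
      exact h3
    · calc Om lm X h lam S2 ≤ g ^ D * Om lm X h lam S1 := h4
        _ ≤ g ^ D * (g * Om lm X h lam S) := mul_le_mul_of_nonneg_left h2 (pow_nonneg hg D)
        _ = g ^ (D + 1) * Om lm X h lam S := by rw [pow_succ]; ring

/-- After `D` steps with `n < b ^ D`. The root density is `X (J * D, 0) (J * D, 0)`. -/
theorem iter (lam : ℕ) (hlam : 1 ≤ lam) (h R : ℝ) (hp : Par h R) : ∃ C : ℝ, 1 ≤ C ∧
    ∀ (b J : ℕ), 1 ≤ b → 32 * (4 * b + 1) ^ 2 * R ≤ J → ∀ {n d : ℕ} (lm : Fin d → Fin n → Fin n)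
      (X : Nd → Nd → ℝ), Harm2 (2 * (4 * b + 1)) X → ∀ (D : ℕ), 1 ≤ n → n < b ^ D →
      (C * (4 * b + 1 : ℝ) ^ 2) ^ D *
        (2 * (d * Real.sqrt n * (X (J * D, 0) (J * D, 0)) ^ h) ^ lam) < 1 →
      ∃ (P : Fin n → Nd) (y : Fin n → ℕ),
        (∀ i i', i < i' → ltN (2 * (4 * b + 1)) (P i) (P i')) ∧ StrictMono y ∧
        (∀ i, (2 * (4 * b + 1)) ^ (P i).1 * ((P i).2 + 1) ≤ (2 * (4 * b + 1)) ^ (J * D)) ∧
        (∀ c, y c < (2 * (4 * b + 1)) ^ (J * D)) ∧
        ∀ i, ∑ e, (X (P i) (0, y (lm e i))) ^ h < 1 := by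
  obtain ⟨C, hC, hst⟩ := step lam hlam h R hp
  refine ⟨C, hC, ?_⟩
  intro b J hb hJ n d lm X hX D hn hD hsmall
  have hg : 0 ≤ C * (4 * b + 1 : ℝ) ^ 2 := by positivity
  obtain ⟨S, hV, hO⟩ := iterate (lam := lam) (h := h) hg lm X (2 * (4 * b + 1)) (J * D)
    (fun T K S hS => hst b J hb hJ lm X hX (J * D) T K S hS) D 1 (rootSt n (J * D, 0))
    (rootSt_valid hn _ _)
  rw [one_mul] at hV
  rw [rootSt_Om] at hO
  have hO1 : Om lm X h lam S < 1 := lt_of_le_of_lt hO hsmall
  -- no active columns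
  have hA : ∀ o, o ∉ S.A := by
    intro o ho
    obtain ⟨h1, h2⟩ := hV.sizA o ho
    have h3 : b ^ D * 1 ≤ n := le_trans (Nat.mul_le_mul_left _ h1) h2
    omega
  -- distinct labels
  have hρ : ∀ i i', i ≠ i' → S.ρ i ≠ S.ρ i' := by
    intro i i' hii' he
    have h1 : (univ.filter (fun k => S.ρ k = S.ρ i)).card ≤ 1 := by
      rcases hV.sizU (S.ρ i) with h1 | h1
      · convert h1
      · have h2 : (univ.filter (fun k => S.ρ k = S.ρ i)).card ≤ 0 := by
          by_contra hc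
          push Not at hc
          have h3 : b ^ D * 1 ≤ n := by
            refine le_trans (Nat.mul_le_mul_left _ hc) ?_
            convert h1
          omega
        omega
    exact hii' (Finset.card_le_one.mp h1 i (by simp) i' (by simp [he]))
  have hγ : ∀ i i', i ≠ i' → S.γ i ≠ S.γ i' := by
    intro i i' hii' he
    have h1 : (univ.filter (fun k => S.γ k = S.γ i)).card ≤ 1 := by
      convert (hV.frz (S.γ i) (hA _)).2
    exact hii' (Finset.card_le_one.mp h1 i (by simp) i' (by simp [he]))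
  have hQ : ∀ o, S.Q o = (0, (S.Q o).2) := by
    intro o
    have h1 := (hV.frz o (hA o)).1
    exact Prod.ext h1 rfl
  refine ⟨fun i => S.P (S.ρ i), fun c => (S.Q (S.γ c)).2, ?_, ?_, ?_, ?_, ?_⟩
  · intro i i' hii'
    rcases hV.ordρ i i' hii' with h1 | h1
    · exact absurd h1 (hρ i i' hii'.ne)
    · exact h1
  · intro c c' hcc'
    rcases hV.ordγ c c' hcc' with h1 | h1
    · exact absurd h1 (hγ c c' hcc'.ne)
    · unfold ltN at h1
      rw [hQ (S.γ c), hQ (S.γ c')] at h1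
      simpa using h1
  · intro i
    exact hV.boxP _
  · intro c
    have h1 := hV.boxQ (S.γ c)
    rw [hQ (S.γ c)] at h1
    simpa using h1
  · intro i
    have hnn : ∀ u o, 0 ≤ BB lm S.ρ S.γ u o * (X (S.P u) (S.Q o)) ^ h := fun u o =>
      mul_nonneg (Finset.sum_nonneg fun e _ => Real.sqrt_nonneg _)
        (Real.rpow_nonneg (hX.nn _ _) h)
    have h1 : ∑ o, BB lm S.ρ S.γ (S.ρ i) o * (X (S.P (S.ρ i)) (S.Q o)) ^ h < 1 := by
      by_contra hc
      push Not at hc
      have h2 : 1 ≤ (∑ o, BB lm S.ρ S.γ (S.ρ i) o * (X (S.P (S.ρ i)) (S.Q o)) ^ h) ^ lam :=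
        one_le_pow₀ hc
      have h3 : (∑ o, BB lm S.ρ S.γ (S.ρ i) o * (X (S.P (S.ρ i)) (S.Q o)) ^ h) ^ lam ≤
          Om lm X h lam S := by
        unfold Om
        have h4 := Finset.single_le_sum (f := fun u =>
          (∑ o, BB lm S.ρ S.γ u o * (X (S.P u) (S.Q o)) ^ h) ^ lam)
          (fun u _ => pow_nonneg (Finset.sum_nonneg fun o _ => hnn u o) lam) (Finset.mem_univ (S.ρ i))
        have h5 : 0 ≤ ∑ o ∈ S.A, (∑ u, BB lm S.ρ S.γ u o * (X (S.P u) (S.Q o)) ^ h) ^ lam :=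
          Finset.sum_nonneg fun o _ => pow_nonneg (Finset.sum_nonneg fun u _ => hnn u o) lam
        linarith
      linarith
    refine lt_of_le_of_lt ?_ h1
    have h6 : ∀ e, (X (S.P (S.ρ i)) (0, (S.Q (S.γ (lm e i))).2)) ^ h ≤
        ∑ o, Real.sqrt ((univ.filter (fun k => S.ρ k = S.ρ i ∧ S.γ (lm e k) = o)).card : ℝ) *
          (X (S.P (S.ρ i)) (S.Q o)) ^ h := by
      intro e
      have h7 := Finset.single_le_sum (f := fun o =>
        Real.sqrt ((univ.filter (fun k => S.ρ k = S.ρ i ∧ S.γ (lm e k) = o)).card : ℝ) *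
          (X (S.P (S.ρ i)) (S.Q o)) ^ h)
        (fun o _ => mul_nonneg (Real.sqrt_nonneg _) (Real.rpow_nonneg (hX.nn _ _) h))
        (Finset.mem_univ (S.γ (lm e i)))
      refine le_trans ?_ h7
      rw [← hQ (S.γ (lm e i))]
      have h8 : (1 : ℝ) ≤ Real.sqrt ((univ.filter (fun k => S.ρ k = S.ρ i ∧
          S.γ (lm e k) = S.γ (lm e i))).card : ℝ) := by
        rw [Real.one_le_sqrt]
        have h9 : 0 < (univ.filter (fun k => S.ρ k = S.ρ i ∧
          S.γ (lm e k) = S.γ (lm e i))).card := Finset.card_pos.mpr ⟨i, by simp⟩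
        exact_mod_cast h9
      have h10 : 0 ≤ (X (S.P (S.ρ i)) (S.Q (S.γ (lm e i)))) ^ h := Real.rpow_nonneg (hX.nn _ _) h
      nlinarith
    refine le_trans (Finset.sum_le_sum fun e _ => h6 e) (le_of_eq ?_)
    rw [Finset.sum_comm]
    refine Finset.sum_congr rfl fun o _ => ?_
    unfold BB
    rw [Finset.sum_mul]

end Pool.Agent.H69.FK
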