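import Pool.Agent.H69.FK.Ctx

/-! Module MUACT: the linear functional of an active column. -/

namespace Pool.Agent.H69.FK

open Finset

namespace MuAct

theorem E_add {Ω : Type} (μ : FP Ω) (F G : Ω → ℝ) :
    μ.E (fun w => F w + G w) = μ.E F + μ.E G := by
  unfold FP.E
  rw [← sum_add_distrib]
  exact sum_congr rfl fun w _ => by ring

theorem E_mul {Ω : Type} (μ : FP Ω) (a : ℝ) (F : Ω → ℝ) :
    μ.E (fun w => a * F w) = a * μ.E F := by
  unfold FP.E
  rw [mul_sum]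
  exact sum_congr rfl fun w _ => by ring

theorem E_sum {Ω : Type} {ι : Type} (μ : FP Ω) (s : Finset ι) (F : ι → Ω → ℝ) :
    μ.E (fun w => ∑ i ∈ s, F i w) = ∑ i ∈ s, μ.E (F i) := by
  unfold FP.E
  rw [sum_comm]
  exact sum_congr rfl fun w _ => by rw [mul_sum]

theorem E_mono {Ω : Type} (μ : FP Ω) {F G : Ω → ℝ} (h : ∀ w, F w ≤ G w) : μ.E F ≤ μ.E G := by
  unfold FP.E
  exact sum_le_sum fun w _ => mul_le_mul_of_nonneg_left (h w) (μ.nn w)

theorem E_nonneg {Ω : Type} (μ : FP Ω) {F : Ω → ℝ} (h : ∀ w, 0 ≤ F w) : 0 ≤ μ.E F := by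
  unfold FP.E
  exact sum_nonneg fun w _ => mul_nonneg (μ.nn w) (h w)

/-- the value at one option -/
noncomputable def mval (m : ℕ) (H : Nd → FP ℕ) (Q : Nd) (F : Nd → ℝ) (w : ℕ × ℕ × ℕ) : ℝ :=
  ∑ l : Fin m, (F (cell (2 * m) Q w l) + (H (cell (2 * m) Q w l)).E (fun y => F (0, y)))

/-- the functional -/
noncomputable def fn (m : ℕ) (μ : FP (ℕ × ℕ × ℕ)) (H : Nd → FP ℕ) (Q : Nd) :
    (Nd → ℝ) →ₗ[ℝ] ℝ where
  toFun F := (1 / m : ℝ) * μ.E (mval m H Q F)
  map_add' F G := by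
    have h1 : mval m H Q (F + G) = fun w => mval m H Q F w + mval m H Q G w := by
      funext w
      unfold mval
      rw [← sum_add_distrib]
      refine sum_congr rfl fun l _ => ?_
      simp only [Pi.add_apply]
      rw [E_add]
      ring
    rw [h1, E_add]
    ring
  map_smul' a F := by
    have h1 : mval m H Q (a • F) = fun w => a * mval m H Q F w := by
      funext w
      unfold mval
      rw [mul_sum]
      refine sum_congr rfl fun l _ => ?_
      simp only [Pi.smul_apply, smul_eq_mul]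
      rw [E_mul]
      ring
    rw [h1, E_mul]
    simp only [RingHom.id_apply, smul_eq_mul]
    ring

theorem fn_apply (m : ℕ) (μ : FP (ℕ × ℕ × ℕ)) (H : Nd → FP ℕ) (Q : Nd) (F : Nd → ℝ) :
    fn m μ H Q F = (1 / m : ℝ) * μ.E (mval m H Q F) := rfl

end MuAct

open MuAct in
/-- law of a cell `c_l` (`l` uniform) plus law of a uniform host column of it -/
theorem exists_muAct (h R : ℝ) (hp : Par h R) (m J : ℕ) (hm : 1 ≤ m) (hJ : 1 ≤ J)
    (μ : FP (ℕ × ℕ × ℕ)) (hμ : OptM h R m J μ) (H : Nd → FP ℕ) (hH : HostM h m H)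
    (X : Nd → Nd → ℝ) (hX : Harm2 (2 * m) X) (Q : Nd) (hQ : J ≤ Q.1) :
    ∃ M : (Nd → ℝ) →ₗ[ℝ] ℝ, (∀ F, (∀ c, 0 ≤ F c) → 0 ≤ M F) ∧
      (∀ P', M (fun c => (X P' c) ^ h) ≤ 4 * (X P' Q) ^ h) ∧
      (∀ (P : Nd) (ω : ℕ × ℕ × ℕ), m * psiF h R X M m P ω =
        μ.E (fun w => tR h R X H m (nd1 (2 * m) P ω) (fun k => cell (2 * m) P ω k)
          (fun l => cell (2 * m) Q w l))) := by
  have hm0 : (0 : ℝ) < m := by exact_mod_cast hm
  refine ⟨fn m μ H Q, ?_, ?_, ?_⟩
  · intro F hF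
    rw [fn_apply]
    refine mul_nonneg (by positivity) (E_nonneg μ fun w => ?_)
    exact sum_nonneg fun l _ => add_nonneg (hF _) (E_nonneg _ fun y => hF _)
  · intro P'
    rw [fn_apply]
    have h1 : μ.E (mval m H Q (fun c => (X P' c) ^ h)) ≤
        μ.E (fun w => 2 * ∑ l : Fin m, (X P' (cell (2 * m) Q w l)) ^ h) := by
      refine E_mono μ fun w => ?_
      unfold mval
      rw [mul_sum]
      refine sum_le_sum fun l _ => ?_
      have := hH.P4 (X P') (hX.col P') (cell (2 * m) Q w l)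
      linarith
    rw [E_mul] at h1
    have h2 := hμ.P3 (X P') (hX.col P') Q hQ
    calc (1 / m : ℝ) * μ.E (mval m H Q (fun c => (X P' c) ^ h))
        ≤ (1 / m : ℝ) * (2 * ((2 * m : ℝ) * (X P' Q) ^ h)) :=
          mul_le_mul_of_nonneg_left (h1.trans (by linarith)) (by positivity)
      _ = 4 * (X P' Q) ^ h := by
          field_simp
          ring
  · intro P ω
    unfold psiF
    simp only [fn_apply]
    rw [← mul_sum, ← mul_assoc, mul_one_div_cancel hm0.ne', one_mul, ← E_sum]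
    rfl

end Pool.Agent.H69.FK
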