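import Pool.Agent.H69.FK.State

/-! Order facts on nodes. -/

namespace Pool.Agent.H69.FK

open Finset

/-- `P'` is contained in `P` -/
def subN (q : ℕ) (P' P : Nd) : Prop :=
  q ^ P.1 * P.2 ≤ q ^ P'.1 * P'.2 ∧ q ^ P'.1 * (P'.2 + 1) ≤ q ^ P.1 * (P.2 + 1)

lemma subN_refl (q : ℕ) (P : Nd) : subN q P P := ⟨le_rfl, le_rfl⟩

lemma subN_trans {q : ℕ} {P Q R : Nd} (h1 : subN q P Q) (h2 : subN q Q R) : subN q P R :=
  ⟨h2.1.trans h1.1, h1.2.trans h2.2⟩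

lemma ltN_sub {q : ℕ} {P Q P' Q' : Nd} (h : ltN q P Q) (hP : subN q P' P) (hQ : subN q Q' Q) :
    ltN q P' Q' := by
  unfold ltN at *
  exact hP.2.trans (h.trans hQ.1)

lemma subN_child {q s a i : ℕ} (hs : 1 ≤ s) (hi : i < q) : subN q (s - 1, q * a + i) (s, a) := by
  obtain ⟨t, rfl⟩ : ∃ t, s = t + 1 := ⟨s - 1, by omega⟩
  simp only [Nat.add_sub_cancel, subN]
  constructor
  · have : q ^ (t + 1) * a = q ^ t * (q * a) := by ring
    rw [this]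
    exact Nat.mul_le_mul_left _ (Nat.le_add_right _ _)
  · have : q ^ (t + 1) * (a + 1) = q ^ t * (q * a + q) := by ring
    rw [this]
    exact Nat.mul_le_mul_left _ (by omega)

lemma subN_nd1 {q : ℕ} {P : Nd} {ω : ℕ × ℕ × ℕ} (h1 : ω.1 ≤ P.1) (h2 : ω.2.1 < q ^ ω.1) :
    subN q (nd1 q P ω) P := by
  obtain ⟨s, a⟩ := P
  obtain ⟨j, r, x⟩ := ω
  simp only [nd1] at *
  obtain ⟨t, rfl⟩ : ∃ t, s = t + j := ⟨s - j, by omega⟩
  simp only [Nat.add_sub_cancel, subN]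
  constructor
  · have : q ^ (t + j) * a = q ^ t * (q ^ j * a) := by ring
    rw [this]
    exact Nat.mul_le_mul_left _ (Nat.le_add_right _ _)
  · have : q ^ (t + j) * (a + 1) = q ^ t * (q ^ j * a + q ^ j) := by ring
    rw [this]
    exact Nat.mul_le_mul_left _ (by omega)

lemma cell_eq (q : ℕ) (P : Nd) (ω : ℕ × ℕ × ℕ) (k : ℕ) :
    cell q P ω k = ((nd1 q P ω).1 - 1, q * (nd1 q P ω).2 + (ω.2.2 + k)) := rfl

lemma subN_cell {m : ℕ} {P : Nd} {ω : ℕ × ℕ × ℕ} {k : ℕ} (h1 : ω.1 < P.1)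
    (h2 : ω.2.1 < (2 * m) ^ ω.1) (h3 : ω.2.2 < m) (hk : k < m) :
    subN (2 * m) (cell (2 * m) P ω k) P := by
  rw [cell_eq]
  refine subN_trans (subN_child (s := (nd1 (2 * m) P ω).1) (a := (nd1 (2 * m) P ω).2) ?_ ?_)
    (subN_nd1 h1.le h2)
  · simp only [nd1]; omega
  · omega

lemma ltN_cell {q : ℕ} {P : Nd} {ω : ℕ × ℕ × ℕ} {k k' : ℕ} (hk : k < k') :
    ltN q (cell q P ω k) (cell q P ω k') := by
  simp only [ltN, cell]
  exact Nat.mul_le_mul_left _ (by omega)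

lemma subN_host {q : ℕ} {P : Nd} {y : ℕ} (h1 : q ^ P.1 * P.2 ≤ y) (h2 : y < q ^ P.1 * (P.2 + 1)) :
    subN q (0, y) P := by
  simp only [subN, pow_zero, one_mul]
  exact ⟨h1, h2⟩

end Pool.Agent.H69.FK
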