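import Mathlib

/-! Module NUM. The numbers at the root and at the end of the iteration (helper57, note 2869). -/

namespace Pool.Agent.H69.FK

open Finset

/-- the load of the root: `(d √n X^(1-δ/2))^lam ≤ d^lam / n^4` -/
theorem root_load {δ : ℝ} (h0 : 0 < δ) (h1 : δ ≤ 1 / 2) {lam : ℕ} (hl : 8 / δ ≤ lam) (d : ℕ) {n : ℕ}
    (hn : 1 ≤ n) {X : ℝ} (hX : 0 ≤ X) (hX2 : X ≤ (n : ℝ) ^ (-(1 / 2 + δ))) :
    ((d : ℝ) * (Real.sqrt n * X ^ (1 - δ / 2))) ^ lam ≤ (d : ℝ) ^ lam / (n : ℝ) ^ 4 := by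
  have hn0 : (1 : ℝ) ≤ n := by exact_mod_cast hn
  have hnp : (0 : ℝ) < n := by linarith
  have e1 : Real.sqrt n * X ^ (1 - δ / 2) ≤ (n : ℝ) ^ (-(δ / 2)) := by
    calc Real.sqrt n * X ^ (1 - δ / 2)
        ≤ Real.sqrt n * ((n : ℝ) ^ (-(1 / 2 + δ))) ^ (1 - δ / 2) :=
          mul_le_mul_of_nonneg_left (Real.rpow_le_rpow hX hX2 (by linarith)) (Real.sqrt_nonneg _)
      _ = (n : ℝ) ^ (1 / 2 + (-(1 / 2 + δ)) * (1 - δ / 2)) := by
          rw [Real.sqrt_eq_rpow, ← Real.rpow_mul hnp.le, ← Real.rpow_add hnp]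
      _ ≤ (n : ℝ) ^ (-(δ / 2)) := by
          apply Real.rpow_le_rpow_of_exponent_le hn0
          nlinarith
  have e2 : 0 ≤ Real.sqrt n * X ^ (1 - δ / 2) := by positivity
  have e3 : ((n : ℝ) ^ (-(δ / 2))) ^ lam ≤ 1 / (n : ℝ) ^ 4 := by
    rw [← Real.rpow_natCast, ← Real.rpow_mul hnp.le]
    have h3 : -(δ / 2) * (lam : ℝ) ≤ -((4 : ℕ) : ℝ) := by
      rw [div_le_iff₀ h0] at hl
      push_cast
      linarith
    calc (n : ℝ) ^ (-(δ / 2) * (lam : ℝ)) ≤ (n : ℝ) ^ (-((4 : ℕ) : ℝ)) :=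
          Real.rpow_le_rpow_of_exponent_le hn0 h3
      _ = 1 / (n : ℝ) ^ 4 := by
          rw [Real.rpow_neg hnp.le, Real.rpow_natCast, one_div]
  calc ((d : ℝ) * (Real.sqrt n * X ^ (1 - δ / 2))) ^ lam
      ≤ ((d : ℝ) * (n : ℝ) ^ (-(δ / 2))) ^ lam :=
        pow_le_pow_left₀ (by positivity) (mul_le_mul_of_nonneg_left e1 (by positivity)) lam
    _ = (d : ℝ) ^ lam * ((n : ℝ) ^ (-(δ / 2))) ^ lam := mul_pow _ _ _
    _ ≤ (d : ℝ) ^ lam * (1 / (n : ℝ) ^ 4) := mul_le_mul_of_nonneg_left e3 (by positivity)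
    _ = _ := by ring

/-- choice of `b` -/
theorem exists_b (C : ℝ) : ∃ b : ℕ, 2 ≤ b ∧ C * ((4 * b + 1 : ℕ) : ℝ) ^ 2 ≤ (b : ℝ) ^ 3 := by
  obtain ⟨k, hk⟩ := exists_nat_ge (25 * |C|)
  refine ⟨k + 2, by omega, ?_⟩
  have h1 : (0 : ℝ) ≤ k := Nat.cast_nonneg k
  have h2 : C ≤ |C| := le_abs_self C
  have h3 : (0 : ℝ) ≤ |C| := abs_nonneg C
  set y : ℝ := ((k + 2 : ℕ) : ℝ) with hy
  have hy2 : (2 : ℝ) ≤ y := by rw [hy]; push_cast; linarith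
  have hyk : (k : ℝ) ≤ y := by rw [hy]; push_cast; linarith
  have h4 : ((4 * (k + 2) + 1 : ℕ) : ℝ) = 4 * y + 1 := by rw [hy]; push_cast; ring
  rw [h4]
  have h5 : (4 * y + 1) ^ 2 ≤ 25 * y ^ 2 := by nlinarith
  calc C * (4 * y + 1) ^ 2 ≤ |C| * (4 * y + 1) ^ 2 :=
        mul_le_mul_of_nonneg_right h2 (by positivity)
    _ ≤ |C| * (25 * y ^ 2) := mul_le_mul_of_nonneg_left h5 h3
    _ = (25 * |C|) * y ^ 2 := by ring
    _ ≤ y * y ^ 2 := mul_le_mul_of_nonneg_right (by linarith) (by positivity)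
    _ = y ^ 3 := by ring

/-- number of the steps: `n ≤ b ^ D ≤ b * n` -/
theorem exists_steps {b n : ℕ} (hb : 2 ≤ b) (hn : 1 ≤ n) : ∃ D : ℕ, n ≤ b ^ D ∧ b ^ D ≤ b * n := by
  refine ⟨Nat.clog b n, Nat.le_pow_clog (by omega) n, ?_⟩
  rcases Nat.eq_or_lt_of_le hn with h | h
  · rw [← h, Nat.clog_one_right]
    simp
    omega
  · have h1 : 0 < Nat.clog b n := Nat.clog_pos (by omega) (by omega)
    have h2 := Nat.pow_pred_clog_lt_self (b := b) (by omega) (x := n) (by omega)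
    calc b ^ Nat.clog b n = b * b ^ (Nat.clog b n).pred := by
          rw [← pow_succ']
          congr 1
          exact (Nat.succ_pred_eq_of_pos h1).symm
      _ ≤ b * n := Nat.mul_le_mul_left b h2.le

/-- the end: if the total grows by a factor at most `b ^ 3` per step, it stays below `1` -/
theorem end_small {b n d lam D : ℕ} (hn : 2 * b ^ 3 * d ^ lam < n)
    (hD : b ^ D ≤ b * n) {g Om0 : ℝ} (hg0 : 0 ≤ g) (hg : g ≤ (b : ℝ) ^ 3)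
    (hO : Om0 ≤ 2 * ((d : ℝ) ^ lam / (n : ℝ) ^ 4)) : g ^ D * Om0 < 1 := by
  have hn0 : (0 : ℝ) < n := by
    have : 0 < n := by omega
    exact_mod_cast this
  have h1 : g ^ D ≤ (b : ℝ) ^ 3 * (n : ℝ) ^ 3 := by
    calc g ^ D ≤ ((b : ℝ) ^ 3) ^ D := pow_le_pow_left₀ hg0 hg D
      _ = ((b : ℝ) ^ D) ^ 3 := by rw [← pow_mul, ← pow_mul, mul_comm]
      _ ≤ ((b : ℝ) * n) ^ 3 := by
          apply pow_le_pow_left₀ (by positivity)
          exact_mod_cast hD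
      _ = (b : ℝ) ^ 3 * (n : ℝ) ^ 3 := by ring
  have h2 : 0 ≤ g ^ D := pow_nonneg hg0 D
  calc g ^ D * Om0 ≤ g ^ D * (2 * ((d : ℝ) ^ lam / (n : ℝ) ^ 4)) := mul_le_mul_of_nonneg_left hO h2
    _ ≤ ((b : ℝ) ^ 3 * (n : ℝ) ^ 3) * (2 * ((d : ℝ) ^ lam / (n : ℝ) ^ 4)) :=
        mul_le_mul_of_nonneg_right h1 (by positivity)
    _ = (2 * (b : ℝ) ^ 3 * (d : ℝ) ^ lam) / n := by field_simp
    _ < 1 := by
        rw [div_lt_one hn0]
        exact_mod_cast hn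

/-- the number of the host rows is polynomial -/
theorem host_le {b n Q A D : ℕ} (hQ : Q ≤ b ^ A) (hn : b ≤ n) (hD : b ^ D ≤ b * n) :
    Q ^ D ≤ n ^ (2 * A) := by
  calc Q ^ D ≤ (b ^ A) ^ D := Nat.pow_le_pow_left hQ D
    _ = (b ^ D) ^ A := by rw [← pow_mul, ← pow_mul, mul_comm]
    _ ≤ (b * n) ^ A := Nat.pow_le_pow_left hD A
    _ ≤ (n * n) ^ A := Nat.pow_le_pow_left (Nat.mul_le_mul_right n hn) A
    _ = n ^ (2 * A) := by rw [← pow_two, ← pow_mul]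

theorem exists_A {b : ℕ} (hb : 2 ≤ b) (Q : ℕ) : ∃ A : ℕ, Q ≤ b ^ A :=
  ⟨Q, (Nat.lt_pow_self (by omega)).le⟩

/-- choice of `R` -/
theorem exists_R {h : ℝ} (hh : h < 1) : ∃ R : ℝ, 1 ≤ R ∧ 4 ≤ R ^ (1 - h) := by
  have h1 : 0 < 1 - h := by linarith
  refine ⟨(4 : ℝ) ^ (1 / (1 - h)), Real.one_le_rpow (by norm_num) (by positivity), ?_⟩
  rw [← Real.rpow_mul (by norm_num), one_div, inv_mul_cancel₀ h1.ne', Real.rpow_one]

end Pool.Agent.H69.FK
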