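import Pool.Agent.H69.FK.Basic

/-! Module PHI. The one-step inequality (S) and the averages over the `q`-ary tree. -/

namespace Pool.Agent.H69.FK

open Finset

/-- the pointwise inequality behind (S) -/
theorem rpow_one_step (h R : ℝ) (h34 : 3 / 4 ≤ h) (h1 : h < 1) (hR1 : 1 ≤ R)
    (hR : 4 ≤ R ^ (1 - h)) {r : ℝ} (hr : 0 ≤ r) :
    r ^ h + 2 * (if R < r then r ^ h else 0) ≤ (1 - h) + h * r := by
  have hh0 : 0 < h := by linarith
  have hBern : r ^ h ≤ (1 - h) + h * r := by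
    have := Real.geom_mean_le_arith_mean2_weighted (w₁ := h) (w₂ := 1 - h) (p₁ := r) (p₂ := 1)
      hh0.le (by linarith) hr zero_le_one (by ring)
    simp only [Real.one_rpow, mul_one] at this
    linarith
  by_cases hc : R < r
  · rw [if_pos hc]
    have hrpos : 0 < r := by linarith
    have h2 : r ^ h * r ^ (1 - h) = r := by
      rw [← Real.rpow_add hrpos]
      simp
    have h3 : 4 ≤ r ^ (1 - h) :=
      hR.trans (Real.rpow_le_rpow (by linarith) hc.le (by linarith))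
    have h4 : 0 ≤ r ^ h := Real.rpow_nonneg hr h
    have h5 : 4 * r ^ h ≤ r := by nlinarith
    nlinarith
  · rw [if_neg hc]
    linarith

/-- (S), pointwise-summed form. -/
theorem step_ineq (h R : ℝ) (hh : 3 / 4 ≤ h) (hh1 : h < 1) (hR : 1 ≤ R) (hR4 : 4 ≤ R ^ (1 - h))
    {ι : Type} (s : Finset ι) (x : ι → ℝ) (hx : ∀ i ∈ s, 0 ≤ x i) (X : ℝ) (hX : 0 ≤ X)
    (hav : ∑ i ∈ s, x i = s.card * X) :
    ∑ i ∈ s, (x i) ^ h + 2 * ∑ i ∈ s, spk h R X (x i) ≤ s.card * X ^ h := by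
  have hh0 : h ≠ 0 := by linarith
  rcases hX.eq_or_lt with hz | hpos
  · subst hz
    have h3 : ∀ i ∈ s, x i = 0 := by
      rw [mul_zero] at hav
      exact (Finset.sum_eq_zero_iff_of_nonneg hx).1 hav
    rw [Finset.sum_congr rfl fun i hi => by rw [h3 i hi, Real.zero_rpow hh0]]
    have h4 : ∑ i ∈ s, spk h R 0 (x i) = 0 := by
      refine Finset.sum_eq_zero fun i hi => ?_
      rw [h3 i hi]
      simp [spk]
    rw [h4, Real.zero_rpow hh0]
    simp
  · have h2 : ∀ i ∈ s, (x i) ^ h + 2 * spk h R X (x i) ≤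
        X ^ h * ((1 - h) + h * (x i / X)) := by
      intro i hi
      have h3 := rpow_one_step h R hh hh1 hR hR4 (r := x i / X) (div_nonneg (hx i hi) hpos.le)
      have h4 : (x i) ^ h = X ^ h * (x i / X) ^ h := by
        rw [← Real.mul_rpow hpos.le (div_nonneg (hx i hi) hpos.le)]
        congr 1
        field_simp
      have h5 : (R * X < x i) ↔ R < x i / X := by
        rw [lt_div_iff₀ hpos]
      have h6 : 0 ≤ X ^ h := Real.rpow_nonneg hpos.le h
      unfold spk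
      by_cases hc : R < x i / X
      · rw [if_pos (h5.2 hc)]
        rw [if_pos hc] at h3
        rw [h4]
        nlinarith
      · rw [if_neg (fun hh => hc (h5.1 hh))]
        rw [if_neg hc] at h3
        rw [h4]
        nlinarith
    calc ∑ i ∈ s, (x i) ^ h + 2 * ∑ i ∈ s, spk h R X (x i)
        = ∑ i ∈ s, ((x i) ^ h + 2 * spk h R X (x i)) := by
          rw [Finset.sum_add_distrib, ← Finset.mul_sum]
      _ ≤ ∑ i ∈ s, X ^ h * ((1 - h) + h * (x i / X)) := Finset.sum_le_sum h2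
      _ = X ^ h * (s.card * (1 - h) + h * ((∑ i ∈ s, x i) / X)) := by
          rw [← Finset.mul_sum, Finset.sum_add_distrib, ← Finset.mul_sum, Finset.sum_div,
            Finset.sum_const, nsmul_eq_mul]
      _ = s.card * X ^ h := by
          have h7 : (s.card : ℝ) * X / X = s.card := by field_simp
          rw [hav, h7]
          ring

/-- existence of the option measure: `j < J`, `r < q ^ j`, `x < m` uniform (in this order). -/
theorem exists_opt (q m J : ℕ) (hq : 1 ≤ q) (hm : 1 ≤ m) (hJ : 1 ≤ J) :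
    ∃ μ : FP (ℕ × ℕ × ℕ), (∀ ω ∈ μ.S, ω.1 < J ∧ ω.2.1 < q ^ ω.1 ∧ ω.2.2 < m) ∧
      ∀ Z : ℕ × ℕ × ℕ → ℝ, μ.E Z =
        (∑ j ∈ range J, (∑ r ∈ range (q ^ j), (∑ x ∈ range m, Z (j, r, x)) / m) / (q : ℝ) ^ j) / J := by
  classical
  set S : Finset (ℕ × ℕ × ℕ) :=
    (range J ×ˢ (range (q ^ J) ×ˢ range m)).filter fun ω => ω.2.1 < q ^ ω.1 with hS
  set p : ℕ × ℕ × ℕ → ℝ := fun ω => 1 / ((J : ℝ) * (q : ℝ) ^ ω.1 * m) with hp
  have hJ' : (J : ℝ) ≠ 0 := by positivity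
  have hm' : (m : ℝ) ≠ 0 := by positivity
  have hq' : (q : ℝ) ≠ 0 := by positivity
  have hE : ∀ Z : ℕ × ℕ × ℕ → ℝ, ∑ ω ∈ S, p ω * Z ω =
      (∑ j ∈ range J, (∑ r ∈ range (q ^ j), (∑ x ∈ range m, Z (j, r, x)) / m) / (q : ℝ) ^ j) / J := by
    intro Z
    rw [hS, Finset.sum_filter, Finset.sum_product, Finset.sum_div]
    refine Finset.sum_congr rfl fun j hj => ?_
    rw [Finset.sum_product]
    have hjJ : j < J := Finset.mem_range.1 hj
    have hpow : q ^ j ≤ q ^ J := Nat.pow_le_pow_right hq hjJ.le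
    have h1 : ∀ r ∈ range (q ^ J), (∑ x ∈ range m,
        if (j, r, x).2.1 < q ^ (j, r, x).1 then p (j, r, x) * Z (j, r, x) else 0) =
        if r < q ^ j then ∑ x ∈ range m, p (j, r, x) * Z (j, r, x) else 0 := by
      intro r _
      by_cases hr : r < q ^ j
      · simp [hr]
      · simp [hr]
    rw [Finset.sum_congr rfl h1, ← Finset.sum_filter]
    have h2 : (range (q ^ J)).filter (fun r => r < q ^ j) = range (q ^ j) := by
      ext r
      simp only [Finset.mem_filter, Finset.mem_range]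
      constructor
      · exact fun h => h.2
      · exact fun h => ⟨by omega, h⟩
    rw [h2, div_div, Finset.sum_div]
    refine Finset.sum_congr rfl fun r _ => ?_
    rw [div_div, Finset.sum_div]
    refine Finset.sum_congr rfl fun x _ => ?_
    simp only [hp]
    field_simp
  refine ⟨⟨S, p, fun w => by positivity, ?_⟩, ?_, hE⟩
  · have h1 := hE fun _ => 1
    simp only [mul_one] at h1
    rw [h1]
    have h2 : ∀ j ∈ range J, (∑ r ∈ range (q ^ j), (∑ x ∈ range m, (1 : ℝ)) / m) / (q : ℝ) ^ j = 1 := by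
      intro j _
      simp only [Finset.sum_const, Finset.card_range, nsmul_eq_mul, mul_one]
      rw [div_self hm']
      push_cast
      field_simp
    rw [Finset.sum_congr rfl h2]
    simp [hJ']
  · intro ω hω
    simp only [hS, Finset.mem_filter, Finset.mem_product, Finset.mem_range] at hω
    exact ⟨hω.1.1, hω.2, hω.1.2.2⟩

/-! ### Averages over the tree -/

theorem sum_range_mul (F : ℕ → ℝ) (a b : ℕ) :
    ∑ r ∈ range (a * b), F r = ∑ r ∈ range a, ∑ i ∈ range b, F (b * r + i) := by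
  induction a with
  | zero => simp
  | succ a ih =>
    rw [Nat.succ_mul, Finset.sum_range_add, ih, Finset.sum_range_succ, mul_comm a b]

/-- the sum of `g ^ h` over the subintervals `j` levels deeper -/
noncomputable def lev (h : ℝ) (q : ℕ) (g : Nd → ℝ) (P : Nd) (j : ℕ) : ℝ :=
  ∑ r ∈ range (q ^ j), (g (P.1 - j, q ^ j * P.2 + r)) ^ h

/-- the sum of the spiky parts over the subintervals `j` levels deeper and their children -/
noncomputable def slev (h R : ℝ) (q : ℕ) (g : Nd → ℝ) (P : Nd) (j : ℕ) : ℝ :=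
  ∑ r ∈ range (q ^ j), ∑ i ∈ range q, spk h R (g (P.1 - j, q ^ j * P.2 + r))
    (g (P.1 - j - 1, q * (q ^ j * P.2 + r) + i))

theorem lev_zero (h : ℝ) (q : ℕ) (g : Nd → ℝ) (P : Nd) : lev h q g P 0 = (g P) ^ h := by
  simp [lev]

theorem lev_nonneg {h : ℝ} {q : ℕ} {g : Nd → ℝ} (hg : Harm1 q g) (P : Nd) (j : ℕ) :
    0 ≤ lev h q g P j :=
  Finset.sum_nonneg fun _ _ => Real.rpow_nonneg (hg.nn _) h

theorem slev_nonneg {h R : ℝ} {q : ℕ} {g : Nd → ℝ} (hg : Harm1 q g) (P : Nd) (j : ℕ) :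
    0 ≤ slev h R q g P j :=
  Finset.sum_nonneg fun _ _ => Finset.sum_nonneg fun _ _ => spk_nonneg (hg.nn _)

theorem lev_succ_eq (h : ℝ) (q : ℕ) (g : Nd → ℝ) (P : Nd) (j : ℕ) :
    lev h q g P (j + 1) = ∑ r ∈ range (q ^ j), ∑ i ∈ range q,
      (g (P.1 - j - 1, q * (q ^ j * P.2 + r) + i)) ^ h := by
  rw [lev, pow_succ, sum_range_mul]
  refine Finset.sum_congr rfl fun r _ => Finset.sum_congr rfl fun i _ => ?_
  have h1 : P.1 - (j + 1) = P.1 - j - 1 := by omega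
  have h2 : q ^ j * q * P.2 + (q * r + i) = q * (q ^ j * P.2 + r) + i := by ring
  rw [h1, h2]

/-- one level -/
theorem lev_step (h R : ℝ) (hh : 3 / 4 ≤ h) (hh1 : h < 1) (hR : 1 ≤ R) (hR4 : 4 ≤ R ^ (1 - h))
    {q : ℕ} {g : Nd → ℝ} (hg : Harm1 q g) (P : Nd) (j : ℕ) (hj : j < P.1) :
    lev h q g P (j + 1) + 2 * slev h R q g P j ≤ q * lev h q g P j := by
  rw [lev_succ_eq, slev, lev, Finset.mul_sum, Finset.mul_sum, ← Finset.sum_add_distrib]
  refine Finset.sum_le_sum fun r _ => ?_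
  have h1 : P.1 - j = (P.1 - j - 1) + 1 := by omega
  have h2 := hg.av (P.1 - j - 1) (q ^ j * P.2 + r)
  rw [← h1] at h2
  have h3 := step_ineq h R hh hh1 hR hR4 (range q)
    (fun i => g (P.1 - j - 1, q * (q ^ j * P.2 + r) + i)) (fun i _ => hg.nn _)
    (g (P.1 - j, q ^ j * P.2 + r)) (hg.nn _) (by rw [Finset.card_range]; exact h2.symm)
  rw [Finset.card_range] at h3
  exact h3

/-- a number `R` for the proof of the averages without spiky part -/
theorem exists_R (h : ℝ) (hh1 : h < 1) : ∃ R : ℝ, 1 ≤ R ∧ 4 ≤ R ^ (1 - h) := by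
  refine ⟨4 ^ (1 / (1 - h)), ?_, ?_⟩
  · exact Real.one_le_rpow (by norm_num) (by
      have : 0 < 1 - h := by linarith
      positivity)
  · rw [← Real.rpow_mul (by norm_num)]
    have : 1 / (1 - h) * (1 - h) = 1 := by
      have : 1 - h ≠ 0 := by linarith
      field_simp
    rw [this]
    simp

/-- the normalised sums decrease -/
theorem lev_div_le (h : ℝ) (hh : 3 / 4 ≤ h) (hh1 : h < 1) {q : ℕ} (hq : 1 ≤ q) {g : Nd → ℝ}
    (hg : Harm1 q g) (P : Nd) (j : ℕ) (hj : j ≤ P.1) :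
    lev h q g P j / (q : ℝ) ^ j ≤ (g P) ^ h := by
  obtain ⟨R, hR, hR4⟩ := exists_R h hh1
  have hq' : (0 : ℝ) < q := by positivity
  induction j with
  | zero => simp [lev_zero]
  | succ j ih =>
    refine le_trans ?_ (ih (by omega))
    have h1 := lev_step h R hh hh1 hR hR4 hg P j (by omega)
    have h2 : 0 ≤ slev h R q g P j := slev_nonneg hg P j
    rw [div_le_div_iff₀ (by positivity) (by positivity), pow_succ]
    have h3 : lev h q g P (j + 1) ≤ q * lev h q g P j := by linarith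
    have h4 : 0 < (q : ℝ) ^ j := by positivity
    nlinarith

/-- the sum of the spiky parts -/
theorem slev_sum_le (h R : ℝ) (hh : 3 / 4 ≤ h) (hh1 : h < 1) (hR : 1 ≤ R)
    (hR4 : 4 ≤ R ^ (1 - h)) {q : ℕ} (hq : 1 ≤ q) {g : Nd → ℝ} (hg : Harm1 q g) (P : Nd) (J : ℕ)
    (hJ : J ≤ P.1) :
    2 * ∑ j ∈ range J, slev h R q g P j / (q : ℝ) ^ (j + 1) + lev h q g P J / (q : ℝ) ^ J ≤
      (g P) ^ h := by
  have hq' : (0 : ℝ) < q := by positivity
  induction J with
  | zero => simp [lev_zero]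
  | succ J ih =>
    refine le_trans ?_ (ih (by omega))
    rw [Finset.sum_range_succ]
    have h1 := lev_step h R hh hh1 hR hR4 hg P J (by omega)
    have h2 : lev h q g P (J + 1) / (q : ℝ) ^ (J + 1) +
        2 * (slev h R q g P J / (q : ℝ) ^ (J + 1)) ≤ lev h q g P J / (q : ℝ) ^ J := by
      have h3 : lev h q g P (J + 1) / (q : ℝ) ^ (J + 1) +
        2 * (slev h R q g P J / (q : ℝ) ^ (J + 1)) =
        (lev h q g P (J + 1) + 2 * slev h R q g P J) / (q : ℝ) ^ (J + 1) := by ring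
      rw [h3, div_le_div_iff₀ (by positivity) (by positivity), pow_succ]
      have h4 : 0 < (q : ℝ) ^ J := by positivity
      nlinarith
    linarith

/-- windows of `m` consecutive children among `2 m` -/
theorem window_sum_le (m : ℕ) (F : ℕ → ℝ) (hF : ∀ i, 0 ≤ F i) :
    ∑ x ∈ range m, ∑ k : Fin m, F (x + k) ≤ m * ∑ i ∈ range (2 * m), F i := by
  rw [Finset.sum_comm]
  calc ∑ k : Fin m, ∑ x ∈ range m, F (x + k) ≤ ∑ _k : Fin m, ∑ i ∈ range (2 * m), F i := by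
        refine Finset.sum_le_sum fun k _ => ?_
        have h1 : ∑ x ∈ range m, F (x + k) = ∑ i ∈ (range m).map (addRightEmbedding (k : ℕ)), F i := by
          rw [Finset.sum_map]
          rfl
        rw [h1]
        refine Finset.sum_le_sum_of_subset_of_nonneg ?_ fun i _ _ => hF i
        intro i hi
        simp only [Finset.mem_map, Finset.mem_range, addRightEmbedding_apply] at hi ⊢
        obtain ⟨x, hx, rfl⟩ := hi
        have := k.2
        omega
    _ = m * ∑ i ∈ range (2 * m), F i := by simp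

/-- (P1), (P2), (P3) for a measure as in `exists_opt`. -/
theorem opt_P1 (h : ℝ) (hh : 3 / 4 ≤ h) (hh1 : h < 1) (q m J : ℕ) (hq : 1 ≤ q) (hm : 1 ≤ m)
    (hJ : 1 ≤ J) (μ : FP (ℕ × ℕ × ℕ))
    (hμ : ∀ Z : ℕ × ℕ × ℕ → ℝ, μ.E Z =
        (∑ j ∈ range J, (∑ r ∈ range (q ^ j), (∑ x ∈ range m, Z (j, r, x)) / m) / (q : ℝ) ^ j) / J)
    (g : Nd → ℝ) (hg : Harm1 q g) (P : Nd) (hP : J ≤ P.1) :
    μ.E (fun ω => (g (nd1 q P ω)) ^ h) ≤ (g P) ^ h := by
  have hJ' : (0 : ℝ) < J := by positivity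
  have hm' : (m : ℝ) ≠ 0 := by positivity
  rw [hμ, div_le_iff₀ hJ']
  calc ∑ j ∈ range J, (∑ r ∈ range (q ^ j), (∑ x ∈ range m,
        (g (nd1 q P (j, r, x))) ^ h) / m) / (q : ℝ) ^ j
      ≤ ∑ j ∈ range J, (g P) ^ h := by
        refine Finset.sum_le_sum fun j hj => ?_
        have h1 : ∀ r ∈ range (q ^ j), (∑ x ∈ range m, (g (nd1 q P (j, r, x))) ^ h) / (m : ℝ) =
            (g (P.1 - j, q ^ j * P.2 + r)) ^ h := by
          intro r _
          simp only [nd1, Finset.sum_const, Finset.card_range, nsmul_eq_mul]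
          field_simp
        rw [Finset.sum_congr rfl h1]
        exact lev_div_le h hh hh1 hq hg P j ((Finset.mem_range.1 hj).le.trans hP)
    _ = (g P) ^ h * J := by simp [mul_comm]

theorem opt_P2 (h R : ℝ) (hh : 3 / 4 ≤ h) (hh1 : h < 1) (hR : 1 ≤ R) (hR4 : 4 ≤ R ^ (1 - h))
    (m J : ℕ) (hm : 1 ≤ m) (hJ : 1 ≤ J) (μ : FP (ℕ × ℕ × ℕ))
    (hμ : ∀ Z : ℕ × ℕ × ℕ → ℝ, μ.E Z =
        (∑ j ∈ range J, (∑ r ∈ range ((2 * m) ^ j), (∑ x ∈ range m, Z (j, r, x)) / m) /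
          ((2 * m : ℕ) : ℝ) ^ j) / J)
    (g : Nd → ℝ) (hg : Harm1 (2 * m) g) (P : Nd) (hP : J ≤ P.1) :
    μ.E (fun ω => ∑ k : Fin m, spk h R (g (nd1 (2 * m) P ω)) (g (cell (2 * m) P ω k))) ≤
      (m / J : ℝ) * (g P) ^ h := by
  have hJ' : (0 : ℝ) < J := by positivity
  have hm' : (0 : ℝ) < m := by positivity
  have hq' : (0 : ℝ) < ((2 * m : ℕ) : ℝ) := by positivity
  rw [hμ, div_le_iff₀ hJ']
  have h1 : ∀ j ∈ range J, (∑ r ∈ range ((2 * m) ^ j), (∑ x ∈ range m,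
        ∑ k : Fin m, spk h R (g (nd1 (2 * m) P (j, r, x))) (g (cell (2 * m) P (j, r, x) k))) / m) /
          ((2 * m : ℕ) : ℝ) ^ j ≤
        ((2 * m : ℕ) : ℝ) * (slev h R (2 * m) g P j / ((2 * m : ℕ) : ℝ) ^ (j + 1)) := by
    intro j _
    have h2 : ((2 * m : ℕ) : ℝ) * (slev h R (2 * m) g P j / ((2 * m : ℕ) : ℝ) ^ (j + 1)) =
        slev h R (2 * m) g P j / ((2 * m : ℕ) : ℝ) ^ j := by
      rw [pow_succ]
      field_simp
    rw [h2]
    refine div_le_div_of_nonneg_right ?_ (by positivity)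
    unfold slev
    refine Finset.sum_le_sum fun r _ => ?_
    rw [div_le_iff₀ hm']
    exact (window_sum_le m (fun i => spk h R (g (P.1 - j, (2 * m) ^ j * P.2 + r))
      (g (P.1 - j - 1, 2 * m * ((2 * m) ^ j * P.2 + r) + i))) fun i =>
        spk_nonneg (hg.nn _)).trans (le_of_eq (mul_comm _ _))
  have h3 := slev_sum_le h R hh hh1 hR hR4 (by omega : 1 ≤ 2 * m) hg P J hP
  have h4 : 0 ≤ lev h (2 * m) g P J / ((2 * m : ℕ) : ℝ) ^ J :=
    div_nonneg (lev_nonneg hg P J) (by positivity)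
  calc ∑ j ∈ range J, (∑ r ∈ range ((2 * m) ^ j), (∑ x ∈ range m,
        ∑ k : Fin m, spk h R (g (nd1 (2 * m) P (j, r, x))) (g (cell (2 * m) P (j, r, x) k))) / m) /
          ((2 * m : ℕ) : ℝ) ^ j
      ≤ ∑ j ∈ range J, ((2 * m : ℕ) : ℝ) *
          (slev h R (2 * m) g P j / ((2 * m : ℕ) : ℝ) ^ (j + 1)) := Finset.sum_le_sum h1
    _ = ((2 * m : ℕ) : ℝ) * ∑ j ∈ range J, slev h R (2 * m) g P j / ((2 * m : ℕ) : ℝ) ^ (j + 1) := by
        rw [Finset.mul_sum]
    _ ≤ ((2 * m : ℕ) : ℝ) * ((g P) ^ h / 2) := by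
        refine mul_le_mul_of_nonneg_left ?_ hq'.le
        linarith
    _ = (m / J : ℝ) * (g P) ^ h * J := by
        push_cast
        field_simp

theorem opt_P3 (h : ℝ) (hh : 3 / 4 ≤ h) (hh1 : h < 1)
    (m J : ℕ) (hm : 1 ≤ m) (hJ : 1 ≤ J) (μ : FP (ℕ × ℕ × ℕ))
    (hμ : ∀ Z : ℕ × ℕ × ℕ → ℝ, μ.E Z =
        (∑ j ∈ range J, (∑ r ∈ range ((2 * m) ^ j), (∑ x ∈ range m, Z (j, r, x)) / m) /
          ((2 * m : ℕ) : ℝ) ^ j) / J)
    (g : Nd → ℝ) (hg : Harm1 (2 * m) g) (P : Nd) (hP : J ≤ P.1) :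
    μ.E (fun ω => ∑ k : Fin m, (g (cell (2 * m) P ω k)) ^ h) ≤ (2 * m : ℝ) * (g P) ^ h := by
  have hJ' : (0 : ℝ) < J := by positivity
  have hm' : (0 : ℝ) < m := by positivity
  have hq' : (0 : ℝ) < ((2 * m : ℕ) : ℝ) := by positivity
  rw [hμ, div_le_iff₀ hJ']
  have h1 : ∀ j ∈ range J, (∑ r ∈ range ((2 * m) ^ j), (∑ x ∈ range m,
        ∑ k : Fin m, (g (cell (2 * m) P (j, r, x) k)) ^ h) / m) /
          ((2 * m : ℕ) : ℝ) ^ j ≤ (2 * m : ℝ) * (g P) ^ h := by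
    intro j hj
    have h5 := lev_div_le h hh hh1 (by omega : 1 ≤ 2 * m) hg P (j + 1)
      (by have := Finset.mem_range.1 hj; omega)
    have h2 : lev h (2 * m) g P (j + 1) / ((2 * m : ℕ) : ℝ) ^ j ≤ (2 * m : ℝ) * (g P) ^ h := by
      have h6 : lev h (2 * m) g P (j + 1) / ((2 * m : ℕ) : ℝ) ^ j =
        ((2 * m : ℕ) : ℝ) * (lev h (2 * m) g P (j + 1) / ((2 * m : ℕ) : ℝ) ^ (j + 1)) := by
        rw [pow_succ]
        field_simp
      rw [h6]
      have := mul_le_mul_of_nonneg_left h5 hq'.le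
      refine this.trans (le_of_eq ?_)
      push_cast
      ring
    refine le_trans ?_ h2
    refine div_le_div_of_nonneg_right ?_ (by positivity)
    rw [lev_succ_eq]
    refine Finset.sum_le_sum fun r _ => ?_
    rw [div_le_iff₀ hm']
    exact (window_sum_le m (fun i => (g (P.1 - j - 1, 2 * m * ((2 * m) ^ j * P.2 + r) + i)) ^ h)
      fun i => Real.rpow_nonneg (hg.nn _) h).trans (le_of_eq (mul_comm _ _))
  calc _ ≤ ∑ j ∈ range J, (2 * m : ℝ) * (g P) ^ h := Finset.sum_le_sum h1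
    _ = (2 * m : ℝ) * (g P) ^ h * J := by simp [mul_comm]

/-- the uniform measure on the host rows (columns) of a node -/
theorem exists_host (q : ℕ) (hq : 1 ≤ q) : ∃ H : Nd → FP ℕ,
    (∀ P y, y ∈ (H P).S ↔ q ^ P.1 * P.2 ≤ y ∧ y < q ^ P.1 * (P.2 + 1)) ∧
    ∀ (h : ℝ), 3 / 4 ≤ h → h < 1 → ∀ g : Nd → ℝ, Harm1 q g → ∀ P : Nd,
      (H P).E (fun y => (g (0, y)) ^ h) ≤ (g P) ^ h := by
  have hq' : (0 : ℝ) < q := by positivity
  have hcard : ∀ P : Nd, q ^ P.1 * (P.2 + 1) - q ^ P.1 * P.2 = q ^ P.1 := by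
    intro P
    rw [mul_add, mul_one]
    omega
  refine ⟨fun P => ⟨Finset.Ico (q ^ P.1 * P.2) (q ^ P.1 * (P.2 + 1)), fun _ => 1 / (q : ℝ) ^ P.1,
    fun _ => by positivity, ?_⟩, fun P y => Finset.mem_Ico, ?_⟩
  · rw [Finset.sum_const, Nat.card_Ico, hcard, nsmul_eq_mul]
    push_cast
    field_simp
  · intro h hh hh1 g hg P
    have h1 := lev_div_le h hh hh1 hq hg P P.1 le_rfl
    refine le_trans (le_of_eq ?_) h1
    unfold FP.E lev
    simp only
    rw [← Finset.mul_sum, Finset.sum_Ico_eq_sum_range, hcard, Nat.sub_self]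
    ring

end Pool.Agent.H69.FK
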