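import Pool.Agent.H69.FK.ThmF
import Pool.Agent.H68.RS.Main

/-! Module REDUCE. The greedy reduction (threshold `n ^ (-(1/2 + δ))`). -/

namespace Pool.Agent.H69.FK

open Pool.Agent.H68.RS Filter

section Core

open Finset

open scoped Classical in
/-- The greedy reduction. If every `S × T` with at least `n ^ a` rows and columns and with a part
at most `1 / k0` of red entries contains `M` without red entries, then every 2-colouring of the
`N × N` matrix, `N = n ^ (a + 1) * k0 ^ d`, contains a monochromatic copy of `M`. -/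
theorem core_thr {n d a k0 : ℕ} (hn : 1 ≤ n) (hk0 : 2 ≤ k0)
    (M : Fin n → Fin n → Prop)
    (hd : ∀ r, (univ.filter (fun c => M r c)).card ≤ d)
    (hF : ∀ (S T : Finset ℕ) (W : Set (ℕ × ℕ)), n ^ a ≤ S.card → n ^ a ≤ T.card →
      k0 * (W ∩ {z | z.1 ∈ S ∧ z.2 ∈ T}).ncard ≤ S.card * T.card →
      ∃ t y : Fin n → ℕ, StrictMono t ∧ StrictMono y ∧ (∀ i, t i ∈ S) ∧ (∀ i, y i ∈ T) ∧
        ∀ i c, M i c → (t i, y c) ∉ W) (χ : ℕ → ℕ → Bool) {N : ℕ}
    (hN : N = n ^ (a + 1) * k0 ^ d) :
    ∃ (b : Bool) (f g : Fin n → ℕ), StrictMono f ∧ StrictMono g ∧ (∀ r, f r < N) ∧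
      (∀ c, g c < N) ∧ ∀ r c, M r c → χ (f r) (g c) = b := by
  by_contra hno
  -- numbers of 1-entries in the columns and the starts of the column blocks
  set k : ℕ → ℕ := fun c => (univ.filter (fun r : Fin n => ∃ h : c < n, M r ⟨c, h⟩)).card with hk
  set st : ℕ → ℕ := fun m => ∑ c ∈ range m, (k c * (n ^ a - 1) + 1) with hst
  have hst1 : ∀ m, st (m + 1) = st m + (k m * (n ^ a - 1) + 1) := fun m => by
    rw [hst]; simp [Finset.sum_range_succ]
  have hstmono : Monotone st := monotone_nat_of_le_succ (fun m => by rw [hst1]; omega)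
  -- total number of columns
  have hksum : ∑ c ∈ range n, k c ≤ d * n := by
    have h1 : ∑ c ∈ range n, k c = ∑ c : Fin n, (univ.filter (fun r : Fin n => M r c)).card := by
      rw [Finset.sum_range]
      apply Finset.sum_congr rfl
      intro c _
      simp only [hk]
      congr 1
      ext r
      simp
    have h2 : ∑ c : Fin n, (univ.filter (fun r : Fin n => M r c)).card =
        ∑ r : Fin n, (univ.filter (fun c : Fin n => M r c)).card := by
      simp only [Finset.card_filter]
      rw [Finset.sum_comm]
    rw [h1, h2]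
    calc _ ≤ ∑ _r : Fin n, d := Finset.sum_le_sum (fun r _ => hd r)
      _ = d * n := by simp [mul_comm]
  have hstn : st n ≤ N := by
    have h1 : st n = (∑ c ∈ range n, k c) * (n ^ a - 1) + n := by
      rw [hst]
      simp [Finset.sum_add_distrib, Finset.sum_mul]
    have h2 : d + 1 ≤ k0 ^ d := by
      calc d + 1 ≤ 2 ^ d := Nat.lt_two_pow_self
        _ ≤ k0 ^ d := Nat.pow_le_pow_left hk0 d
    have hna : 1 ≤ n ^ a := Nat.one_le_pow _ _ hn
    rw [h1, hN]
    calc (∑ c ∈ range n, k c) * (n ^ a - 1) + n ≤ (d * n) * n ^ a + n * n ^ a := by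
          have h3 := Nat.mul_le_mul hksum (Nat.sub_le (n ^ a) 1)
          have h4 : n ≤ n * n ^ a := Nat.le_mul_of_pos_right _ hna
          omega
      _ = n ^ (a + 1) * (d + 1) := by ring
      _ ≤ n ^ (a + 1) * k0 ^ d := Nat.mul_le_mul_left _ h2
  set T := n ^ a * k0 ^ d with hT
  have hNT : N = n * T := by rw [hN, hT]; ring
  have hrow : ∀ (r : Fin n) (x : ℕ), x < T → (r : ℕ) * T + x < N := by
    intro r x hx
    have h1 : (r : ℕ) + 1 ≤ n := r.2
    have h2 : ((r : ℕ) + 1) * T ≤ n * T := Nat.mul_le_mul_right _ h1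
    rw [Nat.add_mul, one_mul] at h2
    omega
  -- number of 1-entries of row `r` in the first `m` columns
  set hh : Fin n → ℕ → ℕ := fun r m => (univ.filter (fun c : Fin n => (c : ℕ) < m ∧ M r c)).card
    with hhdef
  have hhle : ∀ r m, hh r m ≤ d := by
    intro r m
    refine le_trans (Finset.card_le_card ?_) (hd r)
    intro c hc
    rw [mem_filter] at hc ⊢
    exact ⟨hc.1, hc.2.2⟩
  -- the induction
  have key : ∀ m, m ≤ n → ∃ (g : ℕ → ℕ) (S : Fin n → Finset ℕ),
      (∀ c, c < m → st c ≤ g c ∧ g c < st (c + 1)) ∧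
      ∀ r, S r ⊆ range T ∧ n ^ a * k0 ^ (d - hh r m) ≤ (S r).card ∧
        ∀ c : Fin n, (c : ℕ) < m → M r c → ∀ x ∈ S r, χ ((r : ℕ) * T + x) (g c) = true := by
    intro m
    induction m with
    | zero =>
      intro _
      refine ⟨fun _ => 0, fun _ => range T, by simp, ?_⟩
      intro r
      refine ⟨Subset.rfl, ?_, by simp⟩
      have h0 : hh r 0 = 0 := by simp [hhdef]
      rw [h0, Nat.sub_zero, card_range, hT]
    | succ m ih =>
      intro hm
      obtain ⟨g, S, hg, hS⟩ := ih (by omega)
      set cm : Fin n := ⟨m, by omega⟩ with hcm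
      -- candidates
      set J : Finset ℕ := Finset.Ico (st m) (st (m + 1)) with hJ
      have hJcard : J.card = k m * (n ^ a - 1) + 1 := by
        rw [hJ, Nat.card_Ico, hst1]; omega
      by_cases hgood : ∃ j ∈ J, ∀ r, M r cm →
          n ^ a * k0 ^ (d - hh r m - 1) ≤ ((S r).filter (fun x => χ ((r : ℕ) * T + x) j = true)).card
      · obtain ⟨j, hj, hjr⟩ := hgood
        refine ⟨fun c => if c = m then j else g c,
          fun r => if M r cm then (S r).filter (fun x => χ ((r : ℕ) * T + x) j = true) else S r,
          ?_, ?_⟩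
        · intro c hc
          by_cases hcm' : c = m
          · subst hcm'
            simp only [if_true]
            rw [hJ, Finset.mem_Ico] at hj
            exact hj
          · simp only [hcm', if_false]
            exact hg c (by omega)
        · intro r
          obtain ⟨h1, h2, h3⟩ := hS r
          by_cases hMr : M r cm
          · simp only [hMr, if_true]
            have hhs : hh r (m + 1) = hh r m + 1 := by
              rw [hhdef]
              simp only
              rw [← Finset.card_insert_of_notMem (s := univ.filter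
                (fun c : Fin n => (c : ℕ) < m ∧ M r c)) (a := cm) (by simp [hcm])]
              congr 1
              ext c
              simp only [mem_filter, mem_univ, true_and, mem_insert]
              constructor
              · rintro ⟨h4, h5⟩
                rcases Nat.lt_succ_iff_lt_or_eq.mp h4 with h6 | h6
                · exact Or.inr ⟨h6, h5⟩
                · exact Or.inl (Fin.ext h6)
              · rintro (rfl | ⟨h4, h5⟩)
                · exact ⟨by simp [hcm], hMr⟩
                · exact ⟨by omega, h5⟩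
            refine ⟨(Finset.filter_subset _ _).trans h1, ?_, ?_⟩
            · rw [hhs, ← Nat.sub_sub]
              exact hjr r hMr
            · intro c hc hMc x hx
              rw [mem_filter] at hx
              by_cases hcm' : (c : ℕ) = m
              · simp only [hcm', if_true]
                exact hx.2
              · simp only [hcm', if_false]
                exact h3 c (by omega) hMc x hx.1
          · simp only [hMr, if_false]
            have hhs : hh r (m + 1) = hh r m := by
              rw [hhdef]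
              simp only
              congr 1
              ext c
              simp only [mem_filter, mem_univ, true_and]
              constructor
              · rintro ⟨h4, h5⟩
                rcases Nat.lt_succ_iff_lt_or_eq.mp h4 with h6 | h6
                · exact ⟨h6, h5⟩
                · exfalso
                  apply hMr
                  have : c = cm := Fin.ext h6
                  rw [← this]; exact h5
              · rintro ⟨h4, h5⟩
                exact ⟨by omega, h5⟩
            refine ⟨h1, ?_, ?_⟩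
            · rw [hhs]; exact h2
            · intro c hc hMc x hx
              by_cases hcm' : (c : ℕ) = m
              · exfalso
                apply hMr
                have : c = cm := Fin.ext hcm'
                rw [← this]; exact hMc
              · simp only [hcm', if_false]
                exact h3 c (by omega) hMc x hx
      · -- a big block of the other colour
        exfalso
        push Not at hgood
        have : Nonempty (Fin n) := ⟨cm⟩
        choose! ρ hρM hρ using hgood
        set A : Finset (Fin n) := univ.filter (fun r => M r cm) with hA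
        have hAk : A.card = k m := by
          rw [hA, hk]
          simp only
          congr 1
          ext r
          simp only [mem_filter, mem_univ, true_and]
          constructor
          · intro h; exact ⟨by omega, h⟩
          · rintro ⟨_, h⟩; exact h
        have hmaps : ∀ j ∈ J, ρ j ∈ A := by
          intro j hj
          rw [hA, mem_filter]
          exact ⟨mem_univ _, hρM j hj⟩
        obtain ⟨r, hrA, hrcard⟩ := Finset.exists_lt_card_fiber_of_mul_lt_card_of_maps_to
          (n := n ^ a - 1) hmaps (by rw [hAk, hJcard]; omega)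
        obtain ⟨Y, hYdef⟩ : ∃ Y, Y = J.filter (fun j => ρ j = r) := ⟨_, rfl⟩
        have hYcard : n ^ a ≤ Y.card := by rw [hYdef]; omega
        have hYsub : ∀ j ∈ Y, j ∈ J ∧ ρ j = r := by
          intro j hj
          rw [hYdef, mem_filter] at hj
          exact hj
        obtain ⟨h1, h2, h3⟩ := hS r
        have hMr : M r cm := by
          rw [hA, mem_filter] at hrA
          exact hrA.2
        have hhlt : hh r m < d := by
          have h4 : hh r m + 1 ≤ hh r (m + 1) := by
            rw [hhdef]
            simp only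
            rw [← Finset.card_insert_of_notMem (s := univ.filter
                (fun c : Fin n => (c : ℕ) < m ∧ M r c)) (a := cm) (by simp [hcm])]
            apply Finset.card_le_card
            intro c
            simp only [mem_filter, mem_univ, true_and, mem_insert]
            rintro (rfl | ⟨h4, h5⟩)
            · exact ⟨by simp [hcm], hMr⟩
            · exact ⟨by omega, h5⟩
          have := hhle r (m + 1)
          omega
        have hpow : n ^ a * k0 ^ (d - hh r m) = k0 * (n ^ a * k0 ^ (d - hh r m - 1)) := by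
          have h5 : d - hh r m = (d - hh r m - 1) + 1 := by omega
          conv_lhs => rw [h5]
          ring
        obtain ⟨W, hW⟩ : ∃ W : Set (ℕ × ℕ), W = {z | χ ((r : ℕ) * T + z.1) z.2 = true} := ⟨_, rfl⟩
        have hcardW : (W ∩ {z | z.1 ∈ S r ∧ z.2 ∈ Y}).ncard ≤
            Y.card * (n ^ a * k0 ^ (d - hh r m - 1)) := by
          have h5 : W ∩ {z | z.1 ∈ S r ∧ z.2 ∈ Y} ⊆ ((Y.biUnion (fun j =>
              ((S r).filter (fun x => χ ((r : ℕ) * T + x) j = true)).image (fun x => (x, j))) :
              Finset (ℕ × ℕ)) : Set (ℕ × ℕ)) := by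
            rintro ⟨x, j⟩ ⟨h6, h7, h8⟩
            rw [hW] at h6
            simp only [Set.mem_ofPred_eq] at h6 h7 h8
            simp only [coe_biUnion, Set.mem_iUnion, mem_coe, mem_image, mem_filter]
            exact ⟨j, h8, x, ⟨h7, h6⟩, rfl⟩
          calc (W ∩ {z | z.1 ∈ S r ∧ z.2 ∈ Y}).ncard ≤ (Y.biUnion (fun j =>
              ((S r).filter (fun x => χ ((r : ℕ) * T + x) j = true)).image (fun x => (x, j)))).card := by
                rw [← Set.ncard_coe_finset]
                exact Set.ncard_le_ncard h5 (Finset.finite_toSet _)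
            _ ≤ Y.card * (n ^ a * k0 ^ (d - hh r m - 1)) := by
                apply Finset.card_biUnion_le_card_mul
                intro j hj
                refine Finset.card_image_le.trans ?_
                have h6 := hρ j (hYsub j hj).1
                rw [(hYsub j hj).2] at h6
                exact h6.le
        obtain ⟨t, y, ht, hy, htS, hyY, hty⟩ := hF (S r) Y W (by
          refine le_trans ?_ h2
          exact Nat.le_mul_of_pos_right _ (Nat.pow_pos (by omega))) hYcard (by
          calc k0 * (W ∩ {z | z.1 ∈ S r ∧ z.2 ∈ Y}).ncard ≤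
                k0 * (Y.card * (n ^ a * k0 ^ (d - hh r m - 1))) := Nat.mul_le_mul_left _ hcardW
            _ = (k0 * (n ^ a * k0 ^ (d - hh r m - 1))) * Y.card := by ring
            _ ≤ (S r).card * Y.card := by
                rw [← hpow]
                exact Nat.mul_le_mul_right _ h2)
        apply hno
        refine ⟨false, fun i => (r : ℕ) * T + t i, y, ?_, hy, ?_, ?_, ?_⟩
        · intro i j hij
          have := ht hij
          simp only
          omega
        · intro i
          have h6 := h1 (htS i)
          rw [mem_range] at h6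
          exact hrow r _ h6
        · intro c
          have h5 := (hYsub _ (hyY c)).1
          rw [hJ, Finset.mem_Ico] at h5
          have h6 : st (m + 1) ≤ st n := hstmono hm
          exact lt_of_lt_of_le h5.2 (h6.trans hstn)
        · intro i c hic
          have h5 := hty i c hic
          rw [hW] at h5
          simp only [Set.mem_ofPred_eq] at h5
          simpa using h5
  obtain ⟨g, S, hg, hS⟩ := key n le_rfl
  have hne : ∀ r, (S r).Nonempty := by
    intro r
    rw [← Finset.card_pos]
    exact lt_of_lt_of_le (Nat.mul_pos (Nat.pow_pos hn) (Nat.pow_pos (by omega))) (hS r).2.1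
  choose x hx using hne
  apply hno
  refine ⟨true, fun r => (r : ℕ) * T + x r, fun c => g c, ?_, ?_, ?_, ?_, ?_⟩
  · intro a b hab
    have h1 : x a < T := mem_range.mp ((hS a).1 (hx a))
    have h2 : (a : ℕ) + 1 ≤ b := hab
    have h3 : ((a : ℕ) + 1) * T ≤ b * T := Nat.mul_le_mul_right _ h2
    rw [Nat.add_mul, one_mul] at h3
    simp only
    omega
  · intro a b hab
    have h1 := (hg a a.2).2
    have h2 := (hg b b.2).1
    have h3 : st ((a : ℕ) + 1) ≤ st b := hstmono hab
    simp only
    omega
  · intro r
    exact hrow r _ (mem_range.mp ((hS r).1 (hx r)))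
  · intro c
    have h1 := (hg c c.2).2
    have h2 : st ((c : ℕ) + 1) ≤ st n := hstmono c.2
    simp only
    omega
  · intro r c hM
    exact (hS r).2.2 c c.2 hM _ (hx r)


end Core

/-- enumeration of the 1-entries of the rows -/
theorem exists_lm {n d : ℕ} (M : Fin n → Fin n → Prop) (hd : ∀ r, {c | M r c}.ncard ≤ d) :
    ∃ lm : Fin d → Fin n → Fin n, ∀ r c, M r c → ∃ e, lm e r = c := by
  classical
  have h1 : ∀ r : Fin n, ∃ l : Fin d → Fin n, ∀ c, M r c → ∃ e, l e = c := by
    intro r
    obtain ⟨C, hC⟩ : ∃ C : Finset (Fin n), C = Finset.univ.filter (fun c => M r c) := ⟨_, rfl⟩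
    have hCd : C.card ≤ d := by
      have h2 := hd r
      rw [Set.ncard_eq_toFinset_card'] at h2
      refine le_trans (le_of_eq ?_) h2
      rw [hC]
      congr 1
      ext c
      simp
    refine ⟨fun e => if h : e.val < C.card then C.orderEmbOfFin rfl ⟨e.val, h⟩ else r, ?_⟩
    intro c hc
    have hcC : c ∈ C := by rw [hC]; simpa using hc
    have hcr : c ∈ Set.range (C.orderEmbOfFin rfl) := by
      rw [Finset.range_orderEmbOfFin]
      exact hcC
    obtain ⟨i, hi⟩ := hcr
    refine ⟨⟨i.val, lt_of_lt_of_le i.2 hCd⟩, ?_⟩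
    simp only [i.2, dif_pos]
    exact hi
  choose l hl using h1
  exact ⟨fun e r => l r e, fun r c h => hl r c h⟩

/-- For every `δ` there is `a` such that for all `d` and all large `n`,
`f_d(n) ≤ n ^ ((1/2 + δ) d + a)`. -/
theorem upper (δ : ℝ) (hδ : 0 < δ) (hδ2 : δ ≤ 1 / 2) : ∃ a : ℝ, ∀ d : ℕ, ∀ᶠ n : ℕ in atTop,
    (f d n : ℝ) ≤ (n : ℝ) ^ ((1 / 2 + δ) * d + a) := by
  obtain ⟨a, ha, hF⟩ := thmF δ hδ hδ2
  refine ⟨a + 2, fun d => ?_⟩
  obtain ⟨n0, hn0⟩ := hF d
  filter_upwards [eventually_ge_atTop n0, eventually_ge_atTop 2, eventually_ge_atTop (2 ^ d)]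
    with n hn hn2 hnd
  have hn1 : 1 ≤ n := by omega
  have hnR : (2 : ℝ) ≤ n := by exact_mod_cast hn2
  have hnR0 : (0 : ℝ) < n := by linarith
  have hnR1 : (1 : ℝ) ≤ n := by linarith
  obtain ⟨k0, hk0⟩ : ∃ k0 : ℕ, k0 = ⌈(n : ℝ) ^ (1 / 2 + δ)⌉₊ := ⟨_, rfl⟩
  have hkap : (1 : ℝ) < (n : ℝ) ^ (1 / 2 + δ) := Real.one_lt_rpow (by linarith) (by linarith)
  have hk1 : (n : ℝ) ^ (1 / 2 + δ) ≤ k0 := by rw [hk0]; exact Nat.le_ceil _
  have hk2 : 2 ≤ k0 := by
    have h1 : (1 : ℝ) < k0 := lt_of_lt_of_le hkap hk1
    have h2 : 1 < k0 := by exact_mod_cast h1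
    omega
  have hk3 : (k0 : ℝ) ≤ 2 * (n : ℝ) ^ (1 / 2 + δ) := by
    have h1 : (k0 : ℝ) < (n : ℝ) ^ (1 / 2 + δ) + 1 := by
      rw [hk0]
      exact Nat.ceil_lt_add_one (by positivity)
    linarith
  have hR : ∀ M : Fin n → Fin n → Prop, (∀ r, {c | M r c}.ncard ≤ d) →
      R M ≤ n ^ (a + 1) * k0 ^ d := by
    intro M hM
    apply Nat.sInf_le
    intro χ
    classical
    have hd' : ∀ r, (Finset.univ.filter (fun c => M r c)).card ≤ d := by
      intro r
      have h1 := hM r
      rw [Set.ncard_eq_toFinset_card'] at h1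
      convert h1 using 2
      ext c
      simp
    obtain ⟨lm, hlm⟩ := exists_lm M hM
    obtain ⟨b, f, g, hf, hg, hfN, hgN, hMf⟩ := core_thr (a := a) hn1 hk2 M hd' (by
      intro S T W hS hT hW
      obtain ⟨t, y, ht, hy, htS, hyT, hty⟩ := hn0 n hn lm S T hS hT W (by
        have h1 : ((k0 * (W ∩ {z | z.1 ∈ S ∧ z.2 ∈ T}).ncard : ℕ) : ℝ) ≤
            ((S.card * T.card : ℕ) : ℝ) := by exact_mod_cast hW
        push_cast at h1
        have h2 : (n : ℝ) ^ (1 / 2 + δ) * (W ∩ {z | z.1 ∈ S ∧ z.2 ∈ T}).ncard ≤
            (S.card : ℝ) * T.card :=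
          le_trans (mul_le_mul_of_nonneg_right hk1 (Nat.cast_nonneg _)) h1
        have h3 : (n : ℝ) ^ (-(1 / 2 + δ)) * ((n : ℝ) ^ (1 / 2 + δ) *
            (W ∩ {z | z.1 ∈ S ∧ z.2 ∈ T}).ncard) ≤ (n : ℝ) ^ (-(1 / 2 + δ)) *
            ((S.card : ℝ) * T.card) := mul_le_mul_of_nonneg_left h2 (by positivity)
        rw [← mul_assoc, ← Real.rpow_add hnR0, neg_add_cancel, Real.rpow_zero, one_mul] at h3
        exact h3)
      refine ⟨t, y, ht, hy, htS, hyT, ?_⟩
      intro i c hic
      obtain ⟨e, he⟩ := hlm i c hic
      rw [← he]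
      exact hty e i)
      (fun i j => if h : i < n ^ (a + 1) * k0 ^ d ∧ j < n ^ (a + 1) * k0 ^ d
        then χ ⟨i, h.1⟩ ⟨j, h.2⟩ else false) rfl
    refine ⟨b, fun r => ⟨f r, hfN r⟩, fun c => ⟨g c, hgN c⟩, fun a b hab => hf hab,
      fun a b hab => hg hab, ?_⟩
    intro r c hrc
    have := hMf r c hrc
    rw [dif_pos ⟨hfN r, hgN c⟩] at this
    exact this
  have hf : f d n ≤ n ^ (a + 1) * k0 ^ d := by
    unfold f
    apply csSup_le
    · refine ⟨R (fun _ _ : Fin n => False), fun _ _ => False, ?_, rfl⟩
      intro r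
      simp
    · rintro m ⟨M, hM, rfl⟩
      exact hR M hM
  calc (f d n : ℝ) ≤ ((n ^ (a + 1) * k0 ^ d : ℕ) : ℝ) := by exact_mod_cast hf
    _ = (n : ℝ) ^ (a + 1) * (k0 : ℝ) ^ d := by push_cast; ring
    _ ≤ (n : ℝ) ^ (a + 1) * (2 * (n : ℝ) ^ (1 / 2 + δ)) ^ d := by
        apply mul_le_mul_of_nonneg_left _ (by positivity)
        exact pow_le_pow_left₀ (Nat.cast_nonneg _) hk3 d
    _ = (2 : ℝ) ^ d * ((n : ℝ) ^ ((a : ℝ) + 1) * (n : ℝ) ^ ((1 / 2 + δ) * d)) := by
        rw [mul_pow, ← Real.rpow_natCast ((n : ℝ) ^ (1 / 2 + δ)) d, ← Real.rpow_mul hnR0.le]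
        have h1 : (n : ℝ) ^ (a + 1) = (n : ℝ) ^ ((a : ℝ) + 1) := by
          rw [← Real.rpow_natCast]
          push_cast
          rfl
        rw [h1]
        ring
    _ ≤ (n : ℝ) ^ (1 : ℝ) * ((n : ℝ) ^ ((a : ℝ) + 1) * (n : ℝ) ^ ((1 / 2 + δ) * d)) := by
        apply mul_le_mul_of_nonneg_right _ (by positivity)
        rw [Real.rpow_one]
        exact_mod_cast hnd
    _ = (n : ℝ) ^ ((1 / 2 + δ) * d + (a + 2)) := by
        rw [← Real.rpow_add hnR0, ← Real.rpow_add hnR0]
        congr 1
        ring

end Pool.Agent.H69.FK
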