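import Pool.Agent.H69.FK.Basic

/-! Module ROUND. The rounding lemma (Rosenthal's inequality for nonnegative variables, plus
Markov conditioning on at most three quantities). Proof by the method of conditional
expectations with the potential `∑ (s_k + 2^L b_k)^(L+1)`. -/

namespace Pool.Agent.H69.FK

open Finset

/-- the elementary inequality behind Rosenthal's bound -/
theorem round_pow_add_le (L : ℕ) {x T : ℝ} (hx : 0 ≤ x) (hT : 0 ≤ T) :
    (x + T) ^ (L + 1) ≤ x ^ (L + 1) + (L + 1) * 2 ^ L * (T * x ^ L + T ^ (L + 1)) := by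
  have h1 : (x + T) ^ (L + 1) - x ^ (L + 1) ≤ (L + 1) * T * (x + T) ^ L := by
    induction L with
    | zero => simp
    | succ n ih =>
      have e1 : (x + T) ^ (n + 1 + 1) - x ^ (n + 1 + 1)
          = (x + T) * ((x + T) ^ (n + 1) - x ^ (n + 1)) + T * x ^ (n + 1) := by ring
      have e2 : x ^ (n + 1) ≤ (x + T) ^ (n + 1) := pow_le_pow_left₀ hx (by linarith) _
      have e3 : (x + T) * ((x + T) ^ (n + 1) - x ^ (n + 1))
          ≤ (x + T) * ((n + 1) * T * (x + T) ^ n) :=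
        mul_le_mul_of_nonneg_left ih (by linarith)
      have e4 : T * x ^ (n + 1) ≤ T * (x + T) ^ (n + 1) := mul_le_mul_of_nonneg_left e2 hT
      rw [e1]
      push_cast
      calc _ ≤ (x + T) * ((n + 1) * T * (x + T) ^ n) + T * (x + T) ^ (n + 1) := add_le_add e3 e4
        _ = (↑n + 1 + 1) * T * (x + T) ^ (n + 1) := by ring
  have h2 : (x + T) ^ L ≤ 2 ^ L * (x ^ L + T ^ L) := by
    have hm : x + T ≤ 2 * max x T := by
      have := le_max_left x T
      have := le_max_right x T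
      linarith
    have hm0 : 0 ≤ max x T := le_max_of_le_left hx
    have : (x + T) ^ L ≤ (2 * max x T) ^ L := pow_le_pow_left₀ (by linarith) hm _
    have h3 : (max x T) ^ L ≤ x ^ L + T ^ L := by
      rcases max_cases x T with h | h
      · rw [h.1]
        have := pow_nonneg hT L
        linarith
      · rw [h.1]
        have := pow_nonneg hx L
        linarith
    calc _ ≤ (2 * max x T) ^ L := this
      _ = 2 ^ L * (max x T) ^ L := by ring
      _ ≤ _ := mul_le_mul_of_nonneg_left h3 (by positivity)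
  have h4 : (L + 1 : ℝ) * T * (x + T) ^ L ≤ (L + 1) * T * (2 ^ L * (x ^ L + T ^ L)) :=
    mul_le_mul_of_nonneg_left h2 (by positivity)
  have h5 : (L + 1 : ℝ) * T * (2 ^ L * (x ^ L + T ^ L))
      = (L + 1) * 2 ^ L * (T * x ^ L + T ^ (L + 1)) := by ring
  linarith

/-- lower bound for powers -/
theorem round_pow_add_ge (L : ℕ) {x y : ℝ} (hx : 0 ≤ x) (hy : 0 ≤ y) :
    x ^ (L + 1) + (L + 1) * y * x ^ L ≤ (x + y) ^ (L + 1) := by
  induction L with
  | zero => simp
  | succ n ih =>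
    have e1 : (x + y) ^ (n + 1 + 1) = (x + y) * (x + y) ^ (n + 1) := by ring
    have e2 : (x + y) * (x ^ (n + 1) + (n + 1) * y * x ^ n) ≤ (x + y) * (x + y) ^ (n + 1) :=
      mul_le_mul_of_nonneg_left ih (by linarith)
    have e3 : (x + y) * (x ^ (n + 1) + (n + 1) * y * x ^ n)
        = x ^ (n + 1 + 1) + (↑n + 1 + 1) * y * x ^ (n + 1) + (n + 1) * (y * y) * x ^ n := by ring
    have e4 : 0 ≤ (n + 1 : ℝ) * (y * y) * x ^ n := by positivity
    push_cast
    rw [e1]
    linarith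

/-- one choice -/
theorem round_step {κ Ω : Type} (K : Finset κ) (L : ℕ) (G : Finset Ω) (p : Ω → ℝ)
    (hp : ∀ w, 0 ≤ p w) (hG : 0 < ∑ w ∈ G, p w)
    (T : κ → Ω → ℝ) (hT : ∀ k w, 0 ≤ T k w) (x e : κ → ℝ) (hx : ∀ k, 0 ≤ x k)
    (he : ∀ k ∈ K, ∑ w ∈ G, p w * T k w ≤ (∑ w ∈ G, p w) * e k) (β : ℝ)
    (hβ : ∀ w ∈ G, ∑ k ∈ K, (T k w) ^ (L + 1) ≤ β) :
    ∃ w ∈ G, ∑ k ∈ K, (x k + T k w) ^ (L + 1)
      ≤ ∑ k ∈ K, (x k + 2 ^ L * e k) ^ (L + 1) + (L + 1) * 2 ^ L * β := by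
  by_contra hcon
  push Not at hcon
  set P : ℝ := ∑ w ∈ G, p w with hP
  have h1 : ∑ w ∈ G, p w * ∑ k ∈ K, (x k + T k w) ^ (L + 1)
      ≤ P * (∑ k ∈ K, (x k + 2 ^ L * e k) ^ (L + 1) + (L + 1) * 2 ^ L * β) := by
    have h2 : ∀ w ∈ G, p w * ∑ k ∈ K, (x k + T k w) ^ (L + 1)
        ≤ p w * (∑ k ∈ K, (x k ^ (L + 1) + (L + 1) * 2 ^ L * (T k w * x k ^ L))
          + (L + 1) * 2 ^ L * β) := by
      intro w hw
      apply mul_le_mul_of_nonneg_left _ (hp w)
      have h3 : ∑ k ∈ K, (x k + T k w) ^ (L + 1)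
          ≤ ∑ k ∈ K, (x k ^ (L + 1) + (L + 1) * 2 ^ L * (T k w * x k ^ L + T k w ^ (L + 1))) :=
        Finset.sum_le_sum (fun k _ => round_pow_add_le L (hx k) (hT k w))
      have h4 : ∑ k ∈ K, (x k ^ (L + 1) + (L + 1) * 2 ^ L * (T k w * x k ^ L + T k w ^ (L + 1)))
          = ∑ k ∈ K, (x k ^ (L + 1) + (L + 1) * 2 ^ L * (T k w * x k ^ L))
            + (L + 1) * 2 ^ L * ∑ k ∈ K, T k w ^ (L + 1) := by
        rw [Finset.mul_sum, ← Finset.sum_add_distrib]
        apply Finset.sum_congr rfl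
        intro k _
        ring
      have h5 : (L + 1 : ℝ) * 2 ^ L * ∑ k ∈ K, T k w ^ (L + 1) ≤ (L + 1) * 2 ^ L * β :=
        mul_le_mul_of_nonneg_left (hβ w hw) (by positivity)
      linarith
    have h6 : ∑ w ∈ G, p w * (∑ k ∈ K, (x k ^ (L + 1) + (L + 1) * 2 ^ L * (T k w * x k ^ L))
          + (L + 1) * 2 ^ L * β)
        = ∑ k ∈ K, (P * x k ^ (L + 1) + (L + 1) * 2 ^ L * ((∑ w ∈ G, p w * T k w) * x k ^ L))
          + P * ((L + 1) * 2 ^ L * β) := by
      have e1 : ∀ w, p w * (∑ k ∈ K, (x k ^ (L + 1) + (L + 1) * 2 ^ L * (T k w * x k ^ L))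
          + (L + 1) * 2 ^ L * β)
          = ∑ k ∈ K, (p w * x k ^ (L + 1) + (L + 1) * 2 ^ L * (p w * T k w * x k ^ L))
            + p w * ((L + 1) * 2 ^ L * β) := by
        intro w
        rw [mul_add, Finset.mul_sum]
        congr 1
        apply Finset.sum_congr rfl
        intro k _
        ring
      rw [Finset.sum_congr rfl (fun w _ => e1 w), Finset.sum_add_distrib, Finset.sum_comm,
        ← Finset.sum_mul]
      congr 1
      apply Finset.sum_congr rfl
      intro k _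
      rw [Finset.sum_add_distrib, ← Finset.sum_mul, ← Finset.mul_sum, ← Finset.sum_mul]
    have h7 : ∀ k ∈ K, P * x k ^ (L + 1)
          + (L + 1) * 2 ^ L * ((∑ w ∈ G, p w * T k w) * x k ^ L)
        ≤ P * (x k + 2 ^ L * e k) ^ (L + 1) := by
      intro k hk
      have he0 : 0 ≤ e k := by
        have h8 : 0 ≤ P * e k :=
          le_trans (Finset.sum_nonneg (fun w _ => mul_nonneg (hp w) (hT k w))) (he k hk)
        by_contra hneg
        push Not at hneg
        have := mul_neg_of_pos_of_neg hG hneg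
        linarith
      have h8 := round_pow_add_ge L (hx k) (y := 2 ^ L * e k) (by positivity)
      have h9 : (∑ w ∈ G, p w * T k w) * x k ^ L ≤ P * e k * x k ^ L :=
        mul_le_mul_of_nonneg_right (he k hk) (pow_nonneg (hx k) _)
      have h10 : (L + 1 : ℝ) * 2 ^ L * ((∑ w ∈ G, p w * T k w) * x k ^ L)
          ≤ (L + 1) * 2 ^ L * (P * e k * x k ^ L) :=
        mul_le_mul_of_nonneg_left h9 (by positivity)
      have h11 : P * (x k ^ (L + 1) + (L + 1) * (2 ^ L * e k) * x k ^ L)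
          ≤ P * (x k + 2 ^ L * e k) ^ (L + 1) :=
        mul_le_mul_of_nonneg_left h8 hG.le
      calc _ ≤ P * x k ^ (L + 1) + (L + 1) * 2 ^ L * (P * e k * x k ^ L) := by linarith
        _ = P * (x k ^ (L + 1) + (L + 1) * (2 ^ L * e k) * x k ^ L) := by ring
        _ ≤ _ := h11
    calc _ ≤ ∑ w ∈ G, p w * (∑ k ∈ K, (x k ^ (L + 1) + (L + 1) * 2 ^ L * (T k w * x k ^ L))
          + (L + 1) * 2 ^ L * β) := Finset.sum_le_sum h2
      _ = _ := h6
      _ ≤ ∑ k ∈ K, P * (x k + 2 ^ L * e k) ^ (L + 1) + P * ((L + 1) * 2 ^ L * β) := by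
          have := Finset.sum_le_sum (s := K) h7
          linarith
      _ = _ := by rw [← Finset.mul_sum]; ring
  obtain ⟨w0, hw0, hpos⟩ : ∃ w ∈ G, 0 < p w := by
    by_contra hno
    push Not at hno
    have : ∑ w ∈ G, p w ≤ 0 := Finset.sum_nonpos hno
    linarith
  have h12 : ∑ w ∈ G, p w * (∑ k ∈ K, (x k + 2 ^ L * e k) ^ (L + 1) + (L + 1) * 2 ^ L * β)
      < ∑ w ∈ G, p w * ∑ k ∈ K, (x k + T k w) ^ (L + 1) := by
    apply Finset.sum_lt_sum
    · intro w hw
      exact mul_le_mul_of_nonneg_left (hcon w hw).le (hp w)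
    · exact ⟨w0, hw0, mul_lt_mul_of_pos_left (hcon w0 hw0) hpos⟩
  rw [← Finset.sum_mul] at h12
  linarith

/-- Markov: the good event has probability at least 5/8 -/
theorem round_good {Ω : Type} (μ : FP Ω) (Z : Fin 3 → Ω → ℝ) (hZ : ∀ r w, 0 ≤ Z r w)
    (z : Fin 3 → ℝ) (hz : ∀ r, μ.E (Z r) ≤ z r) [DecidablePred (fun w => ∀ r, Z r w ≤ 8 * z r)] :
    5 / 8 ≤ ∑ w ∈ μ.S.filter (fun w => ∀ r, Z r w ≤ 8 * z r), μ.p w := by
  classical
  have hbad : ∀ r, ∑ w ∈ μ.S.filter (fun w => 8 * z r < Z r w), μ.p w ≤ 1 / 8 := by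
    intro r
    have hsum : ∑ w ∈ μ.S, μ.p w * Z r w ≤ z r := hz r
    have hnn : ∀ w, 0 ≤ μ.p w * Z r w := fun w => mul_nonneg (μ.nn w) (hZ r w)
    have hz0 : 0 ≤ z r := le_trans (Finset.sum_nonneg (fun w _ => hnn w)) hsum
    have h2 : ∑ w ∈ μ.S.filter (fun w => 8 * z r < Z r w), μ.p w * Z r w
        ≤ ∑ w ∈ μ.S, μ.p w * Z r w :=
      Finset.sum_le_sum_of_subset_of_nonneg (Finset.filter_subset _ _) (fun w _ _ => hnn w)
    rcases hz0.lt_or_eq with hpos | hzero
    · have h1 : (∑ w ∈ μ.S.filter (fun w => 8 * z r < Z r w), μ.p w) * (8 * z r)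
          ≤ ∑ w ∈ μ.S.filter (fun w => 8 * z r < Z r w), μ.p w * Z r w := by
        rw [Finset.sum_mul]
        apply Finset.sum_le_sum
        intro w hw
        exact mul_le_mul_of_nonneg_left (Finset.mem_filter.mp hw).2.le (μ.nn w)
      have h3 : (∑ w ∈ μ.S.filter (fun w => 8 * z r < Z r w), μ.p w) * (8 * z r)
          ≤ (1 / 8) * (8 * z r) := by linarith
      exact le_of_mul_le_mul_right h3 (by linarith)
    · have h0 : ∑ w ∈ μ.S.filter (fun w => 8 * z r < Z r w), μ.p w = 0 := by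
        apply Finset.sum_eq_zero
        intro w hw
        rw [Finset.mem_filter, ← hzero] at hw
        have h4 : μ.p w * Z r w ≤ ∑ w ∈ μ.S, μ.p w * Z r w :=
          Finset.single_le_sum (fun w _ => hnn w) hw.1
        have h5 : μ.p w * Z r w ≤ 0 := by linarith
        have h6 : 0 < Z r w := by
          have := hw.2
          linarith
        have h7 : μ.p w ≤ 0 := by
          by_contra hneg
          push Not at hneg
          have := mul_pos hneg h6
          linarith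
        exact le_antisymm h7 (μ.nn w)
      rw [h0]
      norm_num
  have h1 : ∑ w ∈ μ.S, μ.p w ≤ ∑ w ∈ μ.S.filter (fun w => ∀ r, Z r w ≤ 8 * z r), μ.p w
      + ∑ r : Fin 3, ∑ w ∈ μ.S.filter (fun w => 8 * z r < Z r w), μ.p w := by
    have h2 : ∀ w ∈ μ.S, μ.p w ≤ (if ∀ r, Z r w ≤ 8 * z r then μ.p w else 0)
        + ∑ r : Fin 3, (if 8 * z r < Z r w then μ.p w else 0) := by
      intro w _
      have hnn : ∀ r : Fin 3, 0 ≤ (if 8 * z r < Z r w then μ.p w else 0) := by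
        intro r
        split_ifs
        · exact μ.nn w
        · exact le_rfl
      by_cases h : ∀ r, Z r w ≤ 8 * z r
      · rw [if_pos h]
        have := Finset.sum_nonneg (s := (univ : Finset (Fin 3))) (fun r _ => hnn r)
        linarith
      · rw [if_neg h]
        have h' := h
        push Not at h'
        obtain ⟨r, hr⟩ := h'
        have h3 := Finset.single_le_sum (s := (univ : Finset (Fin 3))) (fun r _ => hnn r)
          (Finset.mem_univ r)
        simp only [if_pos hr] at h3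
        linarith
    calc ∑ w ∈ μ.S, μ.p w ≤ ∑ w ∈ μ.S, ((if ∀ r, Z r w ≤ 8 * z r then μ.p w else 0)
        + ∑ r : Fin 3, (if 8 * z r < Z r w then μ.p w else 0)) := Finset.sum_le_sum h2
      _ = _ := by
        rw [Finset.sum_add_distrib, Finset.sum_comm, Finset.sum_filter]
        congr 1
        apply Finset.sum_congr rfl
        intro r _
        rw [Finset.sum_filter]
  rw [μ.one] at h1
  have h5 : ∑ r : Fin 3, ∑ w ∈ μ.S.filter (fun w => 8 * z r < Z r w), μ.p w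
      ≤ ∑ _r : Fin 3, (1 / 8 : ℝ) := Finset.sum_le_sum (fun r _ => hbad r)
  simp only [Finset.sum_const, Finset.card_univ, Fintype.card_fin, nsmul_eq_mul] at h5
  norm_num at h5
  linarith

theorem rounding (lam : ℕ) (hlam : 1 ≤ lam) : ∃ C : ℝ, 1 ≤ C ∧
    ∀ {ι κ Ω : Type} (I : Finset ι) (K : Finset κ) (μ : ι → FP Ω) (T : ι → κ → Ω → ℝ)
      (Z : ι → Fin 3 → Ω → ℝ) (a : κ → ℝ) (z : ι → Fin 3 → ℝ) (β : ι → ℝ),
      (∀ i k w, 0 ≤ T i k w) → (∀ i r w, 0 ≤ Z i r w) →
      (∀ k ∈ K, ∑ i ∈ I, (μ i).E (T i k) ≤ a k) →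
      (∀ i ∈ I, ∀ r, (μ i).E (Z i r) ≤ z i r) →
      (∀ i ∈ I, ∀ w ∈ (μ i).S, (∀ r, Z i r w ≤ 8 * z i r) → ∑ k ∈ K, (T i k w) ^ lam ≤ β i) →
      ∃ w : ι → Ω, (∀ i, w i ∈ (μ i).S) ∧ (∀ i ∈ I, ∀ r, Z i r (w i) ≤ 8 * z i r) ∧
        ∑ k ∈ K, (∑ i ∈ I, T i k (w i)) ^ lam ≤ C * (∑ k ∈ K, (a k) ^ lam + ∑ i ∈ I, β i) := by
  classical
  obtain ⟨L, rfl⟩ : ∃ L, lam = L + 1 := ⟨lam - 1, by omega⟩
  refine ⟨(2 * 2 ^ L) ^ (L + 1) + (L + 1) * 2 ^ L, ?_, ?_⟩
  · have h1 : (1 : ℝ) ≤ 2 ^ L := one_le_pow₀ (by norm_num)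
    have h2 : (1 : ℝ) ≤ (2 * 2 ^ L) ^ (L + 1) := one_le_pow₀ (by linarith)
    have h3 : (0 : ℝ) ≤ (L + 1) * 2 ^ L := by positivity
    linarith
  intro ι κ Ω I K μ T Z a z β hT hZ ha hz hβ
  let G : ι → Finset Ω := fun i => (μ i).S.filter (fun w => ∀ r, Z i r w ≤ 8 * z i r)
  have hGmem : ∀ i w, w ∈ G i ↔ w ∈ (μ i).S ∧ ∀ r, Z i r w ≤ 8 * z i r := by
    intro i w
    simp only [G, Finset.mem_filter]
  have hGc : ∀ i ∈ I, 5 / 8 ≤ ∑ w ∈ G i, (μ i).p w := fun i hi =>
    round_good (μ i) (Z i) (hZ i) (z i) (hz i hi)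
  have hE0 : ∀ i k, 0 ≤ (μ i).E (T i k) := fun i k =>
    Finset.sum_nonneg (fun w _ => mul_nonneg ((μ i).nn w) (hT i k w))
  have hS : ∀ i, (μ i).S.Nonempty := by
    intro i
    by_contra hne
    rw [Finset.not_nonempty_iff_eq_empty] at hne
    have := (μ i).one
    rw [hne] at this
    simp at this
  let e : ι → κ → ℝ := fun i k => (8 / 5) * (μ i).E (T i k)
  have he0 : ∀ i k, 0 ≤ e i k := fun i k => by
    have := hE0 i k
    simp only [e]
    linarith
  have he : ∀ i ∈ I, ∀ k ∈ K, ∑ w ∈ G i, (μ i).p w * T i k w ≤ (∑ w ∈ G i, (μ i).p w) * e i k := by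
    intro i hi k _
    have h2 : ∑ w ∈ G i, (μ i).p w * T i k w ≤ (μ i).E (T i k) :=
      Finset.sum_le_sum_of_subset_of_nonneg (Finset.filter_subset _ _)
        (fun w _ _ => mul_nonneg ((μ i).nn w) (hT i k w))
    have h4 : 5 / 8 * e i k ≤ (∑ w ∈ G i, (μ i).p w) * e i k :=
      mul_le_mul_of_nonneg_right (hGc i hi) (he0 i k)
    simp only [e] at h4 ⊢
    linarith
  have hβ0 : ∀ i ∈ I, 0 ≤ β i := by
    intro i hi
    have h1 := hGc i hi
    have hne : (G i).Nonempty := by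
      by_contra hne
      rw [Finset.not_nonempty_iff_eq_empty] at hne
      rw [hne] at h1
      simp at h1
      linarith
    obtain ⟨w, hw⟩ := hne
    rw [hGmem] at hw
    refine le_trans ?_ (hβ i hi w hw.1 hw.2)
    exact Finset.sum_nonneg (fun k _ => pow_nonneg (hT i k w) _)
  have key : ∀ s : Finset ι, s ⊆ I → ∃ w : ι → Ω, (∀ i, w i ∈ (μ i).S) ∧ (∀ i ∈ s, w i ∈ G i) ∧
      ∑ k ∈ K, (∑ i ∈ s, T i k (w i) + 2 ^ L * ∑ i ∈ I \ s, e i k) ^ (L + 1)
        ≤ ∑ k ∈ K, (2 ^ L * ∑ i ∈ I, e i k) ^ (L + 1) + (L + 1) * 2 ^ L * ∑ i ∈ s, β i := by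
    intro s
    induction s using Finset.induction_on with
    | empty =>
      intro _
      refine ⟨fun i => (hS i).choose, fun i => (hS i).choose_spec, by simp, ?_⟩
      simp
    | insert j s hj ih =>
      intro hsub
      have hjI : j ∈ I := hsub (Finset.mem_insert_self j s)
      obtain ⟨w, hw0, hw1, hw2⟩ := ih (fun i hi => hsub (Finset.mem_insert_of_mem hi))
      have hx : ∀ k, 0 ≤ ∑ i ∈ s, T i k (w i) + 2 ^ L * ∑ i ∈ I \ (insert j s), e i k := by
        intro k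
        have h1 : 0 ≤ ∑ i ∈ s, T i k (w i) := Finset.sum_nonneg (fun i _ => hT i k (w i))
        have h2 : 0 ≤ ∑ i ∈ I \ (insert j s), e i k := Finset.sum_nonneg (fun i _ => he0 i k)
        positivity
      have hGj : 0 < ∑ w ∈ G j, (μ j).p w := by
        have := hGc j hjI
        linarith
      obtain ⟨v, hv, hle⟩ := round_step K L (G j) (μ j).p (μ j).nn hGj (T j) (hT j)
        (fun k => ∑ i ∈ s, T i k (w i) + 2 ^ L * ∑ i ∈ I \ (insert j s), e i k) (e j) hx
        (he j hjI) (β j) (fun v hv => hβ j hjI v ((hGmem j v).mp hv).1 ((hGmem j v).mp hv).2)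
      have hne : ∀ i ∈ s, i ≠ j := fun i hi h => hj (h ▸ hi)
      refine ⟨Function.update w j v, ?_, ?_, ?_⟩
      · intro i
        by_cases h : i = j
        · subst h
          rw [Function.update_self]
          exact ((hGmem i v).mp hv).1
        · rw [Function.update_of_ne h]
          exact hw0 i
      · intro i hi
        rcases Finset.mem_insert.mp hi with h | h
        · subst h
          simpa using hv
        · rw [Function.update_of_ne (hne i h)]
          exact hw1 i h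
      · have e1 : ∀ k, ∑ i ∈ insert j s, T i k (Function.update w j v i)
            = T j k v + ∑ i ∈ s, T i k (w i) := by
          intro k
          rw [Finset.sum_insert hj]
          congr 1
          · simp
          · apply Finset.sum_congr rfl
            intro i hi
            rw [Function.update_of_ne (hne i hi)]
        have e2 : ∀ k, ∑ i ∈ I \ s, e i k = e j k + ∑ i ∈ I \ (insert j s), e i k := by
          intro k
          have h3 : I \ s = insert j (I \ (insert j s)) := by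
            ext i
            simp only [Finset.mem_sdiff, Finset.mem_insert]
            constructor
            · rintro ⟨h, h'⟩
              by_cases hij : i = j
              · exact Or.inl hij
              · exact Or.inr ⟨h, fun h'' => h''.elim hij h'⟩
            · rintro (h | h)
              · subst h
                exact ⟨hjI, hj⟩
              · exact ⟨h.1, fun h' => h.2 (Or.inr h')⟩
          rw [h3, Finset.sum_insert (by simp)]
        have e3 : ∑ k ∈ K, (∑ i ∈ insert j s, T i k (Function.update w j v i)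
              + 2 ^ L * ∑ i ∈ I \ (insert j s), e i k) ^ (L + 1)
            = ∑ k ∈ K, ((∑ i ∈ s, T i k (w i) + 2 ^ L * ∑ i ∈ I \ (insert j s), e i k)
              + T j k v) ^ (L + 1) := by
          apply Finset.sum_congr rfl
          intro k _
          rw [e1]
          congr 1
          ring
        have e4 : ∑ k ∈ K, ((∑ i ∈ s, T i k (w i) + 2 ^ L * ∑ i ∈ I \ (insert j s), e i k)
              + 2 ^ L * e j k) ^ (L + 1)
            = ∑ k ∈ K, (∑ i ∈ s, T i k (w i) + 2 ^ L * ∑ i ∈ I \ s, e i k) ^ (L + 1) := by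
          apply Finset.sum_congr rfl
          intro k _
          rw [e2]
          congr 1
          ring
        rw [e3, Finset.sum_insert hj]
        rw [e4] at hle
        have e5 : (L + 1 : ℝ) * 2 ^ L * (β j + ∑ i ∈ s, β i)
            = (L + 1) * 2 ^ L * β j + (L + 1) * 2 ^ L * ∑ i ∈ s, β i := by ring
        rw [e5]
        linarith
  obtain ⟨w, hw0, hw1, hw2⟩ := key I (Finset.Subset.refl I)
  refine ⟨w, hw0, fun i hi => ((hGmem i (w i)).mp (hw1 i hi)).2, ?_⟩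
  have h1 : ∑ k ∈ K, (∑ i ∈ I, T i k (w i) + 2 ^ L * ∑ i ∈ I \ I, e i k) ^ (L + 1)
      = ∑ k ∈ K, (∑ i ∈ I, T i k (w i)) ^ (L + 1) := by simp
  rw [h1] at hw2
  have h2 : ∑ k ∈ K, (2 ^ L * ∑ i ∈ I, e i k) ^ (L + 1)
      ≤ (2 * 2 ^ L) ^ (L + 1) * ∑ k ∈ K, (a k) ^ (L + 1) := by
    rw [Finset.mul_sum]
    apply Finset.sum_le_sum
    intro k hk
    rw [← mul_pow]
    apply pow_le_pow_left₀
    · have : 0 ≤ ∑ i ∈ I, e i k := Finset.sum_nonneg (fun i _ => he0 i k)
      positivity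
    · have h3 : ∑ i ∈ I, e i k = 8 / 5 * ∑ i ∈ I, (μ i).E (T i k) := by
        rw [Finset.mul_sum]
      have h4 : 0 ≤ ∑ i ∈ I, (μ i).E (T i k) := Finset.sum_nonneg (fun i _ => hE0 i k)
      have h5 : ∑ i ∈ I, e i k ≤ 2 * a k := by
        rw [h3]
        have := ha k hk
        linarith
      calc (2 : ℝ) ^ L * ∑ i ∈ I, e i k ≤ 2 ^ L * (2 * a k) :=
            mul_le_mul_of_nonneg_left h5 (by positivity)
        _ = 2 * 2 ^ L * a k := by ring
  have hA : 0 ≤ ∑ k ∈ K, (a k) ^ (L + 1) := by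
    apply Finset.sum_nonneg
    intro k hk
    apply pow_nonneg
    exact le_trans (Finset.sum_nonneg (fun i _ => hE0 i k)) (ha k hk)
  have hB : 0 ≤ ∑ i ∈ I, β i := Finset.sum_nonneg hβ0
  have h6 : ((2 * 2 ^ L) ^ (L + 1) + (L + 1) * 2 ^ L) * (∑ k ∈ K, (a k) ^ (L + 1) + ∑ i ∈ I, β i)
      = (2 * 2 ^ L) ^ (L + 1) * ∑ k ∈ K, (a k) ^ (L + 1) + (L + 1) * 2 ^ L * ∑ i ∈ I, β i
        + ((L + 1) * 2 ^ L * ∑ k ∈ K, (a k) ^ (L + 1)
          + (2 * 2 ^ L) ^ (L + 1) * ∑ i ∈ I, β i) := by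
    ring
  have h7 : 0 ≤ (L + 1 : ℝ) * 2 ^ L * ∑ k ∈ K, (a k) ^ (L + 1) := by positivity
  have h8 : 0 ≤ (2 * 2 ^ L : ℝ) ^ (L + 1) * ∑ i ∈ I, β i := by positivity
  rw [h6]
  linarith

end Pool.Agent.H69.FK
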