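import Pool.Agent.H69.FK.Ctx
import Pool.Agent.H69.FK.Round

/-! Module STAGE 1 (rows). -/

namespace Pool.Agent.H69.FK

open Finset

namespace S1

/-- `∑ x_i ^ (n+1) ≤ (∑ x_i) ^ (n+1)` -/
lemma sum_pow_le {ι : Type} (s : Finset ι) (x : ι → ℝ) (hx : ∀ i ∈ s, 0 ≤ x i) {n : ℕ}
    (hn : 1 ≤ n) : ∑ i ∈ s, x i ^ n ≤ (∑ i ∈ s, x i) ^ n := by
  obtain ⟨k, rfl⟩ : ∃ k, n = k + 1 := ⟨n - 1, by omega⟩
  have h1 : ∀ i ∈ s, x i ^ (k + 1) ≤ (∑ i ∈ s, x i) ^ k * x i := by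
    intro i hi
    rw [pow_succ]
    refine mul_le_mul_of_nonneg_right ?_ (hx i hi)
    exact pow_le_pow_left₀ (hx i hi) (Finset.single_le_sum hx hi) k
  calc ∑ i ∈ s, x i ^ (k + 1) ≤ ∑ i ∈ s, (∑ i ∈ s, x i) ^ k * x i := Finset.sum_le_sum h1
    _ = (∑ i ∈ s, x i) ^ (k + 1) := by rw [← Finset.mul_sum, pow_succ]

lemma E_mono {Ω : Type} (μ : FP Ω) {f g : Ω → ℝ} (h : ∀ w, f w ≤ g w) : μ.E f ≤ μ.E g :=
  Finset.sum_le_sum fun w _ => mul_le_mul_of_nonneg_left (h w) (μ.nn w)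

lemma E_sum {Ω ι : Type} (μ : FP Ω) (s : Finset ι) (f : ι → Ω → ℝ) :
    μ.E (fun w => ∑ i ∈ s, f i w) = ∑ i ∈ s, μ.E (f i) := by
  unfold FP.E
  rw [Finset.sum_comm]
  exact Finset.sum_congr rfl fun w _ => Finset.mul_sum _ _ _

lemma E_mul {Ω : Type} (μ : FP Ω) (c : ℝ) (f : Ω → ℝ) : μ.E (fun w => c * f w) = c * μ.E f := by
  unfold FP.E
  rw [Finset.mul_sum]
  exact Finset.sum_congr rfl fun w _ => by ring

lemma E_zero {Ω : Type} (μ : FP Ω) : μ.E (fun _ => (0 : ℝ)) = 0 := by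
  unfold FP.E
  exact Finset.sum_eq_zero fun w _ => mul_zero _

lemma E_lin {Ω : Type} (μ : FP Ω) (M : (Nd → ℝ) →ₗ[ℝ] ℝ) (F : Ω → Nd → ℝ) :
    μ.E (fun w => M (F w)) = M (fun c => μ.E (fun w => F w c)) := by
  have h1 : (fun c => μ.E (fun w => F w c)) = ∑ w ∈ μ.S, μ.p w • F w := by
    funext c
    unfold FP.E
    rw [Finset.sum_apply]
    exact Finset.sum_congr rfl fun w _ => by rw [Pi.smul_apply, smul_eq_mul]
  rw [h1, map_sum]
  unfold FP.E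
  exact Finset.sum_congr rfl fun w _ => by rw [map_smul, smul_eq_mul]

lemma M_mono {M : (Nd → ℝ) →ₗ[ℝ] ℝ} (hM : ∀ F : Nd → ℝ, (∀ c, 0 ≤ F c) → 0 ≤ M F)
    {F G : Nd → ℝ} (h : ∀ c, F c ≤ G c) : M F ≤ M G := by
  have h1 := hM (G - F) fun c => by
    rw [Pi.sub_apply]
    linarith [h c]
  rw [map_sub] at h1
  linarith

/-- the mean of `psiF` -/
lemma psi_mean {h R : ℝ} {m J : ℕ} {μ : FP (ℕ × ℕ × ℕ)} (hμ : OptM h R m J μ)
    {X : Nd → Nd → ℝ} (hX : Harm2 (2 * m) X) {M : (Nd → ℝ) →ₗ[ℝ] ℝ}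
    (hM : ∀ F : Nd → ℝ, (∀ c, 0 ≤ F c) → 0 ≤ M F) {P : Nd} {Q : Nd} (hP : J ≤ P.1)
    (hMQ : ∀ P', M (fun c => (X P' c) ^ h) ≤ 4 * (X P' Q) ^ h) :
    μ.E (fun ω => psiF h R X M m P ω) ≤ (4 * m / J : ℝ) * (X P Q) ^ h := by
  have h1 : μ.E (fun ω => psiF h R X M m P ω) =
      M (fun c => μ.E (fun ω => ∑ k : Fin m, spk h R (X (nd1 (2 * m) P ω) c)
        (X (cell (2 * m) P ω k) c))) := by
    rw [← E_lin μ M (fun ω c => ∑ k : Fin m, spk h R (X (nd1 (2 * m) P ω) c)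
        (X (cell (2 * m) P ω k) c))]
    congr 1
    funext ω
    unfold psiF
    rw [← map_sum]
    congr 1
    funext c
    rw [Finset.sum_apply]
  rw [h1]
  have h2 : M (fun c => μ.E (fun ω => ∑ k : Fin m, spk h R (X (nd1 (2 * m) P ω) c)
        (X (cell (2 * m) P ω k) c))) ≤ M ((m / J : ℝ) • fun c => (X P c) ^ h) := by
    refine M_mono hM fun c => ?_
    rw [Pi.smul_apply, smul_eq_mul]
    exact hμ.P2 (fun P => X P c) (hX.row c) P hP
  refine h2.trans ?_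
  rw [map_smul, smul_eq_mul]
  calc (m / J : ℝ) * M (fun c => (X P c) ^ h) ≤ (m / J : ℝ) * (4 * (X P Q) ^ h) :=
        mul_le_mul_of_nonneg_left (hMQ P) (by positivity)
    _ = (4 * m / J : ℝ) * (X P Q) ^ h := by ring

end S1

open S1 in
theorem stage1 (lam : ℕ) (hlam : 1 ≤ lam) : ∃ C : ℝ, 1 ≤ C ∧
    ∀ (h R : ℝ), Par h R → ∀ (m J : ℕ), 1 ≤ m → 32 * m ^ 2 ≤ J →
    ∀ (μ : FP (ℕ × ℕ × ℕ)), OptM h R m J μ → ∀ (X : Nd → Nd → ℝ), Harm2 (2 * m) X →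
    ∀ {U O : Type} [Fintype U] [Fintype O] (B : U → O → ℝ), (∀ u o, 0 ≤ B u o) →
    ∀ (P : U → Nd) (Q : O → Nd) (A : Finset O) (M : O → ((Nd → ℝ) →ₗ[ℝ] ℝ)),
      (∀ u, J ≤ (P u).1) → (∀ o F, (∀ c, 0 ≤ F c) → 0 ≤ M o F) →
      (∀ o P', M o (fun c => (X P' c) ^ h) ≤ 4 * (X P' (Q o)) ^ h) →
    ∃ ω : U → ℕ × ℕ × ℕ, (∀ u, ω u ∈ μ.S) ∧
      (∀ u, ∑ o, B u o * (X (nd1 (2 * m) (P u) (ω u)) (Q o)) ^ h ≤
        8 * ∑ o, B u o * (X (P u) (Q o)) ^ h) ∧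
      (∀ u, m * ∑ o, B u o * psiF h R X (M o) m (P u) (ω u) ≤
        (32 * m ^ 2 / J : ℝ) * ∑ o, B u o * (X (P u) (Q o)) ^ h) ∧
      ∑ o ∈ A, (∑ u, B u o * (X (nd1 (2 * m) (P u) (ω u)) (Q o)) ^ h) ^ lam +
        ∑ o ∈ A, (m * ∑ u, B u o * psiF h R X (M o) m (P u) (ω u)) ^ lam ≤
      C * (∑ u, (∑ o, B u o * (X (P u) (Q o)) ^ h) ^ lam +
        ∑ o ∈ A, (∑ u, B u o * (X (P u) (Q o)) ^ h) ^ lam) := by
  obtain ⟨C, hC1, hC⟩ := rounding lam hlam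
  have h9 : (2 : ℝ) ≤ 9 ^ lam := by
    calc (2 : ℝ) ≤ 9 ^ 1 := by norm_num
      _ ≤ 9 ^ lam := pow_le_pow_right₀ (by norm_num) hlam
  refine ⟨C * 9 ^ lam, by nlinarith, ?_⟩
  intro h R hpar m J hm hJ μ hμ X hX U O _ _ B hB P Q A M hP hM hMQ
  have hm0 : (0 : ℝ) < m := by exact_mod_cast hm
  have hJ0 : (0 : ℝ) < J := by
    have : 0 < J := by nlinarith
    exact_mod_cast this
  have hJm : 32 * (m : ℝ) ^ 2 ≤ J := by exact_mod_cast hJ
  have hXh : ∀ P' Q', 0 ≤ (X P' Q') ^ h := fun P' Q' => Real.rpow_nonneg (hX.nn _ _) _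
  have hpsi0 : ∀ o P' ω, 0 ≤ psiF h R X (M o) m P' ω := by
    intro o P' ω
    unfold psiF
    exact Finset.sum_nonneg fun k _ => hM o _ fun c => spk_nonneg (hX.nn _ _)
  set Ph : U → ℝ := fun u => ∑ o, B u o * (X (P u) (Q o)) ^ h with hPh
  have hPh0 : ∀ u, 0 ≤ Ph u := fun u =>
    Finset.sum_nonneg fun o _ => mul_nonneg (hB u o) (hXh _ _)
  set T : U → O × Fin 2 → ℕ × ℕ × ℕ → ℝ := fun u k ω =>
    if k.2 = 0 then B u k.1 * (X (nd1 (2 * m) (P u) ω) (Q k.1)) ^ h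
    else m * (B u k.1 * psiF h R X (M k.1) m (P u) ω) with hT
  set Z : U → Fin 3 → ℕ × ℕ × ℕ → ℝ := fun u r ω =>
    if r = 0 then ∑ o, B u o * (X (nd1 (2 * m) (P u) ω) (Q o)) ^ h
    else if r = 1 then ∑ o, B u o * psiF h R X (M o) m (P u) ω else 0 with hZ
  set a : O × Fin 2 → ℝ := fun k => ∑ u, B u k.1 * (X (P u) (Q k.1)) ^ h with ha
  set z : U → Fin 3 → ℝ := fun u r =>
    if r = 0 then Ph u else if r = 1 then (4 * m / J : ℝ) * Ph u else 0 with hz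
  have hm1 : ∀ u o, μ.E (fun ω => B u o * (X (nd1 (2 * m) (P u) ω) (Q o)) ^ h) ≤
      B u o * (X (P u) (Q o)) ^ h := by
    intro u o
    rw [E_mul]
    exact mul_le_mul_of_nonneg_left (hμ.P1 (fun P => X P (Q o)) (hX.row (Q o)) (P u) (hP u)) (hB u o)
  have hm2 : ∀ u o, μ.E (fun ω => B u o * psiF h R X (M o) m (P u) ω) ≤
      (4 * m / J : ℝ) * (B u o * (X (P u) (Q o)) ^ h) := by
    intro u o
    rw [E_mul]
    have := mul_le_mul_of_nonneg_left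
      (psi_mean hμ hX (hM o) (Q := Q o) (hP u) (hMQ o)) (hB u o)
    linarith
  have hT0 : ∀ i k w, 0 ≤ T i k w := by
    intro u k ω
    rw [hT]
    simp only
    split_ifs
    · exact mul_nonneg (hB _ _) (hXh _ _)
    · exact mul_nonneg hm0.le (mul_nonneg (hB _ _) (hpsi0 _ _ _))
  have hZ0 : ∀ i r w, 0 ≤ Z i r w := by
    intro u r ω
    rw [hZ]
    simp only
    split_ifs
    · exact Finset.sum_nonneg fun o _ => mul_nonneg (hB _ _) (hXh _ _)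
    · exact Finset.sum_nonneg fun o _ => mul_nonneg (hB _ _) (hpsi0 _ _ _)
    · exact le_rfl
  have hsmall : 4 * (m : ℝ) ^ 2 / J ≤ 1 := by
    rw [div_le_one hJ0]
    nlinarith [sq_nonneg (m : ℝ)]
  have hsmall2 : 32 * (m : ℝ) ^ 2 / J ≤ 1 := by
    rw [div_le_one hJ0]
    exact hJm
  have hTa : ∀ k ∈ A ×ˢ (univ : Finset (Fin 2)), ∑ i ∈ (univ : Finset U), μ.E (T i k) ≤ a k := by
    rintro ⟨o, j⟩ _
    rw [ha]
    simp only
    refine Finset.sum_le_sum fun u _ => ?_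
    rw [hT]
    simp only
    by_cases hj : j = 0
    · simp only [hj, if_true]
      exact hm1 u o
    · simp only [hj, if_false]
      rw [E_mul]
      have h1 := mul_le_mul_of_nonneg_left (hm2 u o) hm0.le
      refine h1.trans ?_
      have h2 : 0 ≤ B u o * (X (P u) (Q o)) ^ h := mul_nonneg (hB _ _) (hXh _ _)
      calc (m : ℝ) * ((4 * m / J : ℝ) * (B u o * (X (P u) (Q o)) ^ h))
          = (4 * (m : ℝ) ^ 2 / J) * (B u o * (X (P u) (Q o)) ^ h) := by ring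
        _ ≤ 1 * (B u o * (X (P u) (Q o)) ^ h) := mul_le_mul_of_nonneg_right hsmall h2
        _ = _ := one_mul _
  have hZz : ∀ i ∈ (univ : Finset U), ∀ r, μ.E (Z i r) ≤ z i r := by
    intro u _ r
    rw [hZ, hz]
    simp only
    by_cases hr0 : r = 0
    · simp only [hr0, if_true]
      rw [E_sum]
      exact Finset.sum_le_sum fun o _ => hm1 u o
    · by_cases hr1 : r = 1
      · simp only [hr1, if_true]
        rw [if_neg (by decide : (1 : Fin 3) ≠ 0)]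
        have : μ.E (fun ω => if (1 : Fin 3) = 0 then
            ∑ o, B u o * (X (nd1 (2 * m) (P u) ω) (Q o)) ^ h
            else ∑ o, B u o * psiF h R X (M o) m (P u) ω) =
            μ.E (fun ω => ∑ o, B u o * psiF h R X (M o) m (P u) ω) := by
          congr 1
        rw [this, E_sum, hPh]
        simp only
        rw [Finset.mul_sum]
        exact Finset.sum_le_sum fun o _ => hm2 u o
      · simp only [hr0, hr1, if_false]
        exact (E_zero μ).le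
  have hbeta : ∀ i ∈ (univ : Finset U), ∀ w ∈ μ.S, (∀ r, Z i r w ≤ 8 * z i r) →
      ∑ k ∈ A ×ˢ (univ : Finset (Fin 2)), (T i k w) ^ lam ≤ (9 * Ph i) ^ lam := by
    intro u _ ω _ hg
    refine (sum_pow_le _ _ (fun k _ => hT0 u k ω) hlam).trans ?_
    refine pow_le_pow_left₀ (Finset.sum_nonneg fun k _ => hT0 u k ω) ?_ lam
    rw [Finset.sum_product]
    have h1 : ∑ o ∈ A, ∑ j : Fin 2, T u (o, j) ω = ∑ o ∈ A,
        (B u o * (X (nd1 (2 * m) (P u) ω) (Q o)) ^ h + m * (B u o * psiF h R X (M o) m (P u) ω)) := by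
      refine Finset.sum_congr rfl fun o _ => ?_
      rw [Fin.sum_univ_two, hT]
      simp
    rw [h1]
    have h2 : ∑ o ∈ A,
        (B u o * (X (nd1 (2 * m) (P u) ω) (Q o)) ^ h + m * (B u o * psiF h R X (M o) m (P u) ω)) ≤
        ∑ o, (B u o * (X (nd1 (2 * m) (P u) ω) (Q o)) ^ h +
          m * (B u o * psiF h R X (M o) m (P u) ω)) :=
      Finset.sum_le_sum_of_subset_of_nonneg (Finset.subset_univ _) fun o _ _ =>
        add_nonneg (mul_nonneg (hB _ _) (hXh _ _))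
          (mul_nonneg hm0.le (mul_nonneg (hB _ _) (hpsi0 _ _ _)))
    refine h2.trans ?_
    rw [Finset.sum_add_distrib, ← Finset.mul_sum]
    have h3 := hg 0
    have h4 := hg 1
    rw [hZ, hz] at h3 h4
    simp only [if_true] at h3
    simp only [if_true] at h4
    rw [if_neg (by decide : (1 : Fin 3) ≠ 0), if_neg (by decide : (1 : Fin 3) ≠ 0)] at h4
    have h5 := mul_le_mul_of_nonneg_left h4 hm0.le
    have h6 : (m : ℝ) * (8 * ((4 * m / J : ℝ) * Ph u)) = (32 * (m : ℝ) ^ 2 / J) * Ph u := by ring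
    have h7 := mul_le_mul_of_nonneg_right hsmall2 (hPh0 u)
    rw [h6] at h5
    linarith
  obtain ⟨ω, hω, hg, hsum⟩ := hC (univ : Finset U) (A ×ˢ (univ : Finset (Fin 2))) (fun _ => μ) T Z a z
    (fun u => (9 * Ph u) ^ lam) hT0 hZ0 hTa hZz hbeta
  refine ⟨ω, hω, ?_, ?_, ?_⟩
  · intro u
    have h3 := hg u (Finset.mem_univ u) 0
    rw [hZ, hz] at h3
    simp only [if_true] at h3
    exact h3
  · intro u
    have h4 := hg u (Finset.mem_univ u) 1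
    rw [hZ, hz] at h4
    simp only [if_true] at h4
    rw [if_neg (by decide : (1 : Fin 3) ≠ 0), if_neg (by decide : (1 : Fin 3) ≠ 0)] at h4
    have h5 := mul_le_mul_of_nonneg_left h4 hm0.le
    have h6 : (m : ℝ) * (8 * ((4 * m / J : ℝ) * Ph u)) = (32 * (m : ℝ) ^ 2 / J) * Ph u := by ring
    rw [h6] at h5
    exact h5
  · have hl : ∑ k ∈ A ×ˢ (univ : Finset (Fin 2)), (∑ i, T i k (ω i)) ^ lam =
        ∑ o ∈ A, (∑ u, B u o * (X (nd1 (2 * m) (P u) (ω u)) (Q o)) ^ h) ^ lam +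
        ∑ o ∈ A, (m * ∑ u, B u o * psiF h R X (M o) m (P u) (ω u)) ^ lam := by
      rw [Finset.sum_product, ← Finset.sum_add_distrib]
      refine Finset.sum_congr rfl fun o _ => ?_
      rw [Fin.sum_univ_two, hT]
      simp [Finset.mul_sum]
    have hr : ∑ k ∈ A ×ˢ (univ : Finset (Fin 2)), (a k) ^ lam =
        2 * ∑ o ∈ A, (∑ u, B u o * (X (P u) (Q o)) ^ h) ^ lam := by
      rw [Finset.sum_product, Finset.mul_sum]
      refine Finset.sum_congr rfl fun o _ => ?_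
      rw [Fin.sum_univ_two, ha]
      simp only
      ring
    rw [hl, hr] at hsum
    refine hsum.trans ?_
    have h1 : ∑ i, (9 * Ph i) ^ lam = 9 ^ lam * ∑ u, Ph u ^ lam := by
      rw [Finset.mul_sum]
      exact Finset.sum_congr rfl fun u _ => mul_pow _ _ _
    rw [h1, mul_assoc]
    refine mul_le_mul_of_nonneg_left ?_ (by linarith)
    have h2 : 0 ≤ ∑ o ∈ A, (∑ u, B u o * (X (P u) (Q o)) ^ h) ^ lam :=
      Finset.sum_nonneg fun o _ => pow_nonneg (Finset.sum_nonneg fun u _ =>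
        mul_nonneg (hB _ _) (hXh _ _)) _
    have h3 := mul_le_mul_of_nonneg_right h9 h2
    rw [mul_add]
    linarith

end Pool.Agent.H69.FK
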