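import Pool.Agent.H69.FK.Ctx
import Pool.Agent.H69.FK.Round

/-! Module STAGE 2 (active columns; the row windows `N u` and row cells `cl u k` are fixed,
arbitrary nodes). -/

namespace Pool.Agent.H69.FK

open Finset

lemma FP.E_nonneg2 {Ω : Type} (μ : FP Ω) {Z : Ω → ℝ} (hZ : ∀ w, 0 ≤ Z w) : 0 ≤ μ.E Z :=
  Finset.sum_nonneg fun w _ => mul_nonneg (μ.nn w) (hZ w)

lemma FP.E_const_mul2 {Ω : Type} (μ : FP Ω) (c : ℝ) (Z : Ω → ℝ) :
    μ.E (fun w => c * Z w) = c * μ.E Z := by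
  unfold FP.E
  rw [Finset.mul_sum]
  exact Finset.sum_congr rfl fun w _ => by ring

lemma FP.E_sum2 {Ω ι : Type} (μ : FP Ω) (s : Finset ι) (Z : ι → Ω → ℝ) :
    μ.E (fun w => ∑ i ∈ s, Z i w) = ∑ i ∈ s, μ.E (Z i) := by
  unfold FP.E
  rw [Finset.sum_comm]
  exact Finset.sum_congr rfl fun w _ => Finset.mul_sum _ _ _

lemma tC_nonneg2 {h R : ℝ} {q : ℕ} {X : Nd → Nd → ℝ} (hX : Harm2 q X) (m : ℕ) (N I1 : Nd)
    (cc : Fin m → Nd) : 0 ≤ tC h R X m N I1 cc :=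
  Finset.sum_nonneg fun _ _ => spk_nonneg (hX.nn _ _)

lemma tR_nonneg2 {h R : ℝ} {q : ℕ} {X : Nd → Nd → ℝ} (hX : Harm2 q X) (H : Nd → FP ℕ) (m : ℕ)
    (N : Nd) (cl : Fin m → Nd) (cc : Fin m → Nd) : 0 ≤ tR h R X H m N cl cc :=
  Finset.sum_nonneg fun _ _ => Finset.sum_nonneg fun _ _ =>
    add_nonneg (spk_nonneg (hX.nn _ _)) (FP.E_nonneg2 _ fun _ => spk_nonneg (hX.nn _ _))

lemma sum_pow_le_pow_sum2 {ι : Type} (s : Finset ι) (f : ι → ℝ) (hf : ∀ i ∈ s, 0 ≤ f i)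
    {n : ℕ} (hn : 1 ≤ n) : ∑ i ∈ s, (f i) ^ n ≤ (∑ i ∈ s, f i) ^ n := by
  classical
  obtain ⟨k, rfl⟩ : ∃ k, n = k + 1 := ⟨n - 1, by omega⟩
  have h0 : 0 ≤ ∑ i ∈ s, f i := Finset.sum_nonneg hf
  calc ∑ i ∈ s, (f i) ^ (k + 1) = ∑ i ∈ s, f i * (f i) ^ k :=
        Finset.sum_congr rfl fun i _ => by ring
    _ ≤ ∑ i ∈ s, f i * (∑ i ∈ s, f i) ^ k := by
        apply Finset.sum_le_sum
        intro i hi
        apply mul_le_mul_of_nonneg_left _ (hf i hi)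
        exact pow_le_pow_left₀ (hf i hi) (Finset.single_le_sum hf hi) k
    _ = (∑ i ∈ s, f i) ^ (k + 1) := by rw [← Finset.sum_mul]; ring

theorem stage2 (lam : ℕ) (hlam : 1 ≤ lam) : ∃ C : ℝ, 1 ≤ C ∧
    ∀ (h R : ℝ), Par h R → ∀ (m J : ℕ), 1 ≤ m → m ≤ J →
    ∀ (μ : FP (ℕ × ℕ × ℕ)), OptM h R m J μ → ∀ (H : Nd → FP ℕ) (X : Nd → Nd → ℝ),
      Harm2 (2 * m) X →
    ∀ {U O : Type} [Fintype U] [Fintype O] (B : U → O → ℝ), (∀ u o, 0 ≤ B u o) →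
    ∀ (N : U → Nd) (cl : U → Fin m → Nd) (Q : O → Nd) (A : Finset O),
      (∀ o ∈ A, J ≤ (Q o).1) →
    ∃ ω : O → ℕ × ℕ × ℕ, (∀ o, ω o ∈ μ.S) ∧
      (∀ o ∈ A, ∑ u, B u o * (X (N u) (nd1 (2 * m) (Q o) (ω o))) ^ h ≤
        8 * ∑ u, B u o * (X (N u) (Q o)) ^ h) ∧
      (∀ o ∈ A, ∑ u, B u o * tC h R X m (N u) (nd1 (2 * m) (Q o) (ω o))
          (fun l => cell (2 * m) (Q o) (ω o) l) ≤
        (8 * m / J : ℝ) * ∑ u, B u o * (X (N u) (Q o)) ^ h) ∧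
      (∀ o ∈ A, ∑ u, B u o * tR h R X H m (N u) (cl u) (fun l => cell (2 * m) (Q o) (ω o) l) ≤
        8 * ∑ u, B u o * μ.E (fun w => tR h R X H m (N u) (cl u)
          (fun l => cell (2 * m) (Q o) w l))) ∧
      ∑ u, (∑ o ∈ A, B u o * (X (N u) (nd1 (2 * m) (Q o) (ω o))) ^ h) ^ lam +
        ∑ u, (∑ o ∈ A, B u o * tC h R X m (N u) (nd1 (2 * m) (Q o) (ω o))
          (fun l => cell (2 * m) (Q o) (ω o) l)) ^ lam +
        ∑ u, (∑ o ∈ A, B u o * tR h R X H m (N u) (cl u)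
          (fun l => cell (2 * m) (Q o) (ω o) l)) ^ lam ≤
      C * (∑ u, (∑ o ∈ A, B u o * (X (N u) (Q o)) ^ h) ^ lam +
        ∑ u, (∑ o ∈ A, B u o * μ.E (fun w => tR h R X H m (N u) (cl u)
          (fun l => cell (2 * m) (Q o) w l))) ^ lam +
        ∑ o ∈ A, (∑ u, B u o * (X (N u) (Q o)) ^ h) ^ lam +
        ∑ o ∈ A, (∑ u, B u o * μ.E (fun w => tR h R X H m (N u) (cl u)
          (fun l => cell (2 * m) (Q o) w l))) ^ lam) := by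
  classical
  obtain ⟨C0, hC0, hround⟩ := rounding lam hlam
  have h8 : (1 : ℝ) ≤ 8 ^ lam := one_le_pow₀ (by norm_num)
  refine ⟨C0 * (2 * 8 ^ lam), by nlinarith, ?_⟩
  intro h R hPar m J hm hmJ μ hμ H X hX U O _ _ B hB N cl Q A hQ
  have hmR : (0 : ℝ) < m := by exact_mod_cast hm
  have hJR : (0 : ℝ) < J := by exact_mod_cast lt_of_lt_of_le hm hmJ
  have hmJR : (m : ℝ) ≤ J := by exact_mod_cast hmJ
  have hq0 : (0 : ℝ) ≤ m / J := by positivity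
  have hq1 : (m / J : ℝ) ≤ 1 := (div_le_one hJR).2 hmJR
  -- the three targets
  set F : Fin 3 → U → O → (ℕ × ℕ × ℕ) → ℝ := fun r u o w =>
    ![B u o * (X (N u) (nd1 (2 * m) (Q o) w)) ^ h,
      B u o * tC h R X m (N u) (nd1 (2 * m) (Q o) w) (fun l => cell (2 * m) (Q o) w l),
      B u o * tR h R X H m (N u) (cl u) (fun l => cell (2 * m) (Q o) w l)] r with hF
  set G : Fin 3 → U → O → ℝ := fun r u o =>
    ![B u o * (X (N u) (Q o)) ^ h,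
      (m / J : ℝ) * (B u o * (X (N u) (Q o)) ^ h),
      B u o * μ.E (fun w => tR h R X H m (N u) (cl u) (fun l => cell (2 * m) (Q o) w l))] r
    with hG
  have hF0 : ∀ r u o w, 0 ≤ F r u o w := by
    intro r u o w
    rw [hF]
    fin_cases r
    · exact mul_nonneg (hB u o) (Real.rpow_nonneg (hX.nn _ _) h)
    · exact mul_nonneg (hB u o) (tC_nonneg2 hX _ _ _ _)
    · exact mul_nonneg (hB u o) (tR_nonneg2 hX _ _ _ _ _)
  have hG0 : ∀ r u o, 0 ≤ G r u o := by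
    intro r u o
    rw [hG]
    fin_cases r
    · exact mul_nonneg (hB u o) (Real.rpow_nonneg (hX.nn _ _) h)
    · exact mul_nonneg hq0 (mul_nonneg (hB u o) (Real.rpow_nonneg (hX.nn _ _) h))
    · exact mul_nonneg (hB u o) (FP.E_nonneg2 _ fun _ => tR_nonneg2 hX _ _ _ _ _)
  have hE : ∀ r u, ∀ o ∈ A, μ.E (F r u o) ≤ G r u o := by
    intro r u o ho
    rw [hF, hG]
    fin_cases r
    · show μ.E (fun w => B u o * (X (N u) (nd1 (2 * m) (Q o) w)) ^ h) ≤ B u o * _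
      rw [FP.E_const_mul2]
      exact mul_le_mul_of_nonneg_left (hμ.P1 (X (N u)) (hX.col (N u)) (Q o) (hQ o ho)) (hB u o)
    · show μ.E (fun w => B u o * tC h R X m (N u) (nd1 (2 * m) (Q o) w)
        (fun l => cell (2 * m) (Q o) w l)) ≤ (m / J : ℝ) * (B u o * (X (N u) (Q o)) ^ h)
      rw [FP.E_const_mul2]
      have h1 := mul_le_mul_of_nonneg_left
        (hμ.P2 (X (N u)) (hX.col (N u)) (Q o) (hQ o ho)) (hB u o)
      calc B u o * μ.E (fun w => tC h R X m (N u) (nd1 (2 * m) (Q o) w)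
            (fun l => cell (2 * m) (Q o) w l)) ≤ B u o * ((m / J : ℝ) * (X (N u) (Q o)) ^ h) := h1
        _ = (m / J : ℝ) * (B u o * (X (N u) (Q o)) ^ h) := by ring
    · show μ.E (fun w => B u o * tR h R X H m (N u) (cl u) (fun l => cell (2 * m) (Q o) w l)) ≤
        B u o * _
      rw [FP.E_const_mul2]
  obtain ⟨ω, hω1, hω2, hω3⟩ := hround (ι := O) (κ := U × Fin 3) (Ω := ℕ × ℕ × ℕ) A univ
    (fun _ => μ) (fun o k w => F k.2 k.1 o w) (fun o r w => ∑ u, F r u o w)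
    (fun k => ∑ o ∈ A, G k.2 k.1 o) (fun o r => ∑ u, G r u o)
    (fun o => ∑ r : Fin 3, (8 * ∑ u, G r u o) ^ lam)
    (fun o k w => hF0 _ _ _ _) (fun o r w => Finset.sum_nonneg fun u _ => hF0 _ _ _ _)
    (fun k _ => Finset.sum_le_sum fun o ho => hE k.2 k.1 o ho)
    (fun o ho r => by
      rw [FP.E_sum2]
      exact Finset.sum_le_sum fun u _ => hE r u o ho)
    (fun o ho w _ hgood => by
      rw [Fintype.sum_prod_type_right]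
      apply Finset.sum_le_sum
      intro r _
      refine (sum_pow_le_pow_sum2 univ (fun u => F r u o w) (fun u _ => hF0 _ _ _ _) hlam).trans ?_
      exact pow_le_pow_left₀ (Finset.sum_nonneg fun u _ => hF0 _ _ _ _) (hgood r) lam)
  have hg0 : ∀ o, ∑ u, G 1 u o = (m / J : ℝ) * ∑ u, G 0 u o := by
    intro o
    rw [Finset.mul_sum]
    exact Finset.sum_congr rfl fun u _ => rfl
  have hg1 : ∀ u, ∑ o ∈ A, G 1 u o = (m / J : ℝ) * ∑ o ∈ A, G 0 u o := by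
    intro u
    rw [Finset.mul_sum]
    exact Finset.sum_congr rfl fun o _ => rfl
  refine ⟨ω, hω1, ?_, ?_, ?_, ?_⟩
  · intro o ho
    exact hω2 o ho 0
  · intro o ho
    have h1 := hω2 o ho 1
    have h2 : (8 : ℝ) * ∑ u, G 1 u o = (8 * m / J : ℝ) * ∑ u, G 0 u o := by
      rw [hg0]
      ring
    calc ∑ u, F 1 u o (ω o) ≤ 8 * ∑ u, G 1 u o := h1
      _ = (8 * m / J : ℝ) * ∑ u, G 0 u o := h2
  · intro o ho
    exact hω2 o ho 2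
  · have h3 : ∑ u, (∑ o ∈ A, F 0 u o (ω o)) ^ lam + ∑ u, (∑ o ∈ A, F 1 u o (ω o)) ^ lam +
        ∑ u, (∑ o ∈ A, F 2 u o (ω o)) ^ lam ≤
        C0 * ((∑ u, (∑ o ∈ A, G 0 u o) ^ lam + ∑ u, (∑ o ∈ A, G 1 u o) ^ lam +
          ∑ u, (∑ o ∈ A, G 2 u o) ^ lam) +
          ∑ o ∈ A, ((8 * ∑ u, G 0 u o) ^ lam + (8 * ∑ u, G 1 u o) ^ lam +
            (8 * ∑ u, G 2 u o) ^ lam)) := by
      rw [Fintype.sum_prod_type_right, Fintype.sum_prod_type_right, Fin.sum_univ_three,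
        Fin.sum_univ_three] at hω3
      simp only [Fin.sum_univ_three] at hω3
      exact hω3
    have hu : ∀ u, 0 ≤ ∑ o ∈ A, G 0 u o := fun u => Finset.sum_nonneg fun o _ => hG0 _ _ _
    have ho' : ∀ o, 0 ≤ ∑ u, G 0 u o := fun o => Finset.sum_nonneg fun u _ => hG0 _ _ _
    have ho2 : ∀ o, 0 ≤ ∑ u, G 2 u o := fun o => Finset.sum_nonneg fun u _ => hG0 _ _ _
    have hu2 : ∀ u, 0 ≤ ∑ o ∈ A, G 2 u o := fun u => Finset.sum_nonneg fun o _ => hG0 _ _ _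
    -- replace index 1 by index 0
    have e1 : ∑ u, (∑ o ∈ A, G 1 u o) ^ lam ≤ ∑ u, (∑ o ∈ A, G 0 u o) ^ lam := by
      apply Finset.sum_le_sum
      intro u _
      rw [hg1]
      exact pow_le_pow_left₀ (mul_nonneg hq0 (hu u)) (mul_le_of_le_one_left (hu u) hq1) lam
    have e2 : ∑ o ∈ A, ((8 * ∑ u, G 0 u o) ^ lam + (8 * ∑ u, G 1 u o) ^ lam +
            (8 * ∑ u, G 2 u o) ^ lam) ≤
        2 * 8 ^ lam * ∑ o ∈ A, (∑ u, G 0 u o) ^ lam +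
          2 * 8 ^ lam * ∑ o ∈ A, (∑ u, G 2 u o) ^ lam := by
      rw [Finset.mul_sum, Finset.mul_sum, ← Finset.sum_add_distrib]
      apply Finset.sum_le_sum
      intro o _
      rw [hg0, mul_pow 8 (∑ u, G 0 u o), mul_pow 8 ((m / J : ℝ) * ∑ u, G 0 u o),
        mul_pow 8 (∑ u, G 2 u o)]
      have h5 : ((m / J : ℝ) * ∑ u, G 0 u o) ^ lam ≤ (∑ u, G 0 u o) ^ lam :=
        pow_le_pow_left₀ (mul_nonneg hq0 (ho' o)) (mul_le_of_le_one_left (ho' o) hq1) lam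
      have h6 : (8 : ℝ) ^ lam * ((m / J : ℝ) * ∑ u, G 0 u o) ^ lam ≤
          8 ^ lam * (∑ u, G 0 u o) ^ lam := mul_le_mul_of_nonneg_left h5 (by positivity)
      have h7 : 0 ≤ (8 : ℝ) ^ lam * (∑ u, G 2 u o) ^ lam :=
        mul_nonneg (by positivity) (pow_nonneg (ho2 o) lam)
      linarith
    have hs1 : 0 ≤ ∑ u, (∑ o ∈ A, G 0 u o) ^ lam :=
      Finset.sum_nonneg fun u _ => pow_nonneg (hu u) lam
    have hs2 : 0 ≤ ∑ u, (∑ o ∈ A, G 2 u o) ^ lam :=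
      Finset.sum_nonneg fun u _ => pow_nonneg (hu2 u) lam
    have hs3 : 0 ≤ ∑ o ∈ A, (∑ u, G 0 u o) ^ lam :=
      Finset.sum_nonneg fun o _ => pow_nonneg (ho' o) lam
    have hs4 : 0 ≤ ∑ o ∈ A, (∑ u, G 2 u o) ^ lam :=
      Finset.sum_nonneg fun o _ => pow_nonneg (ho2 o) lam
    have h9 : (∑ u, (∑ o ∈ A, G 0 u o) ^ lam + ∑ u, (∑ o ∈ A, G 1 u o) ^ lam +
          ∑ u, (∑ o ∈ A, G 2 u o) ^ lam) +
          ∑ o ∈ A, ((8 * ∑ u, G 0 u o) ^ lam + (8 * ∑ u, G 1 u o) ^ lam +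
            (8 * ∑ u, G 2 u o) ^ lam) ≤
        (2 * 8 ^ lam) * (∑ u, (∑ o ∈ A, G 0 u o) ^ lam + ∑ u, (∑ o ∈ A, G 2 u o) ^ lam +
          ∑ o ∈ A, (∑ u, G 0 u o) ^ lam + ∑ o ∈ A, (∑ u, G 2 u o) ^ lam) := by
      nlinarith
    calc ∑ u, (∑ o ∈ A, F 0 u o (ω o)) ^ lam + ∑ u, (∑ o ∈ A, F 1 u o (ω o)) ^ lam +
        ∑ u, (∑ o ∈ A, F 2 u o (ω o)) ^ lam
        ≤ _ := h3
      _ ≤ C0 * ((2 * 8 ^ lam) * (∑ u, (∑ o ∈ A, G 0 u o) ^ lam + ∑ u, (∑ o ∈ A, G 2 u o) ^ lam +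
          ∑ o ∈ A, (∑ u, G 0 u o) ^ lam + ∑ o ∈ A, (∑ u, G 2 u o) ^ lam)) :=
          mul_le_mul_of_nonneg_left h9 (by linarith)
      _ = C0 * (2 * 8 ^ lam) * (∑ u, (∑ o ∈ A, G 0 u o) ^ lam +
          ∑ u, (∑ o ∈ A, G 2 u o) ^ lam +
          ∑ o ∈ A, (∑ u, G 0 u o) ^ lam + ∑ o ∈ A, (∑ u, G 2 u o) ^ lam) := by ring

end Pool.Agent.H69.FK
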