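import Pool.Agent.H69.FK.Ctx
import Pool.Agent.H69.FK.Round

/-! Module STAGE 3 (freeze) and the potentials of the new state. `A` = active columns, `A'` = new
active column pieces, `(o, l)` with `o ∈ A`, `(o, l) ∉ A'` are the newly frozen ones, `o ∉ A` the
old frozen ones. `N u`, `cl u k` are row windows and row cells, `I1 o` column windows (for
`o ∉ A` the host column of `o`), `cc o l` column cells. -/

namespace Pool.Agent.H69.FK

open Finset

/-! ### Expectations -/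

theorem st3_E_mono {Ω : Type} (μ : FP Ω) {f g : Ω → ℝ} (hfg : ∀ w, f w ≤ g w) :
    μ.E f ≤ μ.E g :=
  Finset.sum_le_sum fun w _ => mul_le_mul_of_nonneg_left (hfg w) (μ.nn w)

theorem st3_E_nonneg {Ω : Type} (μ : FP Ω) {f : Ω → ℝ} (hf : ∀ w, 0 ≤ f w) : 0 ≤ μ.E f :=
  Finset.sum_nonneg fun w _ => mul_nonneg (μ.nn w) (hf w)

theorem st3_E_mul {Ω : Type} (μ : FP Ω) (c : ℝ) (f : Ω → ℝ) :
    μ.E (fun w => c * f w) = c * μ.E f := by
  unfold FP.E
  rw [Finset.mul_sum]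
  exact Finset.sum_congr rfl fun w _ => by ring

theorem st3_E_sum {Ω ι : Type} (μ : FP Ω) (s : Finset ι) (f : ι → Ω → ℝ) :
    μ.E (fun w => ∑ i ∈ s, f i w) = ∑ i ∈ s, μ.E (f i) := by
  unfold FP.E
  rw [Finset.sum_comm]
  exact Finset.sum_congr rfl fun w _ => by rw [Finset.mul_sum]

/-! ### Powers of sums -/

theorem st3_pow_sum {ι : Type} (s : Finset ι) (f : ι → ℝ) (hf : ∀ i ∈ s, 0 ≤ f i) {lam : ℕ}
    (hlam : 1 ≤ lam) : ∑ i ∈ s, f i ^ lam ≤ (∑ i ∈ s, f i) ^ lam := by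
  classical
  induction s using Finset.induction_on with
  | empty => simp
  | insert a s ha ih =>
    rw [Finset.sum_insert ha, Finset.sum_insert ha]
    have h1 := ih fun i hi => hf i (Finset.mem_insert_of_mem hi)
    have h2 : f a ^ lam + (∑ i ∈ s, f i) ^ lam ≤ (f a + ∑ i ∈ s, f i) ^ lam :=
      pow_add_pow_le (hf a (Finset.mem_insert_self a s))
        (Finset.sum_nonneg fun i hi => hf i (Finset.mem_insert_of_mem hi)) (by omega)
    linarith

theorem st3_add2 (lam : ℕ) {a b : ℝ} (ha : 0 ≤ a) (hb : 0 ≤ b) :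
    (a + b) ^ lam ≤ 2 ^ lam * (a ^ lam + b ^ lam) := by
  refine (add_pow_le ha hb lam).trans ?_
  refine mul_le_mul_of_nonneg_right ?_ (by positivity)
  exact pow_le_pow_right₀ (by norm_num) (by omega)

theorem st3_add3 (lam : ℕ) {a b c : ℝ} (ha : 0 ≤ a) (hb : 0 ≤ b) (hc : 0 ≤ c) :
    (a + b + c) ^ lam ≤ 4 ^ lam * (a ^ lam + b ^ lam + c ^ lam) := by
  have h1 := st3_add2 lam (add_nonneg ha hb) hc
  have h2 := st3_add2 lam ha hb
  have h3 : (1 : ℝ) ≤ 2 ^ lam := one_le_pow₀ (by norm_num)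
  have h4 : (4 : ℝ) ^ lam = 2 ^ lam * 2 ^ lam := by rw [← mul_pow]; norm_num
  have h5 : 0 ≤ c ^ lam := by positivity
  rw [h4]
  calc (a + b + c) ^ lam ≤ 2 ^ lam * ((a + b) ^ lam + c ^ lam) := h1
    _ ≤ 2 ^ lam * (2 ^ lam * (a ^ lam + b ^ lam) + 2 ^ lam * c ^ lam) := by
        refine mul_le_mul_of_nonneg_left ?_ (by positivity)
        nlinarith
    _ = _ := by ring

theorem st3_add6 (lam : ℕ) {a b c d e f : ℝ} (ha : 0 ≤ a) (hb : 0 ≤ b) (hc : 0 ≤ c)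
    (hd : 0 ≤ d) (he : 0 ≤ e) (hf : 0 ≤ f) :
    (a + b + c + d + e + f) ^ lam ≤
      8 ^ lam * (a ^ lam + b ^ lam + c ^ lam + d ^ lam + e ^ lam + f ^ lam) := by
  have h1 := st3_add2 lam (add_nonneg (add_nonneg ha hb) hc) (add_nonneg (add_nonneg hd he) hf)
  have h2 := st3_add3 lam ha hb hc
  have h3 := st3_add3 lam hd he hf
  have h4 : (8 : ℝ) ^ lam = 2 ^ lam * 4 ^ lam := by rw [← mul_pow]; norm_num
  rw [h4]
  calc (a + b + c + d + e + f) ^ lam = (a + b + c + (d + e + f)) ^ lam := by ring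
    _ ≤ 2 ^ lam * ((a + b + c) ^ lam + (d + e + f) ^ lam) := h1
    _ ≤ 2 ^ lam * (4 ^ lam * (a ^ lam + b ^ lam + c ^ lam) +
        4 ^ lam * (d ^ lam + e ^ lam + f ^ lam)) := by
        refine mul_le_mul_of_nonneg_left ?_ (by positivity)
        linarith
    _ = _ := by ring

/-! ### Reindexing -/

theorem st3_prod_le {O : Type} [Fintype O] {m : ℕ} (A : Finset O) (S : Finset (O × Fin m))
    (hS : ∀ w ∈ S, w.1 ∈ A) (g : O → Fin m → ℝ) (hg : ∀ o l, 0 ≤ g o l) :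
    ∑ w ∈ S, g w.1 w.2 ≤ ∑ o ∈ A, ∑ l : Fin m, g o l := by
  have h1 : ∑ o ∈ A, ∑ l : Fin m, g o l =
      ∑ w ∈ A ×ˢ (Finset.univ : Finset (Fin m)), g w.1 w.2 := by
    rw [Finset.sum_product]
  rw [h1]
  refine Finset.sum_le_sum_of_subset_of_nonneg ?_ fun w _ _ => hg _ _
  intro w hw
  simp only [Finset.mem_product, Finset.mem_univ, and_true]
  exact hS w hw

theorem st3_rows {U : Type} [Fintype U] {m : ℕ} (g : U → ℝ) :
    ∑ v : U × Fin m, g v.1 = m * ∑ u, g u := by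
  rw [Fintype.sum_prod_type, Finset.mul_sum]
  exact Finset.sum_congr rfl fun u _ => by simp

/-- the three-term bound -/
theorem st3_three {h R : ℝ} (hp : Par h R) {x y z : ℝ} (hx : 0 ≤ x) (hy : 0 ≤ y) (hz : 0 ≤ z) :
    z ^ h ≤ R ^ 2 * x ^ h + R * spk h R x y + spk h R y z := by
  have hh0 : 0 ≤ h := by have := hp.hh; linarith
  have h1 := pow_le_spk hh0 hp.hh1.le hp.hR hy hz
  have h2 := pow_le_spk hh0 hp.hh1.le hp.hR hx hy
  have h3 : R * y ^ h ≤ R * (R * x ^ h + spk h R x y) :=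
    mul_le_mul_of_nonneg_left h2 (by have := hp.hR; linarith)
  nlinarith

section Loads

variable {h R : ℝ} {m : ℕ} {X : Nd → Nd → ℝ} {U O : Type}

theorem st3_tC_nonneg (hX : Harm2 (2 * m) X) (Nu I : Nd) (c : Fin m → Nd) :
    0 ≤ tC h R X m Nu I c :=
  Finset.sum_nonneg fun _ _ => spk_nonneg (hX.nn _ _)

theorem st3_tR_nonneg (hX : Harm2 (2 * m) X) (H : Nd → FP ℕ) (Nu : Nd) (clu c : Fin m → Nd) :
    0 ≤ tR h R X H m Nu clu c :=
  Finset.sum_nonneg fun _ _ => Finset.sum_nonneg fun _ _ =>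
    add_nonneg (spk_nonneg (hX.nn _ _)) (st3_E_nonneg _ fun _ => spk_nonneg (hX.nn _ _))

theorem st3_le_tC (hX : Harm2 (2 * m) X) (Nu I : Nd) (c : Fin m → Nd) (l : Fin m) :
    spk h R (X Nu I) (X Nu (c l)) ≤ tC h R X m Nu I c :=
  Finset.single_le_sum (f := fun l => spk h R (X Nu I) (X Nu (c l)))
    (fun _ _ => spk_nonneg (hX.nn _ _)) (Finset.mem_univ l)

/-- for a fixed `k`, both parts of `tR`, summed over `l` -/
theorem st3_le_tR (hX : Harm2 (2 * m) X) (H : Nd → FP ℕ) (Nu : Nd) (clu c : Fin m → Nd)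
    (k : Fin m) :
    ∑ l : Fin m, spk h R (X Nu (c l)) (X (clu k) (c l)) ≤ tR h R X H m Nu clu c := by
  unfold tR
  refine le_trans ?_ (Finset.single_le_sum (f := fun k => ∑ l : Fin m,
    (spk h R (X Nu (c l)) (X (clu k) (c l)) +
    (H (c l)).E (fun y => spk h R (X Nu (0, y)) (X (clu k) (0, y)))))
    (fun _ _ => Finset.sum_nonneg fun _ _ => add_nonneg (spk_nonneg (hX.nn _ _))
      (st3_E_nonneg _ fun _ => spk_nonneg (hX.nn _ _))) (Finset.mem_univ k))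
  exact Finset.sum_le_sum fun l _ => le_add_of_nonneg_right
    (st3_E_nonneg _ fun _ => spk_nonneg (hX.nn _ _))

theorem st3_le_tR' (hX : Harm2 (2 * m) X) (H : Nd → FP ℕ) (Nu : Nd) (clu c : Fin m → Nd)
    (k : Fin m) :
    ∑ l : Fin m, (H (c l)).E (fun y => spk h R (X Nu (0, y)) (X (clu k) (0, y))) ≤
      tR h R X H m Nu clu c := by
  unfold tR
  refine le_trans ?_ (Finset.single_le_sum (f := fun k => ∑ l : Fin m,
    (spk h R (X Nu (c l)) (X (clu k) (c l)) +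
    (H (c l)).E (fun y => spk h R (X Nu (0, y)) (X (clu k) (0, y)))))
    (fun _ _ => Finset.sum_nonneg fun _ _ => add_nonneg (spk_nonneg (hX.nn _ _))
      (st3_E_nonneg _ fun _ => spk_nonneg (hX.nn _ _))) (Finset.mem_univ k))
  exact Finset.sum_le_sum fun l _ => le_add_of_nonneg_left (spk_nonneg (hX.nn _ _))

/-- for a fixed `l`, both parts of `tR`, summed over `k` -/
theorem st3_le_tRl (hX : Harm2 (2 * m) X) (H : Nd → FP ℕ) (Nu : Nd) (clu c : Fin m → Nd)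
    (l : Fin m) :
    ∑ k : Fin m, spk h R (X Nu (c l)) (X (clu k) (c l)) ≤ tR h R X H m Nu clu c := by
  unfold tR
  refine Finset.sum_le_sum fun k _ => ?_
  refine le_trans ?_ (Finset.single_le_sum (f := fun l =>
    (spk h R (X Nu (c l)) (X (clu k) (c l)) +
    (H (c l)).E (fun y => spk h R (X Nu (0, y)) (X (clu k) (0, y)))))
    (fun _ _ => add_nonneg (spk_nonneg (hX.nn _ _))
      (st3_E_nonneg _ fun _ => spk_nonneg (hX.nn _ _))) (Finset.mem_univ l))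
  exact le_add_of_nonneg_right (st3_E_nonneg _ fun _ => spk_nonneg (hX.nn _ _))

theorem st3_le_tRl' (hX : Harm2 (2 * m) X) (H : Nd → FP ℕ) (Nu : Nd) (clu c : Fin m → Nd)
    (l : Fin m) :
    ∑ k : Fin m, (H (c l)).E (fun y => spk h R (X Nu (0, y)) (X (clu k) (0, y))) ≤
      tR h R X H m Nu clu c := by
  unfold tR
  refine Finset.sum_le_sum fun k _ => ?_
  refine le_trans ?_ (Finset.single_le_sum (f := fun l =>
    (spk h R (X Nu (c l)) (X (clu k) (c l)) +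
    (H (c l)).E (fun y => spk h R (X Nu (0, y)) (X (clu k) (0, y)))))
    (fun _ _ => add_nonneg (spk_nonneg (hX.nn _ _))
      (st3_E_nonneg _ fun _ => spk_nonneg (hX.nn _ _))) (Finset.mem_univ l))
  exact le_add_of_nonneg_left (spk_nonneg (hX.nn _ _))

/-- sums over pieces of columns in `A` of a nonnegative quantity -/
theorem st3_pieces [Fintype O] (B : U → O → ℝ) (hB : ∀ u o, 0 ≤ B u o)
    (B' : U × Fin m → O × Fin m → ℝ) (hB'B : ∀ v w, B' v w ≤ B v.1 w.1)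
    (A : Finset O) (S : Finset (O × Fin m)) (hS : ∀ w ∈ S, w.1 ∈ A) (v : U × Fin m)
    (g : O → Fin m → ℝ) (hg : ∀ o l, 0 ≤ g o l) (G : O → ℝ) (hG : ∀ o, ∑ l, g o l ≤ G o) :
    ∑ w ∈ S, B' v w * g w.1 w.2 ≤ ∑ o ∈ A, B v.1 o * G o := by
  calc ∑ w ∈ S, B' v w * g w.1 w.2 ≤ ∑ w ∈ S, B v.1 w.1 * g w.1 w.2 :=
        Finset.sum_le_sum fun w _ => mul_le_mul_of_nonneg_right (hB'B v w) (hg _ _)
    _ ≤ ∑ o ∈ A, ∑ l : Fin m, B v.1 o * g o l :=
        st3_prod_le A S hS (fun o l => B v.1 o * g o l) fun o l => mul_nonneg (hB _ _) (hg _ _)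
    _ ≤ ∑ o ∈ A, B v.1 o * G o := by
        refine Finset.sum_le_sum fun o _ => ?_
        rw [← Finset.mul_sum]
        exact mul_le_mul_of_nonneg_left (hG o) (hB _ _)

/-- sums over the pieces of all rows -/
theorem st3_rowpieces [Fintype U] (B : U → O → ℝ) (hB : ∀ u o, 0 ≤ B u o)
    (B' : U × Fin m → O × Fin m → ℝ) (hB'B : ∀ v w, B' v w ≤ B v.1 w.1)
    (w : O × Fin m) (g : U → Fin m → ℝ) (hg : ∀ u k, 0 ≤ g u k) (G : U → ℝ)
    (hG : ∀ u, ∑ k, g u k ≤ G u) :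
    ∑ v : U × Fin m, B' v w * g v.1 v.2 ≤ ∑ u, B u w.1 * G u := by
  calc ∑ v : U × Fin m, B' v w * g v.1 v.2 ≤ ∑ v : U × Fin m, B v.1 w.1 * g v.1 v.2 :=
        Finset.sum_le_sum fun v _ => mul_le_mul_of_nonneg_right (hB'B v w) (hg _ _)
    _ = ∑ u, ∑ k : Fin m, B u w.1 * g u k := Fintype.sum_prod_type _
    _ ≤ ∑ u, B u w.1 * G u := by
        refine Finset.sum_le_sum fun u _ => ?_
        rw [← Finset.mul_sum]
        exact mul_le_mul_of_nonneg_left (hG u) (hB _ _)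

end Loads

/-- the freezing step -/
theorem st3_freeze (lam : ℕ) (hlam : 1 ≤ lam) (h R : ℝ) (hp : Par h R) : ∃ C : ℝ, 1 ≤ C ∧
    ∀ (m : ℕ), 1 ≤ m → ∀ (H : Nd → FP ℕ), HostM h m H → ∀ (X : Nd → Nd → ℝ), Harm2 (2 * m) X →
    ∀ {U O : Type} [Fintype U] [Fintype O] (B : U → O → ℝ), (∀ u o, 0 ≤ B u o) →
    ∀ (N : U → Nd) (cl : U → Fin m → Nd) (I1 : O → Nd) (cc : O → Fin m → Nd)
      (A : Finset O) (I : Finset (O × Fin m)) (B' : U × Fin m → O × Fin m → ℝ),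
      (∀ v ∈ I, v.1 ∈ A) → (∀ v w, 0 ≤ B' v w) → (∀ v w, B' v w ≤ B v.1 w.1) →
      (∀ v, ∑ w, B' v w * (X (N v.1) (I1 w.1)) ^ h ≤ 3 * ∑ o, B v.1 o * (X (N v.1) (I1 o)) ^ h) →
    ∃ y : O × Fin m → ℕ, (∀ w, y w ∈ (H (cc w.1 w.2)).S) ∧
      ∑ v : U × Fin m, (∑ w ∈ I, B' v w * (X (N v.1) (0, y w)) ^ h) ^ lam +
      ∑ v : U × Fin m, (∑ w ∈ I, B' v w *
        spk h R (X (N v.1) (0, y w)) (X (cl v.1 v.2) (0, y w))) ^ lam ≤
      C * (m : ℝ) ^ 2 * (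
        ∑ u, (∑ o, B u o * (X (N u) (I1 o)) ^ h) ^ lam +
        ∑ u, (∑ o ∈ A, B u o * tC h R X m (N u) (I1 o) (cc o)) ^ lam +
        ∑ u, (∑ o ∈ A, B u o * tR h R X H m (N u) (cl u) (cc o)) ^ lam +
        ∑ o ∈ A, (∑ u, B u o * (X (N u) (I1 o)) ^ h) ^ lam +
        ∑ o ∈ A, (m * ∑ u, B u o * tC h R X m (N u) (I1 o) (cc o)) ^ lam +
        ∑ o ∈ A, (∑ u, B u o * tR h R X H m (N u) (cl u) (cc o)) ^ lam) := by
  obtain ⟨C, hC1, hC⟩ := rounding lam hlam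
  have hR1 : 1 ≤ R := hp.hR
  have hR0 : 0 ≤ R := by linarith
  have hh0 : 0 ≤ h := by have := hp.hh; linarith
  refine ⟨C * (2 ^ lam * (3 * R) ^ lam + 8 ^ lam * (2 ^ lam * R ^ lam)), ?_, ?_⟩
  · have h1 : (1 : ℝ) ≤ 2 ^ lam := one_le_pow₀ (by norm_num)
    have h2 : (1 : ℝ) ≤ (3 * R) ^ lam := one_le_pow₀ (by linarith)
    have h3 : (0 : ℝ) ≤ 8 ^ lam * (2 ^ lam * R ^ lam) := by positivity
    have h4 : (1 : ℝ) ≤ 2 ^ lam * (3 * R) ^ lam := one_le_mul_of_one_le_of_one_le h1 h2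
    exact one_le_mul_of_one_le_of_one_le hC1 (by linarith)
  intro m hm H hH X hX U O _ _ B hB N cl I1 cc A I B' hIA hB'0 hB'B hst
  -- abbreviations
  set P1 : U → ℝ := fun u => ∑ o, B u o * (X (N u) (I1 o)) ^ h with hP1
  set CU : U → ℝ := fun u => ∑ o ∈ A, B u o * tC h R X m (N u) (I1 o) (cc o) with hCU
  set RU : U → ℝ := fun u => ∑ o ∈ A, B u o * tR h R X H m (N u) (cl u) (cc o) with hRU
  set P2 : O → ℝ := fun o => ∑ u, B u o * (X (N u) (I1 o)) ^ h with hP2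
  set CO : O → ℝ := fun o => ∑ u, B u o * tC h R X m (N u) (I1 o) (cc o) with hCO
  set RO : O → ℝ := fun o => ∑ u, B u o * tR h R X H m (N u) (cl u) (cc o) with hRO
  have hpw : ∀ (a b : Nd), 0 ≤ (X a b) ^ h := fun a b => Real.rpow_nonneg (hX.nn a b) h
  have htC : ∀ u o, 0 ≤ tC h R X m (N u) (I1 o) (cc o) := fun u o => st3_tC_nonneg hX _ _ _
  have htR : ∀ u o, 0 ≤ tR h R X H m (N u) (cl u) (cc o) := fun u o => st3_tR_nonneg hX _ _ _ _
  have hP1n : ∀ u, 0 ≤ P1 u := fun u => Finset.sum_nonneg fun o _ => mul_nonneg (hB _ _) (hpw _ _)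
  have hCUn : ∀ u, 0 ≤ CU u := fun u => Finset.sum_nonneg fun o _ => mul_nonneg (hB _ _) (htC _ _)
  have hRUn : ∀ u, 0 ≤ RU u := fun u => Finset.sum_nonneg fun o _ => mul_nonneg (hB _ _) (htR _ _)
  have hP2n : ∀ o, 0 ≤ P2 o := fun o => Finset.sum_nonneg fun u _ => mul_nonneg (hB _ _) (hpw _ _)
  have hCOn : ∀ o, 0 ≤ CO o := fun o => Finset.sum_nonneg fun u _ => mul_nonneg (hB _ _) (htC _ _)
  have hROn : ∀ o, 0 ≤ RO o := fun o => Finset.sum_nonneg fun u _ => mul_nonneg (hB _ _) (htR _ _)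
  -- the data of the rounding lemma
  let T : O × Fin m → (U × Fin m) × Bool → ℕ → ℝ := fun w v y =>
    if v.2 then B' v.1 w * (X (N v.1.1) (0, y)) ^ h
    else B' v.1 w * spk h R (X (N v.1.1) (0, y)) (X (cl v.1.1 v.1.2) (0, y))
  let Z0 : O × Fin m → ℕ → ℝ := fun w y => ∑ u, B u w.1 * (X (N u) (0, y)) ^ h
  let Z1 : O × Fin m → ℕ → ℝ := fun w y =>
    ∑ u, B u w.1 * ∑ k : Fin m, spk h R (X (N u) (0, y)) (X (cl u k) (0, y))
  let Z : O × Fin m → Fin 3 → ℕ → ℝ := fun w r y => if r = 0 then Z0 w y else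
    if r = 1 then Z1 w y else 0
  let z : O × Fin m → Fin 3 → ℝ := fun w r => if r = 0 then R * P2 w.1 + CO w.1 else
    if r = 1 then RO w.1 else 0
  let a : (U × Fin m) × Bool → ℝ := fun v => if v.2 then 3 * R * P1 v.1.1 + CU v.1.1
    else RU v.1.1
  let β : O × Fin m → ℝ := fun w => m * (8 * (R * P2 w.1 + CO w.1)) ^ lam + (8 * RO w.1) ^ lam
  have hZ0n : ∀ w y, 0 ≤ Z0 w y := fun w y =>
    Finset.sum_nonneg fun u _ => mul_nonneg (hB _ _) (hpw _ _)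
  have hZ1n : ∀ w y, 0 ≤ Z1 w y := fun w y =>
    Finset.sum_nonneg fun u _ => mul_nonneg (hB _ _)
      (Finset.sum_nonneg fun k _ => spk_nonneg (hX.nn _ _))
  have key := hC I (Finset.univ : Finset ((U × Fin m) × Bool)) (fun w => H (cc w.1 w.2)) T Z a z β
    ?_ ?_ ?_ ?_ ?_
  rotate_left
  · -- T nonneg
    intro w v y
    simp only [T]
    split_ifs
    · exact mul_nonneg (hB'0 _ _) (hpw _ _)
    · exact mul_nonneg (hB'0 _ _) (spk_nonneg (hX.nn _ _))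
  · -- Z nonneg
    intro w r y
    simp only [Z]
    split_ifs
    · exact hZ0n w y
    · exact hZ1n w y
    · exact le_rfl
  · -- means of T
    rintro ⟨v, b⟩ _
    cases b
    · simp only [T, a, Bool.false_eq_true, if_false]
      calc ∑ w ∈ I, (H (cc w.1 w.2)).E (fun y => B' v w *
            spk h R (X (N v.1) (0, y)) (X (cl v.1 v.2) (0, y)))
          = ∑ w ∈ I, B' v w * (H (cc w.1 w.2)).E (fun y =>
            spk h R (X (N v.1) (0, y)) (X (cl v.1 v.2) (0, y))) := by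
            exact Finset.sum_congr rfl fun w _ => st3_E_mul _ _ _
        _ ≤ RU v.1 := by
            exact st3_pieces B hB B' hB'B A I hIA v (fun o l => (H (cc o l)).E (fun y =>
              spk h R (X (N v.1) (0, y)) (X (cl v.1 v.2) (0, y))))
              (fun o l => st3_E_nonneg _ fun _ => spk_nonneg (hX.nn _ _))
              (fun o => tR h R X H m (N v.1) (cl v.1) (cc o))
              fun o => st3_le_tR' hX H (N v.1) (cl v.1) (cc o) v.2
    · simp only [T, a, if_true]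
      have e1 : ∀ w ∈ I, (H (cc w.1 w.2)).E (fun y => B' v w * (X (N v.1) (0, y)) ^ h) ≤
          R * (B' v w * (X (N v.1) (I1 w.1)) ^ h) + B' v w *
            spk h R (X (N v.1) (I1 w.1)) (X (N v.1) (cc w.1 w.2)) := by
        intro w _
        rw [st3_E_mul]
        have h1 := hH.P4 (X (N v.1)) (hX.col _) (cc w.1 w.2)
        have h2 := pow_le_spk hh0 hp.hh1.le hR1 (hX.nn (N v.1) (I1 w.1))
          (hX.nn (N v.1) (cc w.1 w.2))
        have h3 := mul_le_mul_of_nonneg_left (h1.trans h2) (hB'0 v w)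
        linarith
      refine (Finset.sum_le_sum e1).trans ?_
      rw [Finset.sum_add_distrib, ← Finset.mul_sum]
      have e2 : ∑ w ∈ I, B' v w * (X (N v.1) (I1 w.1)) ^ h ≤ 3 * P1 v.1 := by
        refine le_trans ?_ (hst v)
        exact Finset.sum_le_sum_of_subset_of_nonneg (Finset.subset_univ _)
          fun w _ _ => mul_nonneg (hB'0 _ _) (hpw _ _)
      have e3 : ∑ w ∈ I, B' v w * spk h R (X (N v.1) (I1 w.1)) (X (N v.1) (cc w.1 w.2)) ≤
          CU v.1 :=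
        st3_pieces B hB B' hB'B A I hIA v
          (fun o l => spk h R (X (N v.1) (I1 o)) (X (N v.1) (cc o l)))
          (fun o l => spk_nonneg (hX.nn _ _))
          (fun o => tC h R X m (N v.1) (I1 o) (cc o)) fun o => le_rfl
      have e4 := mul_le_mul_of_nonneg_left e2 hR0
      linarith
  · -- means of Z
    intro w hw r
    have hr : r = 0 ∨ r = 1 ∨ r = 2 := by omega
    rcases hr with rfl | rfl | rfl
    · simp only [Z, z, if_true, Z0]
      rw [st3_E_sum]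
      have e1 : ∀ u ∈ (Finset.univ : Finset U),
          (H (cc w.1 w.2)).E (fun y => B u w.1 * (X (N u) (0, y)) ^ h) ≤
          R * (B u w.1 * (X (N u) (I1 w.1)) ^ h) + B u w.1 *
            tC h R X m (N u) (I1 w.1) (cc w.1) := by
        intro u _
        rw [st3_E_mul]
        have h1 := hH.P4 (X (N u)) (hX.col _) (cc w.1 w.2)
        have h2 := pow_le_spk hh0 hp.hh1.le hR1 (hX.nn (N u) (I1 w.1))
          (hX.nn (N u) (cc w.1 w.2))
        have h4 := st3_le_tC (h := h) (R := R) hX (N u) (I1 w.1) (cc w.1) w.2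
        have h3 := mul_le_mul_of_nonneg_left (h1.trans (h2.trans (add_le_add_right h4 _)))
          (hB u w.1)
        linarith
      refine (Finset.sum_le_sum e1).trans ?_
      rw [Finset.sum_add_distrib, ← Finset.mul_sum]
    · simp only [Z, z, Z1, one_ne_zero, if_false, if_true]
      rw [st3_E_sum]
      refine Finset.sum_le_sum fun u _ => ?_
      rw [st3_E_mul, st3_E_sum]
      exact mul_le_mul_of_nonneg_left (st3_le_tRl' hX H (N u) (cl u) (cc w.1) w.2) (hB _ _)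
    · have h20 : ¬ (2 : Fin 3) = 0 := by decide
      have h21 : ¬ (2 : Fin 3) = 1 := by decide
      simp only [Z, z, h20, h21, if_false]
      unfold FP.E
      simp
  · -- beta
    intro w hw y _ hy
    have hz0 : Z0 w y ≤ 8 * (R * P2 w.1 + CO w.1) := by
      have := hy 0
      simpa [Z, z] using this
    have hz1 : Z1 w y ≤ 8 * RO w.1 := by
      have := hy 1
      simpa [Z, z] using this
    rw [Fintype.sum_prod_type]
    simp only [Fintype.sum_bool, T, Bool.false_eq_true, if_false, if_true, Finset.sum_add_distrib,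
      β]
    refine add_le_add ?_ ?_
    · -- for every k
      rw [Fintype.sum_prod_type, Finset.sum_comm]
      have e1 : ∀ k ∈ (Finset.univ : Finset (Fin m)),
          ∑ u, (B' (u, k) w * (X (N u) (0, y)) ^ h) ^ lam ≤
            (8 * (R * P2 w.1 + CO w.1)) ^ lam := by
        intro k _
        refine (st3_pow_sum _ _ (fun u _ => mul_nonneg (hB'0 _ _) (hpw _ _)) hlam).trans ?_
        refine pow_le_pow_left₀ (Finset.sum_nonneg fun u _ => mul_nonneg (hB'0 _ _) (hpw _ _)) ?_ _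
        refine le_trans ?_ hz0
        exact Finset.sum_le_sum fun u _ =>
          mul_le_mul_of_nonneg_right (hB'B (u, k) w) (hpw _ _)
      refine (Finset.sum_le_sum e1).trans ?_
      simp
    · refine (st3_pow_sum _ _ (fun v _ => mul_nonneg (hB'0 _ _) (spk_nonneg (hX.nn _ _)))
        hlam).trans ?_
      refine pow_le_pow_left₀ (Finset.sum_nonneg fun v _ =>
        mul_nonneg (hB'0 _ _) (spk_nonneg (hX.nn _ _))) ?_ _
      refine le_trans ?_ hz1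
      exact st3_rowpieces B hB B' hB'B w
        (fun u k => spk h R (X (N u) (0, y)) (X (cl u k) (0, y)))
        (fun u k => spk_nonneg (hX.nn _ _))
        (fun u => ∑ k : Fin m, spk h R (X (N u) (0, y)) (X (cl u k) (0, y))) fun u => le_rfl
  obtain ⟨y, hy1, -, hy3⟩ := key
  refine ⟨y, hy1, ?_⟩
  have hm1 : (1 : ℝ) ≤ m := by exact_mod_cast hm
  -- left side
  have hL : ∑ k : (U × Fin m) × Bool, (∑ i ∈ I, T i k (y i)) ^ lam =
      ∑ v : U × Fin m, (∑ w ∈ I, B' v w * (X (N v.1) (0, y w)) ^ h) ^ lam +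
      ∑ v : U × Fin m, (∑ w ∈ I, B' v w *
        spk h R (X (N v.1) (0, y w)) (X (cl v.1 v.2) (0, y w))) ^ lam := by
    rw [Fintype.sum_prod_type]
    simp only [Fintype.sum_bool, T, Bool.false_eq_true, if_false, if_true,
      Finset.sum_add_distrib]
  rw [hL] at hy3
  refine hy3.trans ?_
  -- the sum of the a's
  have hA : ∑ k : (U × Fin m) × Bool, (a k) ^ lam ≤
      m * (2 ^ lam * (3 * R) ^ lam * (∑ u, P1 u ^ lam + ∑ u, CU u ^ lam) + ∑ u, RU u ^ lam) := by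
    rw [Fintype.sum_prod_type]
    simp only [Fintype.sum_bool, a, Bool.false_eq_true, if_false, if_true,
      Finset.sum_add_distrib]
    rw [st3_rows (fun u => (3 * R * P1 u + CU u) ^ lam), st3_rows (fun u => (RU u) ^ lam),
      ← mul_add]
    refine mul_le_mul_of_nonneg_left ?_ (by linarith)
    refine add_le_add ?_ le_rfl
    rw [← Finset.sum_add_distrib, Finset.mul_sum]
    refine Finset.sum_le_sum fun u _ => ?_
    have h1 : 0 ≤ 3 * R * P1 u := mul_nonneg (by linarith) (hP1n u)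
    refine (st3_add2 lam h1 (hCUn u)).trans ?_
    rw [mul_assoc (2 ^ lam) ((3 * R) ^ lam)]
    refine mul_le_mul_of_nonneg_left ?_ (pow_nonneg (by norm_num) _)
    rw [mul_pow (3 * R) (P1 u)]
    have h2 : (1 : ℝ) ≤ (3 * R) ^ lam := one_le_pow₀ (by linarith)
    have h3 : 0 ≤ CU u ^ lam := pow_nonneg (hCUn u) _
    nlinarith
  have hBs : ∑ w ∈ I, β w ≤ m ^ 2 * (8 ^ lam * (2 ^ lam * R ^ lam) *
      (∑ o ∈ A, P2 o ^ lam + ∑ o ∈ A, CO o ^ lam) + 8 ^ lam * ∑ o ∈ A, RO o ^ lam) := by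
    have e1 : ∑ w ∈ I, β w ≤ ∑ o ∈ A, ∑ l : Fin m,
        (m * (8 * (R * P2 o + CO o)) ^ lam + (8 * RO o) ^ lam) :=
      st3_prod_le A I hIA (fun o _ => m * (8 * (R * P2 o + CO o)) ^ lam + (8 * RO o) ^ lam)
        fun o _ => by
          have := hP2n o
          have := hCOn o
          have := hROn o
          positivity
    refine e1.trans ?_
    rw [Finset.mul_sum, ← Finset.sum_add_distrib, Finset.mul_sum, ← Finset.sum_add_distrib,
      Finset.mul_sum]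
    refine Finset.sum_le_sum fun o _ => ?_
    rw [Finset.sum_const, Finset.card_univ, Fintype.card_fin, nsmul_eq_mul]
    have h1 : (8 * (R * P2 o + CO o)) ^ lam ≤
        8 ^ lam * (2 ^ lam * R ^ lam) * (P2 o ^ lam + CO o ^ lam) := by
      rw [mul_pow, mul_assoc, mul_assoc]
      refine mul_le_mul_of_nonneg_left ?_ (by positivity)
      refine (st3_add2 lam (mul_nonneg hR0 (hP2n o)) (hCOn o)).trans ?_
      refine mul_le_mul_of_nonneg_left ?_ (by positivity)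
      rw [mul_pow]
      have h2 : (1 : ℝ) ≤ R ^ lam := one_le_pow₀ hR1
      have h3 : 0 ≤ CO o ^ lam := pow_nonneg (hCOn o) _
      nlinarith
    have h2 : (8 * RO o) ^ lam = 8 ^ lam * RO o ^ lam := mul_pow _ _ _
    have h4 : 0 ≤ 8 ^ lam * RO o ^ lam := by
      have := hROn o
      positivity
    have h5 : (m : ℝ) * (8 ^ lam * RO o ^ lam) ≤ m ^ 2 * (8 ^ lam * RO o ^ lam) := by
      refine mul_le_mul_of_nonneg_right ?_ h4
      nlinarith
    have h6 : (m : ℝ) ^ 2 * (8 * (R * P2 o + CO o)) ^ lam ≤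
        m ^ 2 * (8 ^ lam * (2 ^ lam * R ^ lam) * (P2 o ^ lam + CO o ^ lam)) :=
      mul_le_mul_of_nonneg_left h1 (by positivity)
    rw [h2]
    nlinarith
  have hCO' : ∑ o ∈ A, CO o ^ lam ≤ ∑ o ∈ A, (m * CO o) ^ lam := by
    refine Finset.sum_le_sum fun o _ => ?_
    refine pow_le_pow_left₀ (hCOn o) ?_ _
    have := hCOn o
    nlinarith
  have s1 : 0 ≤ ∑ u, P1 u ^ lam := Finset.sum_nonneg fun u _ => pow_nonneg (hP1n u) _
  have s2 : 0 ≤ ∑ u, CU u ^ lam := Finset.sum_nonneg fun u _ => pow_nonneg (hCUn u) _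
  have s3 : 0 ≤ ∑ u, RU u ^ lam := Finset.sum_nonneg fun u _ => pow_nonneg (hRUn u) _
  have s4 : 0 ≤ ∑ o ∈ A, P2 o ^ lam := Finset.sum_nonneg fun o _ => pow_nonneg (hP2n o) _
  have s5 : 0 ≤ ∑ o ∈ A, CO o ^ lam := Finset.sum_nonneg fun o _ => pow_nonneg (hCOn o) _
  have s6 : 0 ≤ ∑ o ∈ A, RO o ^ lam := Finset.sum_nonneg fun o _ => pow_nonneg (hROn o) _
  have k1 : (1 : ℝ) ≤ 2 ^ lam * (3 * R) ^ lam :=
    one_le_mul_of_one_le_of_one_le (one_le_pow₀ (by norm_num)) (one_le_pow₀ (by linarith))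
  have k2 : (8 : ℝ) ^ lam ≤ 8 ^ lam * (2 ^ lam * R ^ lam) :=
    le_mul_of_one_le_right (by positivity)
      (one_le_mul_of_one_le_of_one_le (one_le_pow₀ (by norm_num)) (one_le_pow₀ hR1))
  have k3 : (0 : ℝ) ≤ 8 ^ lam := by positivity
  generalize (2 : ℝ) ^ lam * (3 * R) ^ lam = K1 at *
  generalize (8 : ℝ) ^ lam * (2 ^ lam * R ^ lam) = K2 at *
  generalize (8 : ℝ) ^ lam = K3 at *
  have hCO0 : 0 ≤ C := by linarith
  rw [mul_assoc C, mul_assoc C]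
  refine mul_le_mul_of_nonneg_left ?_ hCO0
  have hAm : m * (K1 * (∑ u, P1 u ^ lam + ∑ u, CU u ^ lam) + ∑ u, RU u ^ lam) ≤
      (m : ℝ) ^ 2 * (K1 * (∑ u, P1 u ^ lam + ∑ u, CU u ^ lam) + ∑ u, RU u ^ lam) := by
    refine mul_le_mul_of_nonneg_right (by nlinarith) ?_
    have : 0 ≤ K1 * (∑ u, P1 u ^ lam + ∑ u, CU u ^ lam) := by positivity
    linarith
  have hfin : K1 * (∑ u, P1 u ^ lam + ∑ u, CU u ^ lam) + ∑ u, RU u ^ lam +
      (K2 * (∑ o ∈ A, P2 o ^ lam + ∑ o ∈ A, CO o ^ lam) + K3 * ∑ o ∈ A, RO o ^ lam) ≤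
      (K1 + K2) * (∑ u, P1 u ^ lam + ∑ u, CU u ^ lam + ∑ u, RU u ^ lam +
        ∑ o ∈ A, P2 o ^ lam + ∑ o ∈ A, (m * CO o) ^ lam + ∑ o ∈ A, RO o ^ lam) := by
    have q1 : 0 ≤ K2 := by linarith
    have q2 : ∑ u, RU u ^ lam ≤ (K1 + K2) * ∑ u, RU u ^ lam :=
      le_mul_of_one_le_left s3 (by linarith)
    have q3 : K3 * ∑ o ∈ A, RO o ^ lam ≤ (K1 + K2) * ∑ o ∈ A, RO o ^ lam :=
      mul_le_mul_of_nonneg_right (by linarith) s6
    have q4 : K1 * (∑ u, P1 u ^ lam + ∑ u, CU u ^ lam) ≤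
        (K1 + K2) * (∑ u, P1 u ^ lam + ∑ u, CU u ^ lam) :=
      mul_le_mul_of_nonneg_right (by linarith) (by linarith)
    have q5 : K2 * (∑ o ∈ A, P2 o ^ lam + ∑ o ∈ A, CO o ^ lam) ≤
        (K1 + K2) * (∑ o ∈ A, P2 o ^ lam + ∑ o ∈ A, (m * CO o) ^ lam) :=
      mul_le_mul (by linarith) (by linarith) (by linarith) (by linarith)
    nlinarith
  have hfin2 := mul_le_mul_of_nonneg_left hfin (show (0 : ℝ) ≤ (m : ℝ) ^ 2 by positivity)
  have hsum : ∑ k : (U × Fin m) × Bool, (a k) ^ lam + ∑ w ∈ I, β w ≤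
      (m : ℝ) ^ 2 * (K1 * (∑ u, P1 u ^ lam + ∑ u, CU u ^ lam) + ∑ u, RU u ^ lam +
      (K2 * (∑ o ∈ A, P2 o ^ lam + ∑ o ∈ A, CO o ^ lam) + K3 * ∑ o ∈ A, RO o ^ lam)) := by
    linarith
  refine (hsum.trans hfin2).trans (le_of_eq ?_)
  ring

open Classical in
theorem stage3 (lam : ℕ) (hlam : 1 ≤ lam) (h R : ℝ) (hp : Par h R) : ∃ C : ℝ, 1 ≤ C ∧
    ∀ (m : ℕ), 1 ≤ m → ∀ (H : Nd → FP ℕ), HostM h m H → ∀ (X : Nd → Nd → ℝ), Harm2 (2 * m) X →
    ∀ {U O : Type} [Fintype U] [Fintype O] (B : U → O → ℝ), (∀ u o, 0 ≤ B u o) →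
    ∀ (N : U → Nd) (cl : U → Fin m → Nd) (I1 : O → Nd) (cc : O → Fin m → Nd)
      (A : Finset O) (A' : Finset (O × Fin m)) (B' : U × Fin m → O × Fin m → ℝ),
      (∀ v ∈ A', v.1 ∈ A) → (∀ v w, 0 ≤ B' v w) → (∀ v w, B' v w ≤ B v.1 w.1) →
      (∀ v, ∑ w, B' v w * (X (N v.1) (I1 w.1)) ^ h ≤ 3 * ∑ o, B v.1 o * (X (N v.1) (I1 o)) ^ h) →
      (∀ w ∈ A', ∑ v, B' v w * (X (N v.1) (I1 w.1)) ^ h ≤
        3 * ∑ u, B u w.1 * (X (N u) (I1 w.1)) ^ h) →
    ∃ y : O × Fin m → ℕ, (∀ w, y w ∈ (H (cc w.1 w.2)).S) ∧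
      ∑ v : U × Fin m, (∑ w : O × Fin m, B' v w * (X (cl v.1 v.2)
          (if w.1 ∈ A then (if w ∈ A' then cc w.1 w.2 else (0, y w)) else I1 w.1)) ^ h) ^ lam +
        ∑ w ∈ A', (∑ v : U × Fin m, B' v w * (X (cl v.1 v.2) (cc w.1 w.2)) ^ h) ^ lam ≤
      C * (m : ℝ) ^ 2 * (
        ∑ u, (∑ o, B u o * (X (N u) (I1 o)) ^ h) ^ lam +
        ∑ u, (∑ o ∈ A, B u o * tC h R X m (N u) (I1 o) (cc o)) ^ lam +
        ∑ u, (∑ o ∈ A, B u o * tR h R X H m (N u) (cl u) (cc o)) ^ lam +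
        ∑ u, (m * ∑ o ∈ Aᶜ, B u o * ∑ k : Fin m, spk h R (X (N u) (I1 o)) (X (cl u k) (I1 o))) ^ lam +
        ∑ o ∈ A, (∑ u, B u o * (X (N u) (I1 o)) ^ h) ^ lam +
        ∑ o ∈ A, (m * ∑ u, B u o * tC h R X m (N u) (I1 o) (cc o)) ^ lam +
        ∑ o ∈ A, (∑ u, B u o * tR h R X H m (N u) (cl u) (cc o)) ^ lam) := by
  obtain ⟨C, hC1, hC⟩ := st3_freeze lam hlam h R hp
  have hR1 : 1 ≤ R := hp.hR
  have hR0 : 0 ≤ R := by linarith
  have hh0 : 0 ≤ h := by have := hp.hh; linarith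
  refine ⟨8 ^ lam * ((3 * R ^ 2) ^ lam + R ^ lam) * (C + 2), ?_, ?_⟩
  · have h1 : (1 : ℝ) ≤ 8 ^ lam := one_le_pow₀ (by norm_num)
    have h2 : (1 : ℝ) ≤ (3 * R ^ 2) ^ lam := one_le_pow₀ (by nlinarith)
    have h3 : (0 : ℝ) ≤ R ^ lam := by positivity
    exact one_le_mul_of_one_le_of_one_le (one_le_mul_of_one_le_of_one_le h1 (by linarith))
      (by linarith)
  intro m hm H hH X hX U O _ _ B hB N cl I1 cc A A' B' hA'A hB'0 hB'B hst hst2
  obtain ⟨y, hy1, hy2⟩ := hC m hm H hH X hX B hB N cl I1 cc A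
    (Finset.univ.filter fun w => w.1 ∈ A ∧ w ∉ A') B'
    (fun w hw => (Finset.mem_filter.1 hw).2.1) hB'0 hB'B hst
  refine ⟨y, hy1, ?_⟩
  have hm1 : (1 : ℝ) ≤ m := by exact_mod_cast hm
  have hpw : ∀ (a b : Nd), 0 ≤ (X a b) ^ h := fun a b => Real.rpow_nonneg (hX.nn a b) h
  have hspk : ∀ (a b c d : Nd), 0 ≤ spk h R (X a b) (X c d) := fun a b c d =>
    spk_nonneg (hX.nn _ _)
  have htC : ∀ u o, 0 ≤ tC h R X m (N u) (I1 o) (cc o) := fun u o => st3_tC_nonneg hX _ _ _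
  have htR : ∀ u o, 0 ≤ tR h R X H m (N u) (cl u) (cc o) := fun u o => st3_tR_nonneg hX _ _ _ _
  -- abbreviations
  obtain ⟨P1, hP1⟩ : ∃ P1 : U → ℝ, P1 = fun u => ∑ o, B u o * (X (N u) (I1 o)) ^ h := ⟨_, rfl⟩
  obtain ⟨CU, hCU⟩ : ∃ CU : U → ℝ, CU = fun u =>
    ∑ o ∈ A, B u o * tC h R X m (N u) (I1 o) (cc o) := ⟨_, rfl⟩
  obtain ⟨RU, hRU⟩ : ∃ RU : U → ℝ, RU = fun u =>
    ∑ o ∈ A, B u o * tR h R X H m (N u) (cl u) (cc o) := ⟨_, rfl⟩
  obtain ⟨SU, hSU⟩ : ∃ SU : U → ℝ, SU = fun u => m * ∑ o ∈ Aᶜ, B u o *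
    ∑ k : Fin m, spk h R (X (N u) (I1 o)) (X (cl u k) (I1 o)) := ⟨_, rfl⟩
  obtain ⟨P2, hP2⟩ : ∃ P2 : O → ℝ, P2 = fun o => ∑ u, B u o * (X (N u) (I1 o)) ^ h := ⟨_, rfl⟩
  obtain ⟨CO, hCO⟩ : ∃ CO : O → ℝ, CO = fun o =>
    m * ∑ u, B u o * tC h R X m (N u) (I1 o) (cc o) := ⟨_, rfl⟩
  obtain ⟨RO, hRO⟩ : ∃ RO : O → ℝ, RO = fun o =>
    ∑ u, B u o * tR h R X H m (N u) (cl u) (cc o) := ⟨_, rfl⟩
  obtain ⟨F1, hF1⟩ : ∃ F1 : U × Fin m → ℝ, F1 = fun v =>
    ∑ w ∈ Finset.univ.filter (fun w : O × Fin m => w.1 ∈ A ∧ w ∉ A'),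
      B' v w * (X (N v.1) (0, y w)) ^ h := ⟨_, rfl⟩
  obtain ⟨F2, hF2⟩ : ∃ F2 : U × Fin m → ℝ, F2 = fun v =>
    ∑ w ∈ Finset.univ.filter (fun w : O × Fin m => w.1 ∈ A ∧ w ∉ A'),
      B' v w * spk h R (X (N v.1) (0, y w)) (X (cl v.1 v.2) (0, y w)) := ⟨_, rfl⟩
  have hP1n : ∀ u, 0 ≤ P1 u := fun u => by
    rw [hP1]; exact Finset.sum_nonneg fun o _ => mul_nonneg (hB _ _) (hpw _ _)
  have hCUn : ∀ u, 0 ≤ CU u := fun u => by
    rw [hCU]; exact Finset.sum_nonneg fun o _ => mul_nonneg (hB _ _) (htC _ _)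
  have hRUn : ∀ u, 0 ≤ RU u := fun u => by
    rw [hRU]; exact Finset.sum_nonneg fun o _ => mul_nonneg (hB _ _) (htR _ _)
  have hSUn : ∀ u, 0 ≤ SU u := fun u => by
    rw [hSU]; exact mul_nonneg (by linarith) (Finset.sum_nonneg fun o _ => mul_nonneg (hB _ _)
      (Finset.sum_nonneg fun k _ => hspk _ _ _ _))
  have hP2n : ∀ o, 0 ≤ P2 o := fun o => by
    rw [hP2]; exact Finset.sum_nonneg fun u _ => mul_nonneg (hB _ _) (hpw _ _)
  have hCOn : ∀ o, 0 ≤ CO o := fun o => by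
    rw [hCO]; exact mul_nonneg (by linarith)
      (Finset.sum_nonneg fun u _ => mul_nonneg (hB _ _) (htC _ _))
  have hROn : ∀ o, 0 ≤ RO o := fun o => by
    rw [hRO]; exact Finset.sum_nonneg fun u _ => mul_nonneg (hB _ _) (htR _ _)
  have hF1n : ∀ v, 0 ≤ F1 v := fun v => by
    rw [hF1]; exact Finset.sum_nonneg fun w _ => mul_nonneg (hB'0 _ _) (hpw _ _)
  have hF2n : ∀ v, 0 ≤ F2 v := fun v => by
    rw [hF2]; exact Finset.sum_nonneg fun w _ => mul_nonneg (hB'0 _ _) (hspk _ _ _ _)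
  -- the rows
  have hrow : ∀ v : U × Fin m, ∑ w : O × Fin m, B' v w * (X (cl v.1 v.2)
      (if w.1 ∈ A then (if w ∈ A' then cc w.1 w.2 else (0, y w)) else I1 w.1)) ^ h ≤
      3 * R ^ 2 * P1 v.1 + R * CU v.1 + RU v.1 + SU v.1 + R * F1 v + F2 v := by
    intro v
    have hpt : ∀ w ∈ (Finset.univ : Finset (O × Fin m)), B' v w * (X (cl v.1 v.2)
        (if w.1 ∈ A then (if w ∈ A' then cc w.1 w.2 else (0, y w)) else I1 w.1)) ^ h ≤
        R ^ 2 * (B' v w * (X (N v.1) (I1 w.1)) ^ h) +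
        R * (if w.1 ∈ A then B' v w *
          spk h R (X (N v.1) (I1 w.1)) (X (N v.1) (cc w.1 w.2)) else 0) +
        (if w.1 ∈ A then B' v w *
          spk h R (X (N v.1) (cc w.1 w.2)) (X (cl v.1 v.2) (cc w.1 w.2)) else 0) +
        (if w.1 ∈ Aᶜ then B' v w *
          spk h R (X (N v.1) (I1 w.1)) (X (cl v.1 v.2) (I1 w.1)) else 0) +
        R * (if w.1 ∈ A ∧ w ∉ A' then B' v w * (X (N v.1) (0, y w)) ^ h else 0) +
        (if w.1 ∈ A ∧ w ∉ A' then B' v w *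
          spk h R (X (N v.1) (0, y w)) (X (cl v.1 v.2) (0, y w)) else 0) := by
      intro w _
      have q0 : 0 ≤ B' v w * (X (N v.1) (I1 w.1)) ^ h := mul_nonneg (hB'0 _ _) (hpw _ _)
      have q1 : 0 ≤ B' v w * spk h R (X (N v.1) (I1 w.1)) (X (N v.1) (cc w.1 w.2)) :=
        mul_nonneg (hB'0 _ _) (hspk _ _ _ _)
      have q2 : 0 ≤ B' v w *
          spk h R (X (N v.1) (cc w.1 w.2)) (X (cl v.1 v.2) (cc w.1 w.2)) :=
        mul_nonneg (hB'0 _ _) (hspk _ _ _ _)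
      have q1' := mul_nonneg hR0 q1
      have q0' := mul_nonneg (pow_nonneg hR0 2) q0
      by_cases h1 : w.1 ∈ A
      · have h1c : w.1 ∉ Aᶜ := by simpa using h1
        by_cases h2 : w ∈ A'
        · have h3 : ¬ (w.1 ∈ A ∧ w ∉ A') := fun hh => hh.2 h2
          rw [if_pos h1, if_pos h2, if_pos h1, if_pos h1, if_neg h1c, if_neg h3, if_neg h3]
          have h4 := mul_le_mul_of_nonneg_left (st3_three hp (hX.nn (N v.1) (I1 w.1))
            (hX.nn (N v.1) (cc w.1 w.2)) (hX.nn (cl v.1 v.2) (cc w.1 w.2))) (hB'0 v w)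
          linarith
        · have h3 : w.1 ∈ A ∧ w ∉ A' := ⟨h1, h2⟩
          rw [if_pos h1, if_neg h2, if_pos h1, if_pos h1, if_neg h1c, if_pos h3, if_pos h3]
          have h4 := mul_le_mul_of_nonneg_left (pow_le_spk hh0 hp.hh1.le hR1
            (hX.nn (N v.1) (0, y w)) (hX.nn (cl v.1 v.2) (0, y w))) (hB'0 v w)
          linarith
      · have h1c : w.1 ∈ Aᶜ := by simpa using h1
        have h3 : ¬ (w.1 ∈ A ∧ w ∉ A') := fun hh => h1 hh.1
        rw [if_neg h1, if_neg h1, if_neg h1, if_pos h1c, if_neg h3, if_neg h3]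
        have h4 := mul_le_mul_of_nonneg_left (pow_le_spk hh0 hp.hh1.le hR1
          (hX.nn (N v.1) (I1 w.1)) (hX.nn (cl v.1 v.2) (I1 w.1))) (hB'0 v w)
        have h5 : R * (B' v w * (X (N v.1) (I1 w.1)) ^ h) ≤
            R ^ 2 * (B' v w * (X (N v.1) (I1 w.1)) ^ h) :=
          mul_le_mul_of_nonneg_right (by nlinarith) q0
        linarith
    refine (Finset.sum_le_sum hpt).trans ?_
    rw [Finset.sum_add_distrib, Finset.sum_add_distrib, Finset.sum_add_distrib,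
      Finset.sum_add_distrib, Finset.sum_add_distrib, ← Finset.mul_sum, ← Finset.mul_sum,
      ← Finset.mul_sum, ← Finset.sum_filter, ← Finset.sum_filter, ← Finset.sum_filter,
      ← Finset.sum_filter, ← Finset.sum_filter]
    have e1 : ∑ w, B' v w * (X (N v.1) (I1 w.1)) ^ h ≤ 3 * P1 v.1 := by
      rw [hP1]; exact hst v
    have e2 : ∑ w ∈ Finset.univ.filter (fun w : O × Fin m => w.1 ∈ A), B' v w *
        spk h R (X (N v.1) (I1 w.1)) (X (N v.1) (cc w.1 w.2)) ≤ CU v.1 := by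
      rw [hCU]
      exact st3_pieces B hB B' hB'B A _ (fun w hw => (Finset.mem_filter.1 hw).2) v
        (fun o l => spk h R (X (N v.1) (I1 o)) (X (N v.1) (cc o l)))
        (fun o l => hspk _ _ _ _) (fun o => tC h R X m (N v.1) (I1 o) (cc o)) fun o => le_rfl
    have e3 : ∑ w ∈ Finset.univ.filter (fun w : O × Fin m => w.1 ∈ A), B' v w *
        spk h R (X (N v.1) (cc w.1 w.2)) (X (cl v.1 v.2) (cc w.1 w.2)) ≤ RU v.1 := by
      rw [hRU]
      exact st3_pieces B hB B' hB'B A _ (fun w hw => (Finset.mem_filter.1 hw).2) v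
        (fun o l => spk h R (X (N v.1) (cc o l)) (X (cl v.1 v.2) (cc o l)))
        (fun o l => hspk _ _ _ _) (fun o => tR h R X H m (N v.1) (cl v.1) (cc o))
        fun o => st3_le_tR hX H (N v.1) (cl v.1) (cc o) v.2
    have e4 : ∑ w ∈ Finset.univ.filter (fun w : O × Fin m => w.1 ∈ Aᶜ), B' v w *
        spk h R (X (N v.1) (I1 w.1)) (X (cl v.1 v.2) (I1 w.1)) ≤ SU v.1 := by
      have e5 := st3_pieces B hB B' hB'B Aᶜ (Finset.univ.filter
        (fun w : O × Fin m => w.1 ∈ Aᶜ)) (fun w hw => (Finset.mem_filter.1 hw).2) v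
        (fun o _ => spk h R (X (N v.1) (I1 o)) (X (cl v.1 v.2) (I1 o)))
        (fun o l => hspk _ _ _ _)
        (fun o => m * ∑ k : Fin m, spk h R (X (N v.1) (I1 o)) (X (cl v.1 k) (I1 o)))
        fun o => by
          rw [Finset.sum_const, Finset.card_univ, Fintype.card_fin, nsmul_eq_mul]
          refine mul_le_mul_of_nonneg_left ?_ (by linarith)
          exact Finset.single_le_sum
            (f := fun k => spk h R (X (N v.1) (I1 o)) (X (cl v.1 k) (I1 o)))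
            (fun k _ => hspk _ _ _ _) (Finset.mem_univ v.2)
      refine e5.trans (le_of_eq ?_)
      rw [hSU]
      simp only
      rw [Finset.mul_sum]
      exact Finset.sum_congr rfl fun o _ => by ring
    have e6 := mul_le_mul_of_nonneg_left e1 (pow_nonneg hR0 2)
    have e7 := mul_le_mul_of_nonneg_left e2 hR0
    have e8 : F1 v = ∑ w ∈ Finset.univ.filter (fun w : O × Fin m => w.1 ∈ A ∧ w ∉ A'),
      B' v w * (X (N v.1) (0, y w)) ^ h := by rw [hF1]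
    have e9 : F2 v = ∑ w ∈ Finset.univ.filter (fun w : O × Fin m => w.1 ∈ A ∧ w ∉ A'),
      B' v w * spk h R (X (N v.1) (0, y w)) (X (cl v.1 v.2) (0, y w)) := by rw [hF2]
    rw [← e8, ← e9]
    linarith
  -- the columns
  have hcol : ∀ w ∈ A', ∑ v : U × Fin m, B' v w * (X (cl v.1 v.2) (cc w.1 w.2)) ^ h ≤
      3 * R ^ 2 * P2 w.1 + R * CO w.1 + RO w.1 := by
    intro w hw
    have hpt : ∀ v ∈ (Finset.univ : Finset (U × Fin m)),
        B' v w * (X (cl v.1 v.2) (cc w.1 w.2)) ^ h ≤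
        R ^ 2 * (B' v w * (X (N v.1) (I1 w.1)) ^ h) +
        R * (B' v w * spk h R (X (N v.1) (I1 w.1)) (X (N v.1) (cc w.1 w.2))) +
        B' v w * spk h R (X (N v.1) (cc w.1 w.2)) (X (cl v.1 v.2) (cc w.1 w.2)) := by
      intro v _
      have h4 := mul_le_mul_of_nonneg_left (st3_three hp (hX.nn (N v.1) (I1 w.1))
        (hX.nn (N v.1) (cc w.1 w.2)) (hX.nn (cl v.1 v.2) (cc w.1 w.2))) (hB'0 v w)
      linarith
    refine (Finset.sum_le_sum hpt).trans ?_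
    rw [Finset.sum_add_distrib, Finset.sum_add_distrib, ← Finset.mul_sum, ← Finset.mul_sum]
    have e1 : ∑ v : U × Fin m, B' v w * (X (N v.1) (I1 w.1)) ^ h ≤ 3 * P2 w.1 := by
      rw [hP2]; exact hst2 w hw
    have e2 : ∑ v : U × Fin m, B' v w *
        spk h R (X (N v.1) (I1 w.1)) (X (N v.1) (cc w.1 w.2)) ≤ CO w.1 := by
      have e5 := st3_rowpieces B hB B' hB'B w
        (fun u _ => spk h R (X (N u) (I1 w.1)) (X (N u) (cc w.1 w.2)))
        (fun u k => hspk _ _ _ _) (fun u => m * tC h R X m (N u) (I1 w.1) (cc w.1))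
        fun u => by
          rw [Finset.sum_const, Finset.card_univ, Fintype.card_fin, nsmul_eq_mul]
          exact mul_le_mul_of_nonneg_left (st3_le_tC hX (N u) (I1 w.1) (cc w.1) w.2)
            (by linarith)
      refine e5.trans (le_of_eq ?_)
      rw [hCO]
      simp only
      rw [Finset.mul_sum]
      exact Finset.sum_congr rfl fun u _ => by ring
    have e3 : ∑ v : U × Fin m, B' v w *
        spk h R (X (N v.1) (cc w.1 w.2)) (X (cl v.1 v.2) (cc w.1 w.2)) ≤ RO w.1 := by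
      rw [hRO]
      exact st3_rowpieces B hB B' hB'B w
        (fun u k => spk h R (X (N u) (cc w.1 w.2)) (X (cl u k) (cc w.1 w.2)))
        (fun u k => hspk _ _ _ _) (fun u => tR h R X H m (N u) (cl u) (cc w.1))
        fun u => st3_le_tRl hX H (N u) (cl u) (cc w.1) w.2
    have e6 := mul_le_mul_of_nonneg_left e1 (pow_nonneg hR0 2)
    have e7 := mul_le_mul_of_nonneg_left e2 hR0
    linarith
  -- powers
  have k0 : (1 : ℝ) ≤ (3 * R ^ 2) ^ lam := one_le_pow₀ (by nlinarith)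
  have k1 : (1 : ℝ) ≤ R ^ lam := one_le_pow₀ hR1
  have hrow2 : ∑ v : U × Fin m, (∑ w : O × Fin m, B' v w * (X (cl v.1 v.2)
      (if w.1 ∈ A then (if w ∈ A' then cc w.1 w.2 else (0, y w)) else I1 w.1)) ^ h) ^ lam ≤
      8 ^ lam * ((3 * R ^ 2) ^ lam + R ^ lam) *
      (m * (∑ u, P1 u ^ lam + ∑ u, CU u ^ lam + ∑ u, RU u ^ lam + ∑ u, SU u ^ lam) +
        (∑ v, F1 v ^ lam + ∑ v, F2 v ^ lam)) := by
    rw [← Finset.sum_add_distrib, ← Finset.sum_add_distrib, ← Finset.sum_add_distrib,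
      ← st3_rows (m := m) (fun u => P1 u ^ lam + CU u ^ lam + RU u ^ lam + SU u ^ lam),
      ← Finset.sum_add_distrib, ← Finset.sum_add_distrib, Finset.mul_sum]
    refine Finset.sum_le_sum fun v _ => ?_
    refine (pow_le_pow_left₀ (Finset.sum_nonneg fun w _ => mul_nonneg (hB'0 _ _) (hpw _ _))
      (hrow v) lam).trans ?_
    have n1 : 0 ≤ 3 * R ^ 2 * P1 v.1 := mul_nonneg (by positivity) (hP1n _)
    have n2 : 0 ≤ R * CU v.1 := mul_nonneg hR0 (hCUn _)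
    have n3 : 0 ≤ R * F1 v := mul_nonneg hR0 (hF1n _)
    refine (st3_add6 lam n1 n2 (hRUn v.1) (hSUn v.1) n3 (hF2n v)).trans ?_
    rw [mul_assoc (8 ^ lam)]
    refine mul_le_mul_of_nonneg_left ?_ (by positivity)
    rw [mul_pow (3 * R ^ 2) (P1 v.1), mul_pow R (CU v.1), mul_pow R (F1 v)]
    have m1 : 0 ≤ P1 v.1 ^ lam := pow_nonneg (hP1n _) _
    have m2 : 0 ≤ CU v.1 ^ lam := pow_nonneg (hCUn _) _
    have m3 : 0 ≤ RU v.1 ^ lam := pow_nonneg (hRUn _) _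
    have m4 : 0 ≤ SU v.1 ^ lam := pow_nonneg (hSUn _) _
    have m5 : 0 ≤ F1 v ^ lam := pow_nonneg (hF1n _) _
    have m6 : 0 ≤ F2 v ^ lam := pow_nonneg (hF2n _) _
    generalize (3 * R ^ 2) ^ lam = K1 at *
    generalize R ^ lam = K2 at *
    nlinarith
  have hcol2 : ∑ w ∈ A', (∑ v : U × Fin m, B' v w * (X (cl v.1 v.2) (cc w.1 w.2)) ^ h) ^ lam ≤
      8 ^ lam * ((3 * R ^ 2) ^ lam + R ^ lam) *
      (m * (∑ o ∈ A, P2 o ^ lam + ∑ o ∈ A, CO o ^ lam + ∑ o ∈ A, RO o ^ lam)) := by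
    have e1 : ∀ w ∈ A', (∑ v : U × Fin m, B' v w * (X (cl v.1 v.2) (cc w.1 w.2)) ^ h) ^ lam ≤
        8 ^ lam * ((3 * R ^ 2) ^ lam + R ^ lam) * (P2 w.1 ^ lam + CO w.1 ^ lam + RO w.1 ^ lam) := by
      intro w hw
      refine (pow_le_pow_left₀ (Finset.sum_nonneg fun v _ => mul_nonneg (hB'0 _ _) (hpw _ _))
        (hcol w hw) lam).trans ?_
      have n1 : 0 ≤ 3 * R ^ 2 * P2 w.1 := mul_nonneg (by positivity) (hP2n _)
      have n2 : 0 ≤ R * CO w.1 := mul_nonneg hR0 (hCOn _)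
      refine (st3_add3 lam n1 n2 (hROn w.1)).trans ?_
      have e2 : (4 : ℝ) ^ lam ≤ 8 ^ lam := pow_le_pow_left₀ (by norm_num) (by norm_num) _
      rw [mul_assoc (8 ^ lam)]
      rw [mul_pow (3 * R ^ 2) (P2 w.1), mul_pow R (CO w.1)]
      have m1 : 0 ≤ P2 w.1 ^ lam := pow_nonneg (hP2n _) _
      have m2 : 0 ≤ CO w.1 ^ lam := pow_nonneg (hCOn _) _
      have m3 : 0 ≤ RO w.1 ^ lam := pow_nonneg (hROn _) _
      generalize (3 * R ^ 2) ^ lam = K1 at *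
      generalize R ^ lam = K2 at *
      refine mul_le_mul e2 ?_ ?_ (by positivity)
      · nlinarith
      · positivity
    refine (Finset.sum_le_sum e1).trans ?_
    rw [← Finset.mul_sum]
    refine mul_le_mul_of_nonneg_left ?_ (by positivity)
    refine (st3_prod_le A A' hA'A (fun o _ => P2 o ^ lam + CO o ^ lam + RO o ^ lam)
      fun o _ => add_nonneg (add_nonneg (pow_nonneg (hP2n _) _) (pow_nonneg (hCOn _) _))
        (pow_nonneg (hROn _) _)).trans (le_of_eq ?_)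
    rw [← Finset.sum_add_distrib, ← Finset.sum_add_distrib, Finset.mul_sum]
    exact Finset.sum_congr rfl fun o _ => by
      rw [Finset.sum_const, Finset.card_univ, Fintype.card_fin, nsmul_eq_mul]
  have hF : ∑ v, F1 v ^ lam + ∑ v, F2 v ^ lam ≤ C * (m : ℝ) ^ 2 *
      (∑ u, P1 u ^ lam + ∑ u, CU u ^ lam + ∑ u, RU u ^ lam +
        ∑ o ∈ A, P2 o ^ lam + ∑ o ∈ A, CO o ^ lam + ∑ o ∈ A, RO o ^ lam) := by
    rw [hF1, hF2, hP1, hCU, hRU, hP2, hCO, hRO]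
    exact hy2
  have s1 : 0 ≤ ∑ u, P1 u ^ lam := Finset.sum_nonneg fun u _ => pow_nonneg (hP1n u) _
  have s2 : 0 ≤ ∑ u, CU u ^ lam := Finset.sum_nonneg fun u _ => pow_nonneg (hCUn u) _
  have s3 : 0 ≤ ∑ u, RU u ^ lam := Finset.sum_nonneg fun u _ => pow_nonneg (hRUn u) _
  have s7 : 0 ≤ ∑ u, SU u ^ lam := Finset.sum_nonneg fun u _ => pow_nonneg (hSUn u) _
  have s4 : 0 ≤ ∑ o ∈ A, P2 o ^ lam := Finset.sum_nonneg fun o _ => pow_nonneg (hP2n o) _
  have s5 : 0 ≤ ∑ o ∈ A, CO o ^ lam := Finset.sum_nonneg fun o _ => pow_nonneg (hCOn o) _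
  have s6 : 0 ≤ ∑ o ∈ A, RO o ^ lam := Finset.sum_nonneg fun o _ => pow_nonneg (hROn o) _
  have hgoal : (∑ u, (∑ o, B u o * (X (N u) (I1 o)) ^ h) ^ lam +
        ∑ u, (∑ o ∈ A, B u o * tC h R X m (N u) (I1 o) (cc o)) ^ lam +
        ∑ u, (∑ o ∈ A, B u o * tR h R X H m (N u) (cl u) (cc o)) ^ lam +
        ∑ u, (m * ∑ o ∈ Aᶜ, B u o * ∑ k : Fin m, spk h R (X (N u) (I1 o)) (X (cl u k) (I1 o))) ^ lam +
        ∑ o ∈ A, (∑ u, B u o * (X (N u) (I1 o)) ^ h) ^ lam +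
        ∑ o ∈ A, (m * ∑ u, B u o * tC h R X m (N u) (I1 o) (cc o)) ^ lam +
        ∑ o ∈ A, (∑ u, B u o * tR h R X H m (N u) (cl u) (cc o)) ^ lam) =
      ∑ u, P1 u ^ lam + ∑ u, CU u ^ lam + ∑ u, RU u ^ lam + ∑ u, SU u ^ lam +
        ∑ o ∈ A, P2 o ^ lam + ∑ o ∈ A, CO o ^ lam + ∑ o ∈ A, RO o ^ lam := by
    rw [hP1, hCU, hRU, hSU, hP2, hCO, hRO]
  rw [hgoal]
  refine (add_le_add hrow2 hcol2).trans ?_
  rw [← mul_add, mul_assoc (8 ^ lam * ((3 * R ^ 2) ^ lam + R ^ lam)),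
    mul_assoc (8 ^ lam * ((3 * R ^ 2) ^ lam + R ^ lam))]
  refine mul_le_mul_of_nonneg_left ?_ (by positivity)
  generalize ∑ u, P1 u ^ lam = t1 at *
  generalize ∑ u, CU u ^ lam = t2 at *
  generalize ∑ u, RU u ^ lam = t3 at *
  generalize ∑ u, SU u ^ lam = t7 at *
  generalize ∑ o ∈ A, P2 o ^ lam = t4 at *
  generalize ∑ o ∈ A, CO o ^ lam = t5 at *
  generalize ∑ o ∈ A, RO o ^ lam = t6 at *
  have hmm : (m : ℝ) ≤ (m : ℝ) ^ 2 := by nlinarith
  have g1 : (m : ℝ) * (t1 + t2 + t3 + t7) ≤ (m : ℝ) ^ 2 * (t1 + t2 + t3 + t7) :=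
    mul_le_mul_of_nonneg_right hmm (by linarith)
  have g2 : (m : ℝ) * (t4 + t5 + t6) ≤ (m : ℝ) ^ 2 * (t4 + t5 + t6) :=
    mul_le_mul_of_nonneg_right hmm (by linarith)
  have g3 : C * (m : ℝ) ^ 2 * (t1 + t2 + t3 + t4 + t5 + t6) ≤
      C * (m : ℝ) ^ 2 * (t1 + t2 + t3 + t7 + t4 + t5 + t6) :=
    mul_le_mul_of_nonneg_left (by linarith) (by positivity)
  have g4 : 0 ≤ (m : ℝ) ^ 2 * (t1 + t2 + t3 + t7 + t4 + t5 + t6) := by positivity
  nlinarith

end Pool.Agent.H69.FK
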