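import Pool.Agent.H69.FK.Cut

/-! Module STEPCUT: the cuts of all row classes and column classes, and the static loads. -/

namespace Pool.Agent.H69.FK

open Finset

open Classical in
/-- `Σ_e √ #{i : row i in the class u, its e-th leaf in the class o}` for the labellings `ρ` of the
rows and `γ` of the columns. -/
noncomputable def BB {n d : ℕ} (lm : Fin d → Fin n → Fin n) {U O : Type} (ρ : Fin n → U)
    (γ : Fin n → O) (u : U) (o : O) : ℝ :=
  ∑ e : Fin d, Real.sqrt ((univ.filter (fun i => ρ i = u ∧ γ (lm e i) = o)).card : ℝ)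

open Classical in
/-- the number of rows in the class `u` with the `e`-th leaf in the class `o` -/
noncomputable def NN {n d : ℕ} (lm : Fin d → Fin n → Fin n) {U O : Type} (ρ : Fin n → U)
    (γ : Fin n → O) (e : Fin d) (u : U) (o : O) : ℝ :=
  ((univ.filter (fun i => ρ i = u ∧ γ (lm e i) = o)).card : ℝ)

lemma BB_eq {n d : ℕ} (lm : Fin d → Fin n → Fin n) {U O : Type} (ρ : Fin n → U)
    (γ : Fin n → O) (u : U) (o : O) : BB lm ρ γ u o = ∑ e, Real.sqrt (NN lm ρ γ e u o) := rfl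

lemma NN_eq {n d : ℕ} (lm : Fin d → Fin n → Fin n) {U O : Type} (ρ : Fin n → U)
    (γ : Fin n → O) (e : Fin d) (u : U) (o : O)
    [DecidablePred (fun i => ρ i = u ∧ γ (lm e i) = o)] :
    NN lm ρ γ e u o = ∑ i, if ρ i = u ∧ γ (lm e i) = o then (1 : ℝ) else 0 := by
  unfold NN
  rw [Finset.sum_boole]
  congr

lemma NN_nonneg {n d : ℕ} (lm : Fin d → Fin n → Fin n) {U O : Type} (ρ : Fin n → U)
    (γ : Fin n → O) (e : Fin d) (u : U) (o : O) : 0 ≤ NN lm ρ γ e u o := by
  unfold NN; positivity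

/-- splitting the leaf classes -/
lemma NN_sum_l {n d m : ℕ} (lm : Fin d → Fin n → Fin n) {U O : Type} (ρ : Fin n → U)
    (γ : Fin n → O) (ll : Fin n → Fin m) (e : Fin d) (u : U) (o : O) :
    ∑ l, NN lm ρ (fun c => (γ c, ll c)) e u (o, l) = NN lm ρ γ e u o := by
  classical
  simp only [NN_eq]
  rw [Finset.sum_comm]
  refine Finset.sum_congr rfl (fun i _ => ?_)
  by_cases h1 : ρ i = u <;> by_cases h2 : γ (lm e i) = o <;> simp [h1, h2]

/-- splitting the row classes -/
lemma NN_sum_k {n d m : ℕ} (lm : Fin d → Fin n → Fin n) {U O : Type} (ρ : Fin n → U)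
    (γ : Fin n → O) (kk : Fin n → Fin m) (e : Fin d) (u : U) (o : O) :
    ∑ k, NN lm (fun i => (ρ i, kk i)) γ e (u, k) o = NN lm ρ γ e u o := by
  classical
  simp only [NN_eq]
  rw [Finset.sum_comm]
  refine Finset.sum_congr rfl (fun i _ => ?_)
  by_cases h1 : ρ i = u <;> by_cases h2 : γ (lm e i) = o <;> simp [h1, h2]

lemma sum_swap {d m : ℕ} {O : Type} [Fintype O] (f : Fin d → O → Fin m → ℝ) (x : O → ℝ) :
    ∑ w : O × Fin m, (∑ e, f e w.1 w.2) * x w.1 =
      ∑ τ : Fin d × O, (∑ l, f τ.1 τ.2 l) * x τ.2 := by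
  rw [Fintype.sum_prod_type, Fintype.sum_prod_type]
  simp only [Finset.sum_mul]
  calc ∑ o : O, ∑ l : Fin m, ∑ e : Fin d, f e o l * x o
      = ∑ o : O, ∑ e : Fin d, ∑ l : Fin m, f e o l * x o :=
        Finset.sum_congr rfl (fun o _ => Finset.sum_comm)
    _ = ∑ e : Fin d, ∑ o : O, ∑ l : Fin m, f e o l * x o := Finset.sum_comm

/-- Cauchy-Schwarz for sums of square roots over `Fin m` -/
lemma sum_sqrt_le {m : ℕ} (f : Fin m → ℝ) (hf : ∀ i, 0 ≤ f i) :
    ∑ i, Real.sqrt (f i) ≤ Real.sqrt m * Real.sqrt (∑ i, f i) := by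
  have h := Real.sum_sqrt_mul_sqrt_le (Finset.univ : Finset (Fin m)) (f := fun _ => (1 : ℝ))
    (g := f) (fun _ => zero_le_one) hf
  simpa using h

lemma sqrt_ratio (b : ℕ) (hb : 1 ≤ b) :
    Real.sqrt ((4 * b + 1 : ℕ) : ℝ) * (1 / Real.sqrt b) ≤ 3 := by
  have hbR : (1 : ℝ) ≤ b := by exact_mod_cast hb
  have h1 : Real.sqrt ((4 * b + 1 : ℕ) : ℝ) ≤ 3 * Real.sqrt b := by
    rw [show (3 : ℝ) * Real.sqrt b = Real.sqrt (9 * b) by
      rw [Real.sqrt_mul (by norm_num), show (9 : ℝ) = 3 ^ 2 by norm_num,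
        Real.sqrt_sq (by norm_num)]]
    refine Real.sqrt_le_sqrt ?_
    push_cast
    linarith
  have h2 : 0 < Real.sqrt (b : ℝ) := Real.sqrt_pos.mpr (by linarith)
  rw [mul_one_div, div_le_iff₀ h2]
  exact h1

/-- a row class with at most one element -/
lemma row_single {n d m : ℕ} (lm : Fin d → Fin n → Fin n) {U O : Type} [Fintype O]
    (ρ : Fin n → U) (γ : Fin n → O) (kk ll : Fin n → Fin m) (x : O → ℝ) (hx : ∀ o, 0 ≤ x o)
    (v : U × Fin m) (hv : ∀ i i', (ρ i, kk i) = v → (ρ i', kk i') = v → i = i') :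
    ∑ w : O × Fin m, BB lm (fun i => (ρ i, kk i)) (fun c => (γ c, ll c)) v w * x w.1 ≤
      ∑ o, BB lm ρ γ v.1 o * x o := by
  classical
  by_cases hne : ∃ i, (ρ i, kk i) = v
  · obtain ⟨i, hi⟩ := hne
    -- every count is `0` or `1`
    have h1 : ∀ e (w : O × Fin m), NN lm (fun i => (ρ i, kk i)) (fun c => (γ c, ll c)) e v w =
        if (γ (lm e i), ll (lm e i)) = w then 1 else 0 := by
      intro e w
      rw [NN_eq, Finset.sum_eq_single i]
      · simp [hi]
      · intro j _ hj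
        rw [if_neg]
        rintro ⟨h2, _⟩
        exact hj (hv j i h2 hi)
      · intro h; exact absurd (Finset.mem_univ i) h
    have h2 : ∀ e, (1 : ℝ) ≤ NN lm ρ γ e v.1 (γ (lm e i)) := by
      intro e
      rw [NN_eq]
      refine le_trans ?_ (Finset.single_le_sum (f := fun j =>
        if ρ j = v.1 ∧ γ (lm e j) = γ (lm e i) then (1 : ℝ) else 0)
        (fun j _ => by split_ifs <;> norm_num) (Finset.mem_univ i))
      have h3 : ρ i = v.1 := by rw [← hi]
      simp [h3]
    have h3 : ∑ w : O × Fin m, BB lm (fun i => (ρ i, kk i)) (fun c => (γ c, ll c)) v w * x w.1 =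
        ∑ e : Fin d, x (γ (lm e i)) := by
      simp only [BB_eq, Finset.sum_mul, h1]
      rw [Finset.sum_comm]
      refine Finset.sum_congr rfl (fun e _ => ?_)
      rw [Finset.sum_eq_single (γ (lm e i), ll (lm e i))]
      · simp
      · intro w _ hw
        rw [if_neg (fun h => hw h.symm)]; simp
      · intro h; exact absurd (Finset.mem_univ _) h
    have h4 : ∑ o, BB lm ρ γ v.1 o * x o =
        ∑ e : Fin d, ∑ o, Real.sqrt (NN lm ρ γ e v.1 o) * x o := by
      simp only [BB_eq, Finset.sum_mul]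
      rw [Finset.sum_comm]
    rw [h3, h4]
    refine Finset.sum_le_sum (fun e _ => ?_)
    refine le_trans ?_ (Finset.single_le_sum (f := fun o => Real.sqrt (NN lm ρ γ e v.1 o) * x o)
      (fun o _ => mul_nonneg (Real.sqrt_nonneg _) (hx o)) (Finset.mem_univ (γ (lm e i))))
    have h5 : (1 : ℝ) ≤ Real.sqrt (NN lm ρ γ e v.1 (γ (lm e i))) := Real.one_le_sqrt.mpr (h2 e)
    have h6 := hx (γ (lm e i))
    nlinarith
  · push Not at hne
    have h1 : ∀ e (w : O × Fin m),
        NN lm (fun i => (ρ i, kk i)) (fun c => (γ c, ll c)) e v w = 0 := by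
      intro e w
      rw [NN_eq]
      refine Finset.sum_eq_zero (fun i _ => ?_)
      rw [if_neg]
      rintro ⟨h2, _⟩
      exact hne i h2
    have h2 : ∑ w : O × Fin m, BB lm (fun i => (ρ i, kk i)) (fun c => (γ c, ll c)) v w * x w.1 =
        0 := by
      simp [BB_eq, h1]
    rw [h2]
    exact Finset.sum_nonneg (fun o _ => mul_nonneg
      (Finset.sum_nonneg (fun e _ => Real.sqrt_nonneg _)) (hx o))

open Classical in
theorem stepCut {n d : ℕ} (lm : Fin d → Fin n → Fin n) {U O : Type} [Fintype U] [Fintype O]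
    (ρ : Fin n → U) (γ : Fin n → O) (x : U → O → ℝ) (hx : ∀ u o, 0 ≤ x u o) (b : ℕ) (hb : 1 ≤ b) :
    ∃ kk ll : Fin n → Fin (4 * b + 1),
      (∀ i i', i ≤ i' → ρ i = ρ i' → kk i ≤ kk i') ∧
      (∀ c c', c ≤ c' → γ c = γ c' → ll c ≤ ll c') ∧
      (∀ v : U × Fin (4 * b + 1), (univ.filter (fun i => (ρ i, kk i) = v)).card ≤ 1 ∨
        b * (univ.filter (fun i => (ρ i, kk i) = v)).card ≤
          (univ.filter (fun i => ρ i = v.1)).card) ∧
      (∀ w : O × Fin (4 * b + 1), (univ.filter (fun c => (γ c, ll c) = w)).card ≤ 1 ∨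
        b * (univ.filter (fun c => (γ c, ll c) = w)).card ≤
          (univ.filter (fun c => γ c = w.1)).card) ∧
      (∀ v w, BB lm (fun i => (ρ i, kk i)) (fun c => (γ c, ll c)) v w ≤ BB lm ρ γ v.1 w.1) ∧
      (∀ v, ∑ w, BB lm (fun i => (ρ i, kk i)) (fun c => (γ c, ll c)) v w * x v.1 w.1 ≤
        3 * ∑ o, BB lm ρ γ v.1 o * x v.1 o) ∧
      (∀ w : O × Fin (4 * b + 1), 2 ≤ (univ.filter (fun c => (γ c, ll c) = w)).card →
        ∑ v, BB lm (fun i => (ρ i, kk i)) (fun c => (γ c, ll c)) v w * x v.1 w.1 ≤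
          3 * ∑ u, BB lm ρ γ u w.1 * x u w.1) := by
  -- cuts of the row classes
  have hR : ∀ u : U, ∃ kk : Fin n → Fin (4 * b + 1),
      (∀ i ∈ univ.filter (fun i => ρ i = u), ∀ i' ∈ univ.filter (fun i => ρ i = u), i ≤ i' →
        kk i ≤ kk i') ∧
      ∀ k, (((univ.filter (fun i => ρ i = u)).filter (fun i => kk i = k)).card ≤ 1 ∨
        (b * ((univ.filter (fun i => ρ i = u)).filter (fun i => kk i = k)).card ≤
            (univ.filter (fun i => ρ i = u)).card ∧
          ∑ τ : Fin d × O, Real.sqrt (∑ i ∈ (univ.filter (fun i => ρ i = u)).filter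
              (fun i => kk i = k), (if γ (lm τ.1 i) = τ.2 then (1 : ℝ) else 0)) * x u τ.2 ≤
            1 / Real.sqrt b * ∑ τ : Fin d × O, Real.sqrt (∑ i ∈ univ.filter (fun i => ρ i = u),
              (if γ (lm τ.1 i) = τ.2 then (1 : ℝ) else 0)) * x u τ.2)) := by
    intro u
    exact cut b hb (univ.filter (fun i => ρ i = u))
      (fun (τ : Fin d × O) i => if γ (lm τ.1 i) = τ.2 then (1 : ℝ) else 0)
      (fun τ i => by split_ifs <;> norm_num) (fun τ => x u τ.2) (fun τ => hx u τ.2)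
  have hC : ∀ o : O, ∃ ll : Fin n → Fin (4 * b + 1),
      (∀ c ∈ univ.filter (fun c => γ c = o), ∀ c' ∈ univ.filter (fun c => γ c = o), c ≤ c' →
        ll c ≤ ll c') ∧
      ∀ k, (((univ.filter (fun c => γ c = o)).filter (fun c => ll c = k)).card ≤ 1 ∨
        (b * ((univ.filter (fun c => γ c = o)).filter (fun c => ll c = k)).card ≤
            (univ.filter (fun c => γ c = o)).card ∧
          ∑ τ : Fin d × U, Real.sqrt (∑ c ∈ (univ.filter (fun c => γ c = o)).filter
              (fun c => ll c = k),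
                (∑ i, if ρ i = τ.2 ∧ lm τ.1 i = c then (1 : ℝ) else 0)) * x τ.2 o ≤
            1 / Real.sqrt b * ∑ τ : Fin d × U, Real.sqrt (∑ c ∈ univ.filter (fun c => γ c = o),
              (∑ i, if ρ i = τ.2 ∧ lm τ.1 i = c then (1 : ℝ) else 0)) * x τ.2 o)) := by
    intro o
    exact cut b hb (univ.filter (fun c => γ c = o))
      (fun (τ : Fin d × U) c => (∑ i, if ρ i = τ.2 ∧ lm τ.1 i = c then (1 : ℝ) else 0))
      (fun τ i => Finset.sum_nonneg (fun j _ => by split_ifs <;> norm_num))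
      (fun τ => x τ.2 o) (fun τ => hx τ.2 o)
  choose K hK1 hK2 using hR
  choose L hL1 hL2 using hC
  set kk : Fin n → Fin (4 * b + 1) := fun i => K (ρ i) i with hkk
  set ll : Fin n → Fin (4 * b + 1) := fun c => L (γ c) c with hll
  -- the fibres
  have hfR : ∀ v : U × Fin (4 * b + 1), univ.filter (fun i => (ρ i, kk i) = v) =
      (univ.filter (fun i => ρ i = v.1)).filter (fun i => K v.1 i = v.2) := by
    rintro ⟨u, k⟩
    ext i
    simp only [Finset.mem_filter, Finset.mem_univ, true_and, Prod.mk.injEq, hkk]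
    constructor
    · rintro ⟨h1, h2⟩; exact ⟨h1, by rw [← h2, h1]⟩
    · rintro ⟨h1, h2⟩; exact ⟨h1, by rw [← h2, h1]⟩
  have hfC : ∀ w : O × Fin (4 * b + 1), univ.filter (fun c => (γ c, ll c) = w) =
      (univ.filter (fun c => γ c = w.1)).filter (fun c => L w.1 c = w.2) := by
    rintro ⟨o, l⟩
    ext c
    simp only [Finset.mem_filter, Finset.mem_univ, true_and, Prod.mk.injEq, hll]
    constructor
    · rintro ⟨h1, h2⟩; exact ⟨h1, by rw [← h2, h1]⟩
    · rintro ⟨h1, h2⟩; exact ⟨h1, by rw [← h2, h1]⟩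
  -- counting identities
  have hRa : ∀ (u : U) (e : Fin d) (o : O), ∑ i ∈ univ.filter (fun i => ρ i = u),
      (if γ (lm e i) = o then (1 : ℝ) else 0) = NN lm ρ γ e u o := by
    intro u e o
    rw [NN_eq, Finset.sum_filter]
    refine Finset.sum_congr rfl (fun i _ => ?_)
    by_cases h1 : ρ i = u <;> by_cases h2 : γ (lm e i) = o <;> simp [h1, h2]
  have hRb : ∀ (u : U) (k : Fin (4 * b + 1)) (e : Fin d) (o : O),
      ∑ i ∈ (univ.filter (fun i => ρ i = u)).filter (fun i => K u i = k),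
      (if γ (lm e i) = o then (1 : ℝ) else 0) = NN lm (fun i => (ρ i, kk i)) γ e (u, k) o := by
    intro u k e o
    rw [NN_eq, Finset.sum_filter, Finset.sum_filter]
    refine Finset.sum_congr rfl (fun i _ => ?_)
    by_cases h1 : ρ i = u
    · by_cases h2 : γ (lm e i) = o <;> simp [h1, h2, hkk]
    · simp [h1]
  have hCa : ∀ (o : O) (e : Fin d) (u : U), ∑ c ∈ univ.filter (fun c => γ c = o),
      (∑ i, if ρ i = u ∧ lm e i = c then (1 : ℝ) else 0) = NN lm ρ γ e u o := by
    intro o e u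
    rw [NN_eq, Finset.sum_comm]
    refine Finset.sum_congr rfl (fun i _ => ?_)
    rw [Finset.sum_filter, Finset.sum_eq_single (lm e i)]
    · by_cases h1 : ρ i = u <;> by_cases h2 : γ (lm e i) = o <;> simp [h1, h2]
    · intro c _ hc
      have h3 : ¬ (ρ i = u ∧ lm e i = c) := fun h => hc h.2.symm
      simp [h3]
    · intro h; exact absurd (Finset.mem_univ _) h
  have hCb : ∀ (o : O) (l : Fin (4 * b + 1)) (e : Fin d) (u : U),
      ∑ c ∈ (univ.filter (fun c => γ c = o)).filter (fun c => L o c = l),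
      (∑ i, if ρ i = u ∧ lm e i = c then (1 : ℝ) else 0) =
        NN lm ρ (fun c => (γ c, ll c)) e u (o, l) := by
    intro o l e u
    rw [NN_eq, Finset.sum_comm]
    refine Finset.sum_congr rfl (fun i _ => ?_)
    rw [Finset.sum_filter, Finset.sum_filter, Finset.sum_eq_single (lm e i)]
    · by_cases h2 : γ (lm e i) = o
      · by_cases h1 : ρ i = u <;> simp [h1, h2, hll]
      · simp [h2]
    · intro c _ hc
      have h3 : ¬ (ρ i = u ∧ lm e i = c) := fun h => hc h.2.symm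
      simp [h3]
    · intro h; exact absurd (Finset.mem_univ _) h
  have hmono : ∀ v w, BB lm (fun i => (ρ i, kk i)) (fun c => (γ c, ll c)) v w ≤
      BB lm ρ γ v.1 w.1 := by
    intro v w
    rw [BB_eq, BB_eq]
    refine Finset.sum_le_sum (fun e _ => Real.sqrt_le_sqrt ?_)
    rw [NN_eq, NN_eq]
    refine Finset.sum_le_sum (fun i _ => ?_)
    by_cases h1 : (ρ i, kk i) = v ∧ (γ (lm e i), ll (lm e i)) = w
    · rw [if_pos h1, if_pos ⟨by rw [← h1.1], by rw [← h1.2]⟩]
    · rw [if_neg h1]; split_ifs <;> norm_num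
  refine ⟨kk, ll, ?_, ?_, ?_, ?_, hmono, ?_, ?_⟩
  · intro i i' hii hρ
    simp only [hkk]
    rw [← hρ]
    exact hK1 (ρ i) i (by simp) i' (by simp [hρ]) hii
  · intro c c' hcc hγ
    simp only [hll]
    rw [← hγ]
    exact hL1 (γ c) c (by simp) c' (by simp [hγ]) hcc
  · intro v
    have h := hfR v
    rcases hK2 v.1 v.2 with h1 | h1
    · left; rw [← h] at h1; convert h1
    · right; rw [← h] at h1; convert h1.1
  · intro w
    have h := hfC w
    rcases hL2 w.1 w.2 with h1 | h1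
    · left; rw [← h] at h1; convert h1
    · right; rw [← h] at h1; convert h1.1
  · -- row classes
    intro v
    have hL0 : ∀ o, 0 ≤ BB lm ρ γ v.1 o * x v.1 o := fun o =>
      mul_nonneg (Finset.sum_nonneg (fun e _ => Real.sqrt_nonneg _)) (hx _ _)
    have hS0 : 0 ≤ ∑ o, BB lm ρ γ v.1 o * x v.1 o := Finset.sum_nonneg (fun o _ => hL0 o)
    rcases hK2 v.1 v.2 with h1 | ⟨_, h1⟩
    · refine le_trans (row_single lm ρ γ kk ll (x v.1) (hx v.1) v ?_) (by linarith)
      intro i i' hi hi'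
      rw [← hfR v, Finset.card_le_one] at h1
      exact h1 i (Finset.mem_filter.mpr ⟨Finset.mem_univ _, hi⟩) i'
        (Finset.mem_filter.mpr ⟨Finset.mem_univ _, hi'⟩)
    · simp only [hRa, hRb] at h1
      have h2 : ∑ w : O × Fin (4 * b + 1),
          BB lm (fun i => (ρ i, kk i)) (fun c => (γ c, ll c)) v w * x v.1 w.1 =
          ∑ τ : Fin d × O, (∑ l : Fin (4 * b + 1), Real.sqrt
            (NN lm (fun i => (ρ i, kk i)) (fun c => (γ c, ll c)) τ.1 v (τ.2, l))) * x v.1 τ.2 :=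
        sum_swap (fun e o l => Real.sqrt
          (NN lm (fun i => (ρ i, kk i)) (fun c => (γ c, ll c)) e v (o, l))) (x v.1)
      have h3 : ∑ o, BB lm ρ γ v.1 o * x v.1 o =
          ∑ τ : Fin d × O, Real.sqrt (NN lm ρ γ τ.1 v.1 τ.2) * x v.1 τ.2 := by
        rw [Fintype.sum_prod_type, Finset.sum_comm]
        refine Finset.sum_congr rfl (fun o _ => ?_)
        rw [BB_eq, Finset.sum_mul]
      rw [h2, h3]
      have h4 : ∀ τ : Fin d × O, (∑ l : Fin (4 * b + 1), Real.sqrt
            (NN lm (fun i => (ρ i, kk i)) (fun c => (γ c, ll c)) τ.1 v (τ.2, l))) * x v.1 τ.2 ≤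
          Real.sqrt ((4 * b + 1 : ℕ) : ℝ) *
            (Real.sqrt (NN lm (fun i => (ρ i, kk i)) γ τ.1 v τ.2) * x v.1 τ.2) := by
        intro τ
        have h5 := sum_sqrt_le (fun l : Fin (4 * b + 1) =>
          NN lm (fun i => (ρ i, kk i)) (fun c => (γ c, ll c)) τ.1 v (τ.2, l))
          (fun l => NN_nonneg _ _ _ _ _ _)
        rw [NN_sum_l lm (fun i => (ρ i, kk i)) γ ll τ.1 v τ.2] at h5
        rw [← mul_assoc]
        exact mul_le_mul_of_nonneg_right h5 (hx _ _)
      refine le_trans (Finset.sum_le_sum (fun τ _ => h4 τ)) ?_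
      rw [← Finset.mul_sum]
      refine le_trans (mul_le_mul_of_nonneg_left h1 (Real.sqrt_nonneg _)) ?_
      rw [← mul_assoc]
      exact mul_le_mul_of_nonneg_right (sqrt_ratio b hb)
        (Finset.sum_nonneg (fun τ _ => mul_nonneg (Real.sqrt_nonneg _) (hx _ _)))
  · -- column classes
    intro w hw
    rcases hL2 w.1 w.2 with h1 | ⟨_, h1⟩
    · rw [← hfC w] at h1
      have h1' : (univ.filter (fun c => (γ c, ll c) = w)).card ≤ 1 := by convert h1
      omega
    · simp only [hCa, hCb] at h1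
      have h2 : ∑ v : U × Fin (4 * b + 1),
          BB lm (fun i => (ρ i, kk i)) (fun c => (γ c, ll c)) v w * x v.1 w.1 =
          ∑ τ : Fin d × U, (∑ k : Fin (4 * b + 1), Real.sqrt
            (NN lm (fun i => (ρ i, kk i)) (fun c => (γ c, ll c)) τ.1 (τ.2, k) w)) * x τ.2 w.1 :=
        sum_swap (fun e u k => Real.sqrt
          (NN lm (fun i => (ρ i, kk i)) (fun c => (γ c, ll c)) e (u, k) w)) (fun u => x u w.1)
      have h3 : ∑ u, BB lm ρ γ u w.1 * x u w.1 =
          ∑ τ : Fin d × U, Real.sqrt (NN lm ρ γ τ.1 τ.2 w.1) * x τ.2 w.1 := by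
        rw [Fintype.sum_prod_type, Finset.sum_comm]
        refine Finset.sum_congr rfl (fun o _ => ?_)
        rw [BB_eq, Finset.sum_mul]
      rw [h2, h3]
      have h4 : ∀ τ : Fin d × U, (∑ k : Fin (4 * b + 1), Real.sqrt
            (NN lm (fun i => (ρ i, kk i)) (fun c => (γ c, ll c)) τ.1 (τ.2, k) w)) * x τ.2 w.1 ≤
          Real.sqrt ((4 * b + 1 : ℕ) : ℝ) *
            (Real.sqrt (NN lm ρ (fun c => (γ c, ll c)) τ.1 τ.2 w) * x τ.2 w.1) := by
        intro τ
        have h5 := sum_sqrt_le (fun k : Fin (4 * b + 1) =>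
          NN lm (fun i => (ρ i, kk i)) (fun c => (γ c, ll c)) τ.1 (τ.2, k) w)
          (fun k => NN_nonneg _ _ _ _ _ _)
        rw [NN_sum_k lm ρ (fun c => (γ c, ll c)) kk τ.1 τ.2 w] at h5
        rw [← mul_assoc]
        exact mul_le_mul_of_nonneg_right h5 (hx _ _)
      refine le_trans (Finset.sum_le_sum (fun τ _ => h4 τ)) ?_
      rw [← Finset.mul_sum]
      refine le_trans (mul_le_mul_of_nonneg_left h1 (Real.sqrt_nonneg _)) ?_
      rw [← mul_assoc]
      exact mul_le_mul_of_nonneg_right (sqrt_ratio b hb)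
        (Finset.sum_nonneg (fun τ _ => mul_nonneg (Real.sqrt_nonneg _) (hx _ _)))

end Pool.Agent.H69.FK
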