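import Pool.Agent.H69.FK.Ctx
import Pool.Agent.H69.FK.StepCut

/-! The states of the embedding process. -/

namespace Pool.Agent.H69.FK

open Finset

/-- `P` lies completely to the left of `P'` -/
def ltN (q : ℕ) (P P' : Nd) : Prop := q ^ P.1 * (P.2 + 1) ≤ q ^ P'.1 * P'.2

/-- A state: labels of the rows and of the columns of the matrix, windows of the labels, and the
set of the active column labels. -/
structure St (n : ℕ) where
  U : Type
  O : Type
  fU : Fintype U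
  fO : Fintype O
  ρ : Fin n → U
  γ : Fin n → O
  P : U → Nd
  Q : O → Nd
  A : Finset O

attribute [instance] St.fU St.fO

open Classical in
/-- validity: `L` = size exponent of the box, `T` = levels left, `K` = how much the pieces have
been cut. -/
structure Valid {n : ℕ} (q L T K : ℕ) (S : St n) : Prop where
  ordρ : ∀ i i', i < i' → S.ρ i = S.ρ i' ∨ ltN q (S.P (S.ρ i)) (S.P (S.ρ i'))
  ordγ : ∀ c c', c < c' → S.γ c = S.γ c' ∨ ltN q (S.Q (S.γ c)) (S.Q (S.γ c'))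
  levP : ∀ u, T ≤ (S.P u).1
  levQ : ∀ o ∈ S.A, T ≤ (S.Q o).1
  boxP : ∀ u, q ^ (S.P u).1 * ((S.P u).2 + 1) ≤ q ^ L
  boxQ : ∀ o, q ^ (S.Q o).1 * ((S.Q o).2 + 1) ≤ q ^ L
  sizU : ∀ u, (univ.filter (fun i => S.ρ i = u)).card ≤ 1 ∨
    K * (univ.filter (fun i => S.ρ i = u)).card ≤ n
  sizA : ∀ o ∈ S.A, 1 ≤ (univ.filter (fun c => S.γ c = o)).card ∧
    K * (univ.filter (fun c => S.γ c = o)).card ≤ n
  frz : ∀ o, o ∉ S.A → (S.Q o).1 = 0 ∧ (univ.filter (fun c => S.γ c = o)).card ≤ 1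

/-- the potential -/
noncomputable def Om {n d : ℕ} (lm : Fin d → Fin n → Fin n) (X : Nd → Nd → ℝ) (h : ℝ) (lam : ℕ)
    (S : St n) : ℝ :=
  ∑ u, (∑ o, BB lm S.ρ S.γ u o * (X (S.P u) (S.Q o)) ^ h) ^ lam +
    ∑ o ∈ S.A, (∑ u, BB lm S.ρ S.γ u o * (X (S.P u) (S.Q o)) ^ h) ^ lam

end Pool.Agent.H69.FK
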