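import Pool.Agent.H69.FK.Nodes
import Pool.Agent.H69.FK.Phi
import Pool.Agent.H69.FK.MuAct
import Pool.Agent.H69.FK.Stage1
import Pool.Agent.H69.FK.Stage2
import Pool.Agent.H69.FK.Stage3

/-! The step lemma. -/

namespace Pool.Agent.H69.FK

open Finset

lemma BB_nonneg {n d : ℕ} (lm : Fin d → Fin n → Fin n) {U O : Type} (ρ : Fin n → U)
    (γ : Fin n → O) (u : U) (o : O) : 0 ≤ BB lm ρ γ u o :=
  Finset.sum_nonneg fun _ _ => Real.sqrt_nonneg _

lemma card_inst {α : Type} (s : Finset α) (p : α → Prop) (i1 i2 : DecidablePred p) :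
    (@Finset.filter α p i1 s).card = (@Finset.filter α p i2 s).card := by
  rw [Subsingleton.elim i1 i2]

/-- the new state -/
noncomputable def newSt {n m : ℕ} (S : St n) (kk ll : Fin n → Fin m) (P' : S.U × Fin m → Nd)
    (Q' : S.O × Fin m → Nd) (A' : Finset (S.O × Fin m)) : St n where
  U := S.U × Fin m
  O := S.O × Fin m
  fU := inferInstance
  fO := inferInstance
  ρ := fun i => (S.ρ i, kk i)
  γ := fun c => (S.γ c, ll c)
  P := P'
  Q := Q'
  A := A'

open Classical in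
lemma newSt_valid {n m L T K J b : ℕ} (S : St n) (hS : Valid (2 * m) L (T + J) K S)
    (kk ll : Fin n → Fin m) (ω : S.U → ℕ × ℕ × ℕ) (ω' : S.O → ℕ × ℕ × ℕ)
    (hω : ∀ u, (ω u).1 < J ∧ (ω u).2.1 < (2 * m) ^ (ω u).1 ∧ (ω u).2.2 < m)
    (hω' : ∀ o, (ω' o).1 < J ∧ (ω' o).2.1 < (2 * m) ^ (ω' o).1 ∧ (ω' o).2.2 < m)
    (y : S.O × Fin m → ℕ)
    (hy : ∀ w : S.O × Fin m, (2 * m) ^ (cell (2 * m) (S.Q w.1) (ω' w.1) w.2).1 *
        (cell (2 * m) (S.Q w.1) (ω' w.1) w.2).2 ≤ y w ∧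
      y w < (2 * m) ^ (cell (2 * m) (S.Q w.1) (ω' w.1) w.2).1 *
        ((cell (2 * m) (S.Q w.1) (ω' w.1) w.2).2 + 1))
    (h1 : ∀ i i', i ≤ i' → S.ρ i = S.ρ i' → kk i ≤ kk i')
    (h2 : ∀ c c', c ≤ c' → S.γ c = S.γ c' → ll c ≤ ll c')
    (h3 : ∀ v : S.U × Fin m, (univ.filter (fun i => (S.ρ i, kk i) = v)).card ≤ 1 ∨
        b * (univ.filter (fun i => (S.ρ i, kk i) = v)).card ≤
          (univ.filter (fun i => S.ρ i = v.1)).card)
    (h4 : ∀ w : S.O × Fin m, (univ.filter (fun c => (S.γ c, ll c) = w)).card ≤ 1 ∨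
        b * (univ.filter (fun c => (S.γ c, ll c) = w)).card ≤
          (univ.filter (fun c => S.γ c = w.1)).card)
    (A' : Finset (S.O × Fin m))
    (hA' : ∀ w, w ∈ A' ↔ w.1 ∈ S.A ∧ 2 ≤ (univ.filter (fun c => (S.γ c, ll c) = w)).card) :
    Valid (2 * m) L T (K * b) (newSt S kk ll (fun v => cell (2 * m) (S.P v.1) (ω v.1) v.2)
      (fun w => if w.1 ∈ S.A then (if w ∈ A' then cell (2 * m) (S.Q w.1) (ω' w.1) w.2
        else (0, y w)) else S.Q w.1) A') := by
  have subP : ∀ v : S.U × Fin m, subN (2 * m) (cell (2 * m) (S.P v.1) (ω v.1) v.2) (S.P v.1) := by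
    intro v
    have := hS.levP v.1
    exact subN_cell (by have := (hω v.1).1; omega) (hω v.1).2.1 (hω v.1).2.2 v.2.2
  have subQ0 : ∀ w : S.O × Fin m, w.1 ∈ S.A →
      subN (2 * m) (cell (2 * m) (S.Q w.1) (ω' w.1) w.2) (S.Q w.1) := by
    intro w hw
    have := hS.levQ w.1 hw
    exact subN_cell (by have := (hω' w.1).1; omega) (hω' w.1).2.1 (hω' w.1).2.2 w.2.2
  have subQ1 : ∀ w : S.O × Fin m, w.1 ∈ S.A → subN (2 * m)
      (if w.1 ∈ S.A then (if w ∈ A' then cell (2 * m) (S.Q w.1) (ω' w.1) w.2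
        else (0, y w)) else S.Q w.1) (cell (2 * m) (S.Q w.1) (ω' w.1) w.2) := by
    intro w hw
    rw [if_pos hw]
    split_ifs
    · exact subN_refl _ _
    · exact subN_host (hy w).1 (hy w).2
  have subQ : ∀ w : S.O × Fin m, subN (2 * m)
      (if w.1 ∈ S.A then (if w ∈ A' then cell (2 * m) (S.Q w.1) (ω' w.1) w.2
        else (0, y w)) else S.Q w.1) (S.Q w.1) := by
    intro w
    by_cases hw : w.1 ∈ S.A
    · exact subN_trans (subQ1 w hw) (subQ0 w hw)
    · rw [if_neg hw]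
      exact subN_refl _ _
  refine ⟨?_, ?_, ?_, ?_, ?_, ?_, ?_, ?_, ?_⟩
  · intro i i' hi
    change (S.ρ i, kk i) = (S.ρ i', kk i') ∨ ltN (2 * m)
      (cell (2 * m) (S.P (S.ρ i)) (ω (S.ρ i)) (kk i))
      (cell (2 * m) (S.P (S.ρ i')) (ω (S.ρ i')) (kk i'))
    rcases hS.ordρ i i' hi with h | h
    · rcases (h1 i i' hi.le h).lt_or_eq with hlt | heq
      · right
        rw [← h]
        exact ltN_cell (by exact_mod_cast hlt)
      · left
        rw [h, heq]
    · right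
      exact ltN_sub h (subP (S.ρ i, kk i)) (subP (S.ρ i', kk i'))
  · intro c c' hc
    change (S.γ c, ll c) = (S.γ c', ll c') ∨ ltN (2 * m)
      (if S.γ c ∈ S.A then (if (S.γ c, ll c) ∈ A' then cell (2 * m) (S.Q (S.γ c)) (ω' (S.γ c)) (ll c)
        else (0, y (S.γ c, ll c))) else S.Q (S.γ c))
      (if S.γ c' ∈ S.A then (if (S.γ c', ll c') ∈ A' then
        cell (2 * m) (S.Q (S.γ c')) (ω' (S.γ c')) (ll c')
        else (0, y (S.γ c', ll c'))) else S.Q (S.γ c'))
    rcases hS.ordγ c c' hc with h | h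
    · by_cases hA : S.γ c ∈ S.A
      · rcases (h2 c c' hc.le h).lt_or_eq with hlt | heq
        · right
          have hA2 : S.γ c' ∈ S.A := h ▸ hA
          refine ltN_sub (P := cell (2 * m) (S.Q (S.γ c)) (ω' (S.γ c)) (ll c))
            (Q := cell (2 * m) (S.Q (S.γ c')) (ω' (S.γ c')) (ll c')) ?_
            (subQ1 (S.γ c, ll c) hA) (subQ1 (S.γ c', ll c') hA2)
          rw [← h]
          exact ltN_cell (by exact_mod_cast hlt)
        · left
          rw [h, heq]
      · exfalso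
        have h5 := (hS.frz _ hA).2
        have h6 : ({c, c'} : Finset (Fin n)) ⊆ univ.filter (fun c2 => S.γ c2 = S.γ c) := by
          intro z hz
          simp only [Finset.mem_insert, Finset.mem_singleton] at hz
          rcases hz with rfl | rfl
          · simp
          · simp [h]
        have h7 := Finset.card_le_card h6
        rw [Finset.card_pair hc.ne] at h7
        omega
    · right
      exact ltN_sub h (subQ (S.γ c, ll c)) (subQ (S.γ c', ll c'))
  · intro v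
    have := hS.levP v.1
    have := (hω v.1).1
    change T ≤ (S.P v.1).1 - (ω v.1).1 - 1
    omega
  · intro (w : S.O × Fin m) hw
    have hw1 := (hA' w).1 hw
    have h5 := hS.levQ w.1 hw1.1
    have := (hω' w.1).1
    change T ≤ (if w.1 ∈ S.A then (if w ∈ A' then cell (2 * m) (S.Q w.1) (ω' w.1) w.2
        else (0, y w)) else S.Q w.1).1
    rw [if_pos hw1.1, if_pos (show w ∈ A' from hw)]
    change T ≤ (S.Q w.1).1 - (ω' w.1).1 - 1
    omega
  · intro v
    exact (subP v).2.trans (hS.boxP v.1)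
  · intro w
    exact (subQ w).2.trans (hS.boxQ w.1)
  · intro (v : S.U × Fin m)
    refine Eq.mp (congrArg (fun z : ℕ => z ≤ 1 ∨ K * b * z ≤ n)
      (card_inst univ (fun i => (S.ρ i, kk i) = v) _ _)) (?_ :
      (univ.filter (fun i => (S.ρ i, kk i) = v)).card ≤ 1 ∨
      K * b * (univ.filter (fun i => (S.ρ i, kk i) = v)).card ≤ n)
    rcases h3 v with h | h
    · exact Or.inl h
    · rcases hS.sizU v.1 with h5 | h5
      · left
        refine le_trans (Finset.card_le_card ?_) h5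
        intro i hi
        simp only [Finset.mem_filter, Finset.mem_univ, true_and] at hi ⊢
        rw [← hi]
      · right
        calc K * b * (univ.filter (fun i => (S.ρ i, kk i) = v)).card
            = K * (b * (univ.filter (fun i => (S.ρ i, kk i) = v)).card) := by ring
          _ ≤ K * (univ.filter (fun i => S.ρ i = v.1)).card := Nat.mul_le_mul_left _ h
          _ ≤ n := h5
  · intro (w : S.O × Fin m) hw
    have hw1 := (hA' w).1 hw
    refine Eq.mp (congrArg (fun z : ℕ => 1 ≤ z ∧ K * b * z ≤ n)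
      (card_inst univ (fun c => (S.γ c, ll c) = w) _ _)) (?_ :
      1 ≤ (univ.filter (fun c => (S.γ c, ll c) = w)).card ∧
      K * b * (univ.filter (fun c => (S.γ c, ll c) = w)).card ≤ n)
    refine ⟨by omega, ?_⟩
    rcases h4 w with h | h
    · omega
    · calc K * b * (univ.filter (fun c => (S.γ c, ll c) = w)).card
            = K * (b * (univ.filter (fun c => (S.γ c, ll c) = w)).card) := by ring
          _ ≤ K * (univ.filter (fun c => S.γ c = w.1)).card := Nat.mul_le_mul_left _ h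
          _ ≤ n := (hS.sizA w.1 hw1.1).2
  · intro (w : S.O × Fin m) hw
    refine Eq.mp (congrArg (fun z : ℕ => (if w.1 ∈ S.A then (if w ∈ A' then
        cell (2 * m) (S.Q w.1) (ω' w.1) w.2 else (0, y w)) else S.Q w.1).1 = 0 ∧ z ≤ 1)
      (card_inst univ (fun c => (S.γ c, ll c) = w) _ _)) (?_ :
      (if w.1 ∈ S.A then (if w ∈ A' then cell (2 * m) (S.Q w.1) (ω' w.1) w.2
        else (0, y w)) else S.Q w.1).1 = 0 ∧ (univ.filter (fun c => (S.γ c, ll c) = w)).card ≤ 1)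
    have hw2 : w ∉ A' := hw
    by_cases hA : w.1 ∈ S.A
    · rw [if_pos hA, if_neg hw2]
      refine ⟨rfl, ?_⟩
      by_contra hcon
      exact hw2 ((hA' w).2 ⟨hA, by omega⟩)
    · rw [if_neg hA]
      refine ⟨(hS.frz _ hA).1, ?_⟩
      refine le_trans (Finset.card_le_card ?_) (hS.frz _ hA).2
      intro i hi
      simp only [Finset.mem_filter, Finset.mem_univ, true_and] at hi ⊢
      rw [← hi]

lemma lin_eq_of {m : ℕ} (h R : ℝ) (X : Nd → Nd → ℝ) (M : (Nd → ℝ) →ₗ[ℝ] ℝ) (Q : Nd)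
    (hM : ∀ F, M F = F Q) (P : Nd) (ω : ℕ × ℕ × ℕ) :
    psiF h R X M m P ω = ∑ k : Fin m, spk h R (X (nd1 (2 * m) P ω) Q) (X (cell (2 * m) P ω k) Q) := by
  unfold psiF
  simp only [hM]

open Classical in
theorem step (lam : ℕ) (hlam : 1 ≤ lam) (h R : ℝ) (hp : Par h R) : ∃ C : ℝ, 1 ≤ C ∧
    ∀ (b J : ℕ), 1 ≤ b → 32 * (4 * b + 1) ^ 2 * R ≤ J → ∀ {n d : ℕ} (lm : Fin d → Fin n → Fin n)
      (X : Nd → Nd → ℝ), Harm2 (2 * (4 * b + 1)) X → ∀ (L T K : ℕ) (S : St n),
      Valid (2 * (4 * b + 1)) L (T + J) K S →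
      ∃ S' : St n, Valid (2 * (4 * b + 1)) L T (K * b) S' ∧
        Om lm X h lam S' ≤ C * (4 * b + 1 : ℝ) ^ 2 * Om lm X h lam S := by
  obtain ⟨C1, hC1, st1⟩ := stage1 lam hlam
  obtain ⟨C2, hC2, st2⟩ := stage2 lam hlam
  obtain ⟨C3, hC3, st3⟩ := stage3 lam hlam h R hp
  have h8 : (1 : ℝ) ≤ 8 ^ lam := one_le_pow₀ (by norm_num)
  have hK2pos : 0 ≤ C2 * (8 ^ lam + 1 + C1) := by positivity
  set K2 : ℝ := C2 * (8 ^ lam + 1 + C1) with hK2
  refine ⟨C3 * (2 ^ lam * (K2 + 8 ^ lam) + 2 * K2 + 1 + (2 * 8 ^ lam + 1) * C1), ?_, ?_⟩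
  · have : (1 : ℝ) ≤ 2 ^ lam * (K2 + 8 ^ lam) + 2 * K2 + 1 + (2 * 8 ^ lam + 1) * C1 := by
      have : 0 ≤ 2 ^ lam * (K2 + 8 ^ lam) := by positivity
      have : 0 ≤ (2 * 8 ^ lam + 1) * C1 := by positivity
      linarith
    nlinarith
  intro b J hb hJR n d lm X hX L T K S hS
  set m := 4 * b + 1 with hm_def
  have hm : 1 ≤ m := by omega
  have hR := hp.hR
  have hJ32r : (32 * (m : ℝ) ^ 2) ≤ J := by
    have h1 : (32 * (m : ℝ) ^ 2) ≤ 32 * (m : ℝ) ^ 2 * R := by
      have : (0 : ℝ) ≤ 32 * (m : ℝ) ^ 2 := by positivity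
      nlinarith
    have h2 : (32 * (m : ℝ) ^ 2 * R) ≤ J := by
      rw [hm_def]; push_cast; exact hJR
    linarith
  have hJ32 : 32 * m ^ 2 ≤ J := by exact_mod_cast hJ32r
  have hJ1 : 1 ≤ J := by nlinarith
  have hmJ : m ≤ J := by nlinarith
  have hJpos : (0 : ℝ) < J := by exact_mod_cast hJ1
  obtain ⟨μ, hμmem, hμE⟩ := exists_opt (2 * m) m J (by omega) hm hJ1
  obtain ⟨H, hHmem, hHE⟩ := exists_host (2 * m) (by omega)
  have hμ : OptM h R m J μ := by
    refine ⟨hμmem, ?_, ?_, ?_⟩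
    · intro g hg P hP
      exact opt_P1 h hp.hh hp.hh1 (2 * m) m J (by omega) hm hJ1 μ hμE g hg P hP
    · intro g hg P hP
      exact opt_P2 h R hp.hh hp.hh1 hp.hR hp.hR4 m J hm hJ1 μ hμE g hg P hP
    · intro g hg P hP
      exact opt_P3 h hp.hh hp.hh1 m J hm hJ1 μ hμE g hg P hP
  have hH : HostM h m H := ⟨hHmem, fun g hg P => hHE h hp.hh hp.hh1 g hg P⟩
  -- the functionals
  have hMex : ∀ o : S.O, ∃ M : (Nd → ℝ) →ₗ[ℝ] ℝ, (∀ F, (∀ c, 0 ≤ F c) → 0 ≤ M F) ∧
      (∀ P', M (fun c => (X P' c) ^ h) ≤ 4 * (X P' (S.Q o)) ^ h) ∧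
      (o ∈ S.A → ∀ (P : Nd) (ω : ℕ × ℕ × ℕ), m * psiF h R X M m P ω =
        μ.E (fun w => tR h R X H m (nd1 (2 * m) P ω) (fun k => cell (2 * m) P ω k)
          (fun l => cell (2 * m) (S.Q o) w l))) ∧ (o ∉ S.A → ∀ F, M F = F (S.Q o)) := by
    intro o
    by_cases ho : o ∈ S.A
    · obtain ⟨M, h1, h2, h3⟩ := exists_muAct h R hp m J hm hJ1 μ hμ H hH X hX (S.Q o)
        (by have := hS.levQ o ho; omega)
      exact ⟨M, h1, h2, fun _ => h3, fun hh => absurd ho hh⟩
    · refine ⟨LinearMap.proj (R := ℝ) (φ := fun _ : Nd => ℝ) (S.Q o), ?_, ?_, ?_, ?_⟩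
      · intro F hF; exact hF _
      · intro P'
        change (X P' (S.Q o)) ^ h ≤ _
        have : 0 ≤ (X P' (S.Q o)) ^ h := Real.rpow_nonneg (hX.nn _ _) _
        linarith
      · intro hh; exact absurd hh ho
      · intro _ F; rfl
  choose M hMpos hM4 hMact hMfz using hMex
  set B : S.U → S.O → ℝ := fun u o => BB lm S.ρ S.γ u o with hBdef
  have hB : ∀ u o, 0 ≤ B u o := fun u o => BB_nonneg _ _ _ _ _
  obtain ⟨ω, hω, h1a, h1b, h1c⟩ := st1 h R hp m J hm hJ32 μ hμ X hX B hB S.P S.Q S.A M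
    (fun u => by have := hS.levP u; omega) hMpos hM4
  set N : S.U → Nd := fun u => nd1 (2 * m) (S.P u) (ω u) with hN
  set cl : S.U → Fin m → Nd := fun u k => cell (2 * m) (S.P u) (ω u) k with hcl
  obtain ⟨ω', hω', h2a, h2b, h2c, h2d⟩ := st2 h R hp m J hm hmJ μ hμ H X hX B hB N cl S.Q S.A
    (fun o ho => by have := hS.levQ o ho; omega)
  set I1 : S.O → Nd := fun o => if o ∈ S.A then nd1 (2 * m) (S.Q o) (ω' o) else S.Q o with hI1
  set cc : S.O → Fin m → Nd := fun o l => cell (2 * m) (S.Q o) (ω' o) l with hcc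
  have hxnn : ∀ u o, 0 ≤ (X (N u) (I1 o)) ^ h := fun u o => Real.rpow_nonneg (hX.nn _ _) _
  obtain ⟨kk, ll, hk1, hl1, hk2, hl2, hB3, hB1, hB2⟩ := stepCut lm S.ρ S.γ
    (fun u o => (X (N u) (I1 o)) ^ h) hxnn b hb
  set A' : Finset (S.O × Fin m) := univ.filter (fun w => w.1 ∈ S.A ∧
    2 ≤ (univ.filter (fun c => (S.γ c, ll c) = w)).card) with hA'
  have hA'mem : ∀ w, w ∈ A' ↔ w.1 ∈ S.A ∧ 2 ≤ (univ.filter (fun c => (S.γ c, ll c) = w)).card := by
    intro w; simp [hA']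
  obtain ⟨y, hy, h3⟩ := st3 m hm H hH X hX B hB N cl I1 cc S.A A'
    (fun v w => BB lm (fun i => (S.ρ i, kk i)) (fun c => (S.γ c, ll c)) v w)
    (fun v hv => ((hA'mem v).1 hv).1) (fun v w => BB_nonneg _ _ _ _ _) hB3 hB1
    (fun w hw => hB2 w ((hA'mem w).1 hw).2)
  refine ⟨newSt S kk ll (fun v => cell (2 * m) (S.P v.1) (ω v.1) v.2)
      (fun w => if w.1 ∈ S.A then (if w ∈ A' then cell (2 * m) (S.Q w.1) (ω' w.1) w.2
        else (0, y w)) else S.Q w.1) A', ?_, ?_⟩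
  · exact newSt_valid S hS kk ll ω ω' (fun u => hμ.mem _ (hω u)) (fun o => hμ.mem _ (hω' o)) y
      (fun w => (hH.mem _ _).1 (hy w)) hk1 hl1 hk2 hl2 A' hA'mem
  · -- the potential
    set Φu : S.U → ℝ := fun u => ∑ o, B u o * (X (S.P u) (S.Q o)) ^ h with hΦu
    set Φw : S.O → ℝ := fun o => ∑ u, B u o * (X (S.P u) (S.Q o)) ^ h with hΦw
    set PA : S.O → ℝ := fun o => ∑ u, B u o * (X (N u) (S.Q o)) ^ h with hPA
    set GG : S.O → ℝ := fun o => ∑ u, B u o * μ.E (fun w => tR h R X H m (N u) (cl u)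
          (fun l => cell (2 * m) (S.Q o) w l)) with hGG
    have hxx : ∀ P Q, 0 ≤ (X P Q) ^ h := fun P Q => Real.rpow_nonneg (hX.nn _ _) _
    have hΦu0 : ∀ u, 0 ≤ Φu u := fun u => Finset.sum_nonneg fun o _ => mul_nonneg (hB u o) (hxx _ _)
    have hΦw0 : ∀ o, 0 ≤ Φw o := fun o => Finset.sum_nonneg fun u _ => mul_nonneg (hB u o) (hxx _ _)
    have hPA0 : ∀ o, 0 ≤ PA o := fun o => Finset.sum_nonneg fun u _ => mul_nonneg (hB u o) (hxx _ _)
    have hpsi0 : ∀ u o, 0 ≤ psiF h R X (M o) m (S.P u) (ω u) := by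
      intro u o
      unfold psiF
      exact Finset.sum_nonneg fun k _ => hMpos o _ fun c => spk_nonneg (hX.nn _ _)
    -- GG in terms of psiF
    have hGGeq : ∀ o ∈ S.A, GG o = m * ∑ u, B u o * psiF h R X (M o) m (S.P u) (ω u) := by
      intro o ho
      simp only [hGG]
      rw [Finset.mul_sum]
      refine Finset.sum_congr rfl fun u _ => ?_
      have := hMact o ho (S.P u) (ω u)
      rw [← this]
      ring
    set OM : ℝ := Om lm X h lam S with hOM
    have hOMeq : OM = ∑ u, (Φu u) ^ lam + ∑ o ∈ S.A, (Φw o) ^ lam := rfl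
    have hsu : ∑ u, (Φu u) ^ lam ≤ OM := by
      rw [hOMeq]
      have : 0 ≤ ∑ o ∈ S.A, (Φw o) ^ lam := Finset.sum_nonneg fun o _ => pow_nonneg (hΦw0 o) _
      linarith
    have hOM0 : 0 ≤ OM := le_trans (Finset.sum_nonneg fun u _ => pow_nonneg (hΦu0 u) _) hsu
    have e1c : ∑ o ∈ S.A, (PA o) ^ lam + ∑ o ∈ S.A, (GG o) ^ lam ≤ C1 * OM := by
      have : ∑ o ∈ S.A, (GG o) ^ lam =
          ∑ o ∈ S.A, (m * ∑ u, B u o * psiF h R X (M o) m (S.P u) (ω u)) ^ lam :=
        Finset.sum_congr rfl fun o ho => by rw [hGGeq o ho]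
      rw [this]
      exact h1c
    have hGG0 : ∀ o ∈ S.A, 0 ≤ GG o := by
      intro o ho
      rw [hGGeq o ho]
      exact mul_nonneg (by positivity)
        (Finset.sum_nonneg fun u _ => mul_nonneg (hB u o) (hpsi0 u o))
    have hPAs : ∑ o ∈ S.A, (PA o) ^ lam ≤ C1 * OM := by
      have : 0 ≤ ∑ o ∈ S.A, (GG o) ^ lam := Finset.sum_nonneg fun o ho => pow_nonneg (hGG0 o ho) _
      linarith
    have hGGs : ∑ o ∈ S.A, (GG o) ^ lam ≤ C1 * OM := by
      have : 0 ≤ ∑ o ∈ S.A, (PA o) ^ lam := Finset.sum_nonneg fun o ho => pow_nonneg (hPA0 o) _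
      linarith
    have h32 : (32 * (m : ℝ) ^ 2 / J : ℝ) ≤ 1 := by
      rw [div_le_one hJpos]; exact hJ32r
    -- psi for a fixed row label
    have hps : ∀ u, m * ∑ o, B u o * psiF h R X (M o) m (S.P u) (ω u) ≤ Φu u := by
      intro u
      refine (h1b u).trans ?_
      calc (32 * (m : ℝ) ^ 2 / J : ℝ) * ∑ o, B u o * (X (S.P u) (S.Q o)) ^ h
          ≤ 1 * ∑ o, B u o * (X (S.P u) (S.Q o)) ^ h :=
            mul_le_mul_of_nonneg_right h32 (hΦu0 u)
        _ = Φu u := one_mul _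
    -- the right-hand side of stage 2
    have r1 : ∑ u, (∑ o ∈ S.A, B u o * (X (N u) (S.Q o)) ^ h) ^ lam ≤ 8 ^ lam * OM := by
      calc ∑ u, (∑ o ∈ S.A, B u o * (X (N u) (S.Q o)) ^ h) ^ lam
          ≤ ∑ u, (8 * Φu u) ^ lam := by
            refine Finset.sum_le_sum fun u _ => pow_le_pow_left₀
              (Finset.sum_nonneg fun o _ => mul_nonneg (hB u o) (hxx _ _)) ?_ _
            refine le_trans ?_ (h1a u)
            exact Finset.sum_le_sum_of_subset_of_nonneg (Finset.subset_univ _)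
              fun o _ _ => mul_nonneg (hB u o) (hxx _ _)
        _ = 8 ^ lam * ∑ u, (Φu u) ^ lam := by
            rw [Finset.mul_sum]; exact Finset.sum_congr rfl fun u _ => mul_pow _ _ _
        _ ≤ 8 ^ lam * OM := mul_le_mul_of_nonneg_left hsu (by positivity)
    have r2 : ∑ u, (∑ o ∈ S.A, B u o * μ.E (fun w => tR h R X H m (N u) (cl u)
          (fun l => cell (2 * m) (S.Q o) w l))) ^ lam ≤ OM := by
      refine le_trans ?_ hsu
      refine Finset.sum_le_sum fun u _ => ?_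
      have e : ∑ o ∈ S.A, B u o * μ.E (fun w => tR h R X H m (N u) (cl u)
          (fun l => cell (2 * m) (S.Q o) w l)) =
          m * ∑ o ∈ S.A, B u o * psiF h R X (M o) m (S.P u) (ω u) := by
        rw [Finset.mul_sum]
        refine Finset.sum_congr rfl fun o ho => ?_
        have := hMact o ho (S.P u) (ω u)
        rw [← this]
        ring
      rw [e]
      refine pow_le_pow_left₀ (mul_nonneg (by positivity)
        (Finset.sum_nonneg fun o _ => mul_nonneg (hB u o) (hpsi0 u o))) ?_ _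
      refine le_trans ?_ (hps u)
      refine mul_le_mul_of_nonneg_left ?_ (by positivity)
      exact Finset.sum_le_sum_of_subset_of_nonneg (Finset.subset_univ _)
              fun o _ _ => mul_nonneg (hB u o) (hpsi0 u o)
    set s1 : S.U → ℝ := fun u => ∑ o ∈ S.A, B u o * (X (N u) (nd1 (2 * m) (S.Q o) (ω' o))) ^ h
      with hs1
    set s2 : S.U → ℝ := fun u => ∑ o ∈ S.A, B u o * tC h R X m (N u)
      (nd1 (2 * m) (S.Q o) (ω' o)) (fun l => cell (2 * m) (S.Q o) (ω' o) l) with hs2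
    set s3 : S.U → ℝ := fun u => ∑ o ∈ S.A, B u o * tR h R X H m (N u) (cl u)
          (fun l => cell (2 * m) (S.Q o) (ω' o) l) with hs3
    have htC0 : ∀ u o, 0 ≤ tC h R X m (N u) (nd1 (2 * m) (S.Q o) (ω' o))
        (fun l => cell (2 * m) (S.Q o) (ω' o) l) := fun u o =>
      Finset.sum_nonneg fun l _ => spk_nonneg (hX.nn _ _)
    have htR0 : ∀ u o, 0 ≤ tR h R X H m (N u) (cl u)
          (fun l => cell (2 * m) (S.Q o) (ω' o) l) := fun u o =>
      Finset.sum_nonneg fun k _ => Finset.sum_nonneg fun l _ => add_nonneg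
        (spk_nonneg (hX.nn _ _)) (Finset.sum_nonneg fun y _ => mul_nonneg ((H _).nn _)
          (spk_nonneg (hX.nn _ _)))
    have hs10 : ∀ u, 0 ≤ s1 u := fun u =>
      Finset.sum_nonneg fun o _ => mul_nonneg (hB u o) (hxx _ _)
    have hs20 : ∀ u, 0 ≤ s2 u := fun u =>
      Finset.sum_nonneg fun o _ => mul_nonneg (hB u o) (htC0 _ _)
    have hs30 : ∀ u, 0 ≤ s3 u := fun u =>
      Finset.sum_nonneg fun o _ => mul_nonneg (hB u o) (htR0 _ _)
    have h2 : ∑ u, (s1 u) ^ lam + ∑ u, (s2 u) ^ lam + ∑ u, (s3 u) ^ lam ≤ K2 * OM := by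
      refine h2d.trans ?_
      rw [hK2, mul_assoc]
      refine mul_le_mul_of_nonneg_left ?_ (by linarith)
      have : (8 ^ lam + 1 + C1) * OM = 8 ^ lam * OM + OM + C1 * OM := by ring
      rw [this]
      linarith [r1, r2, e1c]
    have n1 : 0 ≤ ∑ u, (s1 u) ^ lam := Finset.sum_nonneg fun u _ => pow_nonneg (hs10 u) _
    have n2 : 0 ≤ ∑ u, (s2 u) ^ lam := Finset.sum_nonneg fun u _ => pow_nonneg (hs20 u) _
    have n3 : 0 ≤ ∑ u, (s3 u) ^ lam := Finset.sum_nonneg fun u _ => pow_nonneg (hs30 u) _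
    have hI1A : ∀ o ∈ S.A, I1 o = nd1 (2 * m) (S.Q o) (ω' o) := fun o ho => if_pos ho
    have hI1n : ∀ o, o ∉ S.A → I1 o = S.Q o := fun o ho => if_neg ho
    -- the seven sums
    have t1 : ∑ u, (∑ o, B u o * (X (N u) (I1 o)) ^ h) ^ lam ≤ 2 ^ lam * (K2 + 8 ^ lam) * OM := by
      have key : ∀ u, (∑ o, B u o * (X (N u) (I1 o)) ^ h) ^ lam ≤
          2 ^ lam * ((s1 u) ^ lam + 8 ^ lam * (Φu u) ^ lam) := by
        intro u
        have e1 : ∑ o, B u o * (X (N u) (I1 o)) ^ h ≤ s1 u + 8 * Φu u := by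
          rw [← Finset.sum_add_sum_compl S.A]
          refine add_le_add (le_of_eq ?_) ?_
          · exact Finset.sum_congr rfl fun o ho => by rw [hI1A o ho]
          · refine le_trans ?_ (h1a u)
            rw [Finset.sum_congr rfl (fun o ho => by
              rw [hI1n o (Finset.mem_compl.1 ho)] :
              ∀ o ∈ S.Aᶜ, B u o * (X (N u) (I1 o)) ^ h = B u o * (X (N u) (S.Q o)) ^ h)]
            exact Finset.sum_le_sum_of_subset_of_nonneg (Finset.subset_univ _)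
              fun o _ _ => mul_nonneg (hB u o) (hxx _ _)
        calc (∑ o, B u o * (X (N u) (I1 o)) ^ h) ^ lam ≤ (s1 u + 8 * Φu u) ^ lam :=
              pow_le_pow_left₀ (Finset.sum_nonneg fun o _ => mul_nonneg (hB u o) (hxx _ _)) e1 _
          _ ≤ 2 ^ (lam - 1) * ((s1 u) ^ lam + (8 * Φu u) ^ lam) :=
              add_pow_le (hs10 u) (by have := hΦu0 u; positivity) _
          _ ≤ 2 ^ lam * ((s1 u) ^ lam + (8 * Φu u) ^ lam) := by
              refine mul_le_mul_of_nonneg_right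
                (pow_le_pow_right₀ (by norm_num) (Nat.sub_le _ _)) ?_
              have := hΦu0 u
              have := hs10 u
              positivity
          _ = _ := by rw [mul_pow]
      calc ∑ u, (∑ o, B u o * (X (N u) (I1 o)) ^ h) ^ lam
          ≤ ∑ u, 2 ^ lam * ((s1 u) ^ lam + 8 ^ lam * (Φu u) ^ lam) :=
            Finset.sum_le_sum fun u _ => key u
        _ = 2 ^ lam * (∑ u, (s1 u) ^ lam + 8 ^ lam * ∑ u, (Φu u) ^ lam) := by
            rw [← Finset.mul_sum, Finset.sum_add_distrib, Finset.mul_sum]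
        _ ≤ 2 ^ lam * (K2 * OM + 8 ^ lam * OM) := by
            refine mul_le_mul_of_nonneg_left ?_ (by positivity)
            have : 8 ^ lam * ∑ u, (Φu u) ^ lam ≤ 8 ^ lam * OM :=
              mul_le_mul_of_nonneg_left hsu (by positivity)
            linarith
        _ = _ := by ring
    have t2 : ∑ u, (∑ o ∈ S.A, B u o * tC h R X m (N u) (I1 o) (cc o)) ^ lam ≤ K2 * OM := by
      have : ∑ u, (∑ o ∈ S.A, B u o * tC h R X m (N u) (I1 o) (cc o)) ^ lam =
          ∑ u, (s2 u) ^ lam := by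
        refine Finset.sum_congr rfl fun u _ => ?_
        congr 1
        exact Finset.sum_congr rfl fun o ho => by rw [hI1A o ho]
      rw [this]
      linarith
    have t3 : ∑ u, (∑ o ∈ S.A, B u o * tR h R X H m (N u) (cl u) (cc o)) ^ lam ≤ K2 * OM := by
      have : ∑ u, (∑ o ∈ S.A, B u o * tR h R X H m (N u) (cl u) (cc o)) ^ lam =
          ∑ u, (s3 u) ^ lam := rfl
      rw [this]
      linarith
    have t4 : ∑ u, (m * ∑ o ∈ S.Aᶜ, B u o * ∑ k : Fin m,
        spk h R (X (N u) (I1 o)) (X (cl u k) (I1 o))) ^ lam ≤ OM := by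
      refine le_trans (Finset.sum_le_sum fun u _ => ?_) hsu
      refine pow_le_pow_left₀ (mul_nonneg (by positivity) (Finset.sum_nonneg fun o _ =>
        mul_nonneg (hB u o) (Finset.sum_nonneg fun k _ => spk_nonneg (hX.nn _ _)))) ?_ _
      refine le_trans ?_ (hps u)
      refine mul_le_mul_of_nonneg_left ?_ (by positivity)
      rw [Finset.sum_congr rfl (fun o ho => by
        rw [hI1n o (Finset.mem_compl.1 ho), lin_eq_of h R X (M o) (S.Q o)
          (hMfz o (Finset.mem_compl.1 ho))] :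
        ∀ o ∈ S.Aᶜ, B u o * ∑ k : Fin m, spk h R (X (N u) (I1 o)) (X (cl u k) (I1 o)) =
          B u o * psiF h R X (M o) m (S.P u) (ω u))]
      exact Finset.sum_le_sum_of_subset_of_nonneg (Finset.subset_univ _)
              fun o _ _ => mul_nonneg (hB u o) (hpsi0 u o)
    have t5 : ∑ o ∈ S.A, (∑ u, B u o * (X (N u) (I1 o)) ^ h) ^ lam ≤ 8 ^ lam * (C1 * OM) := by
      calc ∑ o ∈ S.A, (∑ u, B u o * (X (N u) (I1 o)) ^ h) ^ lam
          ≤ ∑ o ∈ S.A, (8 * PA o) ^ lam := by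
            refine Finset.sum_le_sum fun o ho => pow_le_pow_left₀
              (Finset.sum_nonneg fun u _ => mul_nonneg (hB u o) (hxx _ _)) ?_ _
            rw [hI1A o ho]
            exact h2a o ho
        _ = 8 ^ lam * ∑ o ∈ S.A, (PA o) ^ lam := by
            rw [Finset.mul_sum]; exact Finset.sum_congr rfl fun u _ => mul_pow _ _ _
        _ ≤ _ := mul_le_mul_of_nonneg_left hPAs (by positivity)
    have h8m : (m : ℝ) * (8 * m / J) ≤ 1 := by
      have : (m : ℝ) * (8 * m / J) = (8 * (m : ℝ) ^ 2) / J := by ring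
      rw [this, div_le_one hJpos]
      have : 0 ≤ (m : ℝ) ^ 2 := by positivity
      linarith
    have t6 : ∑ o ∈ S.A, (m * ∑ u, B u o * tC h R X m (N u) (I1 o) (cc o)) ^ lam ≤ C1 * OM := by
      refine le_trans (Finset.sum_le_sum fun o ho => ?_) hPAs
      rw [hI1A o ho]
      refine pow_le_pow_left₀ (mul_nonneg (by positivity) (Finset.sum_nonneg fun u _ =>
        mul_nonneg (hB u o) (htC0 u o))) ?_ _
      calc (m : ℝ) * ∑ u, B u o * tC h R X m (N u) (nd1 (2 * m) (S.Q o) (ω' o)) (cc o)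
          ≤ m * ((8 * m / J : ℝ) * PA o) :=
            mul_le_mul_of_nonneg_left (h2b o ho) (by positivity)
        _ = (m * (8 * m / J)) * PA o := by ring
        _ ≤ 1 * PA o := mul_le_mul_of_nonneg_right h8m (hPA0 o)
        _ = PA o := one_mul _
    have t7 : ∑ o ∈ S.A, (∑ u, B u o * tR h R X H m (N u) (cl u) (cc o)) ^ lam ≤
        8 ^ lam * (C1 * OM) := by
      calc ∑ o ∈ S.A, (∑ u, B u o * tR h R X H m (N u) (cl u) (cc o)) ^ lam
          ≤ ∑ o ∈ S.A, (8 * GG o) ^ lam := by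
            refine Finset.sum_le_sum fun o ho => pow_le_pow_left₀
              (Finset.sum_nonneg fun u _ => mul_nonneg (hB u o) (htR0 u o)) (h2c o ho) _
        _ = 8 ^ lam * ∑ o ∈ S.A, (GG o) ^ lam := by
            rw [Finset.mul_sum]; exact Finset.sum_congr rfl fun u _ => mul_pow _ _ _
        _ ≤ _ := mul_le_mul_of_nonneg_left hGGs (by positivity)
    have hLHS : Om lm X h lam (newSt S kk ll (fun v => cell (2 * m) (S.P v.1) (ω v.1) v.2)
      (fun w => if w.1 ∈ S.A then (if w ∈ A' then cell (2 * m) (S.Q w.1) (ω' w.1) w.2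
        else (0, y w)) else S.Q w.1) A') =
        ∑ v : S.U × Fin m, (∑ w : S.O × Fin m,
          BB lm (fun i => (S.ρ i, kk i)) (fun c => (S.γ c, ll c)) v w * (X (cl v.1 v.2)
          (if w.1 ∈ S.A then (if w ∈ A' then cc w.1 w.2 else (0, y w)) else I1 w.1)) ^ h) ^ lam +
        ∑ w ∈ A', (∑ v : S.U × Fin m,
          BB lm (fun i => (S.ρ i, kk i)) (fun c => (S.γ c, ll c)) v w *
            (X (cl v.1 v.2) (cc w.1 w.2)) ^ h) ^ lam := by
      have e0 : ∀ w : S.O × Fin m, (if w.1 ∈ S.A then (if w ∈ A' then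
          cell (2 * m) (S.Q w.1) (ω' w.1) w.2 else (0, y w)) else S.Q w.1) =
          (if w.1 ∈ S.A then (if w ∈ A' then cc w.1 w.2 else (0, y w)) else I1 w.1) := by
        intro w
        by_cases hw : w.1 ∈ S.A
        · rw [if_pos hw, if_pos hw]
        · rw [if_neg hw, if_neg hw, hI1n _ hw]
      have e1 : ∀ w ∈ A', (if w.1 ∈ S.A then (if w ∈ A' then
          cell (2 * m) (S.Q w.1) (ω' w.1) w.2 else (0, y w)) else S.Q w.1) = cc w.1 w.2 := by
        intro w hw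
        rw [if_pos ((hA'mem w).1 hw).1, if_pos hw]
      change ∑ v : S.U × Fin m, (∑ w : S.O × Fin m,
          BB lm (fun i => (S.ρ i, kk i)) (fun c => (S.γ c, ll c)) v w *
          (X (cell (2 * m) (S.P v.1) (ω v.1) v.2)
          (if w.1 ∈ S.A then (if w ∈ A' then cell (2 * m) (S.Q w.1) (ω' w.1) w.2
            else (0, y w)) else S.Q w.1)) ^ h) ^ lam +
        ∑ w ∈ A', (∑ v : S.U × Fin m,
          BB lm (fun i => (S.ρ i, kk i)) (fun c => (S.γ c, ll c)) v w *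
            (X (cell (2 * m) (S.P v.1) (ω v.1) v.2) (if w.1 ∈ S.A then (if w ∈ A' then
          cell (2 * m) (S.Q w.1) (ω' w.1) w.2 else (0, y w)) else S.Q w.1)) ^ h) ^ lam = _
      congr 1
      · refine Finset.sum_congr rfl fun v _ => ?_
        congr 1
        exact Finset.sum_congr rfl fun w _ => by rw [e0 w]
      · refine Finset.sum_congr rfl fun w hw => ?_
        congr 1
        exact Finset.sum_congr rfl fun v _ => by rw [e1 w hw]
    rw [hLHS]
    refine h3.trans ?_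
    have hmcast : (m : ℝ) = 4 * b + 1 := by rw [hm_def]; push_cast; ring
    have hC3m : 0 ≤ C3 * (m : ℝ) ^ 2 := by positivity
    calc C3 * (m : ℝ) ^ 2 * _ ≤ C3 * (m : ℝ) ^ 2 *
          (2 ^ lam * (K2 + 8 ^ lam) * OM + K2 * OM + K2 * OM + OM + 8 ^ lam * (C1 * OM) + C1 * OM +
            8 ^ lam * (C1 * OM)) := by
          refine mul_le_mul_of_nonneg_left ?_ hC3m
          linarith [t1, t2, t3, t4, t5, t6, t7]
      _ = C3 * (2 ^ lam * (K2 + 8 ^ lam) + 2 * K2 + 1 + (2 * 8 ^ lam + 1) * C1) *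
          (m : ℝ) ^ 2 * OM := by ring
      _ = _ := by rw [hmcast]

end Pool.Agent.H69.FK
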