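import Pool.Agent.H69.FK.BoxF
import Pool.Agent.H69.FK.Num

/-! Module THMF. Theorem F. -/

namespace Pool.Agent.H69.FK

open Finset

/-- a subset of `M` elements with at most the average of `f` -/
theorem exists_sub (f : ℕ → ℝ) (M : ℕ) : ∀ (k : ℕ) (S : Finset ℕ), S.card = M + k →
    ∃ S' ⊆ S, S'.card = M ∧ (S.card : ℝ) * ∑ x ∈ S', f x ≤ (M : ℝ) * ∑ x ∈ S, f x := by
  intro k
  induction k with
  | zero =>
    intro S hS
    refine ⟨S, Finset.Subset.refl S, by omega, ?_⟩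
    rw [hS, Nat.add_zero]
  | succ k ih =>
    intro S hS
    have hne : S.Nonempty := Finset.card_pos.mp (by omega)
    obtain ⟨s, hs, hmax⟩ := Finset.exists_max_image S f hne
    have hc1 : (S.erase s).card = M + k := by
      rw [Finset.card_erase_of_mem hs]; omega
    obtain ⟨S', hS', hS'c, hle⟩ := ih (S.erase s) hc1
    refine ⟨S', hS'.trans (Finset.erase_subset s S), hS'c, ?_⟩
    by_cases h0 : M + k = 0
    · have hM : M = 0 := by omega
      have hE : S' = ∅ := Finset.card_eq_zero.mp (by omega)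
      rw [hE, hM]
      simp
    · have hpos : (0 : ℝ) < ((M + k : ℕ) : ℝ) := by
        exact_mod_cast Nat.pos_of_ne_zero h0
      have h1 : ∑ x ∈ S, f x ≤ (S.card : ℝ) * f s := by
        have := Finset.sum_le_card_nsmul S f (f s) (fun x hx => hmax x hx)
        rwa [nsmul_eq_mul] at this
      have h2 : ∑ x ∈ S.erase s, f x = ∑ x ∈ S, f x - f s := by
        rw [← Finset.sum_erase_add S f hs]; ring
      rw [hc1, h2] at hle
      have h3 : (S.card : ℝ) = ((M + k : ℕ) : ℝ) + 1 := by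
        rw [hS]; push_cast; ring
      rw [h3] at h1 ⊢
      have hM0 : (0 : ℝ) ≤ (M : ℝ) := Nat.cast_nonneg M
      set c : ℝ := ((M + k : ℕ) : ℝ)
      set A : ℝ := ∑ x ∈ S', f x
      set B : ℝ := ∑ x ∈ S, f x
      have h4 : (c + 1) * (B - f s) ≤ c * B := by nlinarith
      have h5 : c * ((c + 1) * A) ≤ c * ((M : ℝ) * B) := by
        calc c * ((c + 1) * A) = (c + 1) * (c * A) := by ring
          _ ≤ (c + 1) * ((M : ℝ) * (B - f s)) := mul_le_mul_of_nonneg_left hle (by linarith)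
          _ = (M : ℝ) * ((c + 1) * (B - f s)) := by ring
          _ ≤ (M : ℝ) * (c * B) := mul_le_mul_of_nonneg_left h4 hM0
          _ = c * ((M : ℝ) * B) := by ring
      exact le_of_mul_le_mul_left h5 hpos

open Classical in
/-- the number of elements of `W` in `S × T` -/
theorem ncard_box (W : Set (ℕ × ℕ)) (S T : Finset ℕ) :
    ((W ∩ {z | z.1 ∈ S ∧ z.2 ∈ T}).ncard : ℝ) =
      ∑ x ∈ S, ∑ y ∈ T, (if (x, y) ∈ W then (1 : ℝ) else 0) := by
  have h1 : W ∩ {z | z.1 ∈ S ∧ z.2 ∈ T} = (((S ×ˢ T).filter fun z => z ∈ W : Finset (ℕ × ℕ)) : Set (ℕ × ℕ)) := by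
    ext z
    simp only [Set.mem_inter_iff, Set.mem_setOf_eq, Finset.coe_filter, Finset.mem_product]
    tauto
  rw [h1, Set.ncard_coe_finset, Finset.card_filter, Finset.sum_product]
  push_cast
  rfl

/-- sums over the enumeration of a finite set -/
theorem sum_enum (S : Finset ℕ) (M : ℕ) (hS : S.card = M) (e : ℕ → ℕ)
    (he : ∀ i : Fin M, e i = S.orderEmbOfFin hS i) (f : ℕ → ℝ) :
    ∑ i ∈ range M, f (e i) = ∑ x ∈ S, f x := by
  rw [Finset.sum_range]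
  conv_rhs => rw [← Finset.map_orderEmbOfFin_univ S hS, Finset.sum_map]
  exact Finset.sum_congr rfl fun i _ => by rw [he i]; rfl

/-- THEOREM F. -/
theorem thmF (δ : ℝ) (hδ : 0 < δ) (hδ2 : δ ≤ 1 / 2) : ∃ a : ℕ, 1 ≤ a ∧ ∀ d : ℕ, ∃ n0 : ℕ,
    ∀ n, n0 ≤ n → ∀ (lm : Fin d → Fin n → Fin n) (S T : Finset ℕ), n ^ a ≤ S.card →
      n ^ a ≤ T.card → ∀ W : Set (ℕ × ℕ),
      ((W ∩ {z | z.1 ∈ S ∧ z.2 ∈ T}).ncard : ℝ) ≤ (n : ℝ) ^ (-(1 / 2 + δ)) * (S.card * T.card) →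
      ∃ t y : Fin n → ℕ, StrictMono t ∧ StrictMono y ∧ (∀ i, t i ∈ S) ∧ (∀ i, y i ∈ T) ∧
        ∀ e i, (t i, y (lm e i)) ∉ W := by
  classical
  obtain ⟨b, J, hb, hJ, hbox⟩ := boxF δ hδ hδ2
  obtain ⟨A, hA⟩ := exists_A hb ((2 * (4 * b + 1)) ^ J)
  refine ⟨2 * A + 1, by omega, fun d => ?_⟩
  obtain ⟨n0, hn0⟩ := hbox d
  refine ⟨max n0 b, fun n hn lm S T hS hT W hW => ?_⟩
  have hn0' : n0 ≤ n := le_trans (le_max_left _ _) hn
  have hbn : b ≤ n := le_trans (le_max_right _ _) hn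
  have hn1 : 1 ≤ n := by omega
  -- number of steps
  set D : ℕ := Nat.log b n + 1 with hD
  have hD1 : n < b ^ D := Nat.lt_pow_succ_log_self (by omega) n
  have hD2 : b ^ D ≤ b * n := by
    rw [hD, pow_succ']
    exact Nat.mul_le_mul_left b (Nat.pow_log_le_self b (by omega))
  set M : ℕ := (2 * (4 * b + 1)) ^ (J * D) with hM
  have hMn : M ≤ n ^ (2 * A + 1) := by
    calc M = ((2 * (4 * b + 1)) ^ J) ^ D := by rw [hM, pow_mul]
      _ ≤ n ^ (2 * A) := host_le hA hbn hD2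
      _ ≤ n ^ (2 * A + 1) := Nat.pow_le_pow_right hn1 (by omega)
  have hpowpos : 0 < n ^ (2 * A + 1) := Nat.pow_pos hn1
  have hSpos : (0 : ℝ) < (S.card : ℝ) := by
    have : 0 < S.card := lt_of_lt_of_le hpowpos hS
    exact_mod_cast this
  have hTpos : (0 : ℝ) < (T.card : ℝ) := by
    have : 0 < T.card := lt_of_lt_of_le hpowpos hT
    exact_mod_cast this
  set c : ℝ := (n : ℝ) ^ (-(1 / 2 + δ)) with hc
  set g : ℕ → ℕ → ℝ := fun x y => if (x, y) ∈ W then (1 : ℝ) else 0 with hg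
  have hM0 : (0 : ℝ) ≤ (M : ℝ) := Nat.cast_nonneg M
  -- the rows
  obtain ⟨S', hS's, hS'c, hS'le⟩ := exists_sub (fun x => ∑ y ∈ T, g x y) M (S.card - M) S
    (by have := hMn.trans hS; omega)
  have hW1 : ∑ x ∈ S, ∑ y ∈ T, g x y ≤ c * (S.card * T.card) := by
    rw [← ncard_box]; exact hW
  have hr : ∑ x ∈ S', ∑ y ∈ T, g x y ≤ (M : ℝ) * (c * T.card) := by
    have h1 : (S.card : ℝ) * ∑ x ∈ S', ∑ y ∈ T, g x y ≤ (S.card : ℝ) * ((M : ℝ) * (c * T.card)) := by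
      calc (S.card : ℝ) * ∑ x ∈ S', ∑ y ∈ T, g x y ≤ (M : ℝ) * ∑ x ∈ S, ∑ y ∈ T, g x y := hS'le
        _ ≤ (M : ℝ) * (c * (S.card * T.card)) := mul_le_mul_of_nonneg_left hW1 hM0
        _ = _ := by ring
    exact le_of_mul_le_mul_left h1 hSpos
  -- the columns
  obtain ⟨T', hT's, hT'c, hT'le⟩ := exists_sub (fun y => ∑ x ∈ S', g x y) M (T.card - M) T
    (by have := hMn.trans hT; omega)
  have hcl : ∑ x ∈ S', ∑ y ∈ T', g x y ≤ c * (M : ℝ) ^ 2 := by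
    have h1 : (T.card : ℝ) * ∑ x ∈ S', ∑ y ∈ T', g x y ≤ (T.card : ℝ) * (c * (M : ℝ) ^ 2) := by
      rw [Finset.sum_comm]
      calc (T.card : ℝ) * ∑ y ∈ T', ∑ x ∈ S', g x y ≤ (M : ℝ) * ∑ y ∈ T, ∑ x ∈ S', g x y := hT'le
        _ = (M : ℝ) * ∑ x ∈ S', ∑ y ∈ T, g x y := by rw [Finset.sum_comm]
        _ ≤ (M : ℝ) * ((M : ℝ) * (c * T.card)) := mul_le_mul_of_nonneg_left hr hM0
        _ = _ := by ring
    exact le_of_mul_le_mul_left h1 hTpos
  -- the enumerations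
  set e1 : ℕ → ℕ := fun i => if h : i < M then S'.orderEmbOfFin hS'c ⟨i, h⟩ else 0 with he1
  set e2 : ℕ → ℕ := fun i => if h : i < M then T'.orderEmbOfFin hT'c ⟨i, h⟩ else 0 with he2
  have hE1 : ∀ i : Fin M, e1 i = S'.orderEmbOfFin hS'c i := fun i => by
    simp only [he1, i.isLt, dif_pos]
  have hE2 : ∀ i : Fin M, e2 i = T'.orderEmbOfFin hT'c i := fun i => by
    simp only [he2, i.isLt, dif_pos]
  have hcount : ((({z : ℕ × ℕ | (e1 z.1, e2 z.2) ∈ W} : Set (ℕ × ℕ)) ∩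
      {z | z.1 < M ∧ z.2 < M}).ncard : ℝ) ≤ c * (M : ℝ) ^ 2 := by
    have h1 : ({z : ℕ × ℕ | z.1 < M ∧ z.2 < M} : Set (ℕ × ℕ)) =
        {z | z.1 ∈ range M ∧ z.2 ∈ range M} := by
      ext z; simp only [Set.mem_setOf_eq, Finset.mem_range]
    rw [h1, ncard_box]
    calc ∑ x ∈ range M, ∑ y ∈ range M,
          (if (x, y) ∈ ({z : ℕ × ℕ | (e1 z.1, e2 z.2) ∈ W} : Set (ℕ × ℕ)) then (1 : ℝ) else 0)
        = ∑ x ∈ range M, ∑ y ∈ range M, g (e1 x) (e2 y) := rfl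
      _ = ∑ x ∈ range M, ∑ y ∈ T', g (e1 x) y :=
          Finset.sum_congr rfl fun x _ => sum_enum T' M hT'c e2 hE2 (fun y => g (e1 x) y)
      _ = ∑ x ∈ S', ∑ y ∈ T', g x y := sum_enum S' M hS'c e1 hE1 (fun x => ∑ y ∈ T', g x y)
      _ ≤ _ := hcl
  obtain ⟨t, y, ht, hy, htM, hyM, hfree⟩ := hn0 n hn0' lm D hD1 hD2
    {z : ℕ × ℕ | (e1 z.1, e2 z.2) ∈ W} (by
      rw [← hM]
      refine hcount.trans (le_of_eq ?_)
      rw [hM]; push_cast; ring)
  refine ⟨fun i => e1 (t i), fun i => e2 (y i), ?_, ?_, ?_, ?_, ?_⟩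
  · intro i j hij
    have h1 := hE1 ⟨t i, htM i⟩
    have h2 := hE1 ⟨t j, htM j⟩
    change e1 (t i) < e1 (t j)
    change e1 (t i) = _ at h1
    change e1 (t j) = _ at h2
    rw [h1, h2]
    exact (S'.orderEmbOfFin hS'c).strictMono (ht hij)
  · intro i j hij
    have h1 := hE2 ⟨y i, hyM i⟩
    have h2 := hE2 ⟨y j, hyM j⟩
    change e2 (y i) < e2 (y j)
    change e2 (y i) = _ at h1
    change e2 (y j) = _ at h2
    rw [h1, h2]
    exact (T'.orderEmbOfFin hT'c).strictMono (hy hij)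
  · intro i
    have h1 := hE1 ⟨t i, htM i⟩
    change e1 (t i) = _ at h1
    change e1 (t i) ∈ S
    rw [h1]
    exact hS's (S'.orderEmbOfFin_mem hS'c _)
  · intro i
    have h1 := hE2 ⟨y i, hyM i⟩
    change e2 (y i) = _ at h1
    change e2 (y i) ∈ T
    rw [h1]
    exact hT's (T'.orderEmbOfFin_mem hT'c _)
  · intro e i
    exact hfree e i

end Pool.Agent.H69.FK
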